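import Pool.Agent.Lib.PolyTime.EqOps

/-!
# From `FP` to Mathlib's `TM2ComputableInPolyTime`
-/

set_option linter.unusedSimpArgs false

namespace Pool.Agent.Lib.PolyTime

open Turing Function


section Bridge

variable {I O : Type}

/-- The alphabet of the final machine. -/
abbrev Al (I O : Type) := Bool ⊕ I ⊕ O

/-- Convert the reversed input in register `1` to a tree in register `0`. -/
def inConv (O : Type) (c : I → T) : Prog (Al I O) :=
  .whl 1 (.popc 1 fun a => match a with
    | some (.inr (.inl a)) =>
      .seq (pushList 0 ((c a).word (.inl false) (.inl true))) (.push 0 (.inl true))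
    | _ => .skip)

theorem below_inConv (c : I → T) : Below (inConv O c) 3 := by
  refine ⟨by omega, by omega, fun a => ?_⟩
  rcases a with _ | (_ | _ | _)
  · trivial
  · trivial
  · exact ⟨below_pushList (by omega) _, by show 0 < 3; omega⟩
  · trivial

theorem run_inConv (c : I → T) (M : ℕ) (hM : ∀ a, (c a).size ≤ M) (r : List I) :
    ∀ (t : T) (s : St (Al I O)), s 0 = t.word (.inl false) (.inl true) →
      s 1 = r.map (fun a => .inr (.inl a)) →
      Run (inConv O c) s (update (update s 1 []) 0
        ((r.foldl (fun t a => T.node (c a) t) t).word (.inl false) (.inl true)))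
        ((2 * M + 5) * r.length + 1) := by
  induction r with
  | nil =>
    intro t s h0 h1
    refine (Run.whl_done (by simpa using h1)).cast ?_ (by simp)
    simp only [List.foldl_nil]
    simp only [List.map_nil] at h1
    rw [← h0, update_comm one_ne_zero, update_eq_self, ← h1, update_eq_self]
  | cons a r ih =>
    intro t s h0 h1
    have e1 : Run (.seq (pushList 0 ((c a).word (.inl false) (.inl true))) (.push 0 (.inl true)))
        (update s 1 (r.map (fun a => .inr (.inl a))))
        (update (update s 1 (r.map (fun a => .inr (.inl a)))) 0
          ((T.node (c a) t).word (.inl false) (.inl true))) (2 * M + 3) := by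
      refine ((run_pushList _ _).seq (Run.push 0 _ _)).cast ?_ ?_
      · funext i
        simp only [update_apply]
        split_ifs <;> simp_all [T.word]
      · have := hM a
        simp
        omega
    have e2 := ih (T.node (c a) t) (update (update s 1 (r.map (fun a => .inr (.inl a)))) 0
          ((T.node (c a) t).word (.inl false) (.inl true))) (by simp) (by simp)
    refine (Run.whl_step (by simp [h1]) (Run.popc_cons (a := .inr (.inl a))
      (l := r.map (fun a => .inr (.inl a))) (by simpa using h1) e1) e2).cast ?_ ?_
    · funext i
      simp only [update_apply]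
      split_ifs <;> simp_all [T.word]
    · simp only [List.length_cons]
      nlinarith

theorem foldl_reverse_ofList (c : I → T) (l : List I) :
    l.reverse.foldl (fun t a => T.node (c a) t) .nil = T.ofList c l := by
  rw [List.foldl_reverse]
  induction l with
  | nil => rfl
  | cons a l ih => simp [ih]

/-- Read the unary index of a symbol from register `0` and push the symbol on register `2`. -/
def readSym (I : Type) {O : Type} : List O → Prog (Al I O)
  | [] => .skip
  | b :: L => .popc 0 fun a => match a with
    | some (.inl true) => .popc 0 fun _ => readSym I L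
    | _ => .push 2 (.inr (.inr b))

theorem below_readSym (L : List O) : Below (readSym I L) 3 := by
  induction L with
  | nil => trivial
  | cons b L ih =>
    refine ⟨by omega, fun a => ?_⟩
    rcases a with _ | ((_ | _) | _)
    · show 2 < 3; omega
    · show 2 < 3; omega
    · exact ⟨by omega, fun _ => ih⟩
    · show 2 < 3; omega

theorem run_readSym (L : List O) : ∀ (i : ℕ) (b : O) (rest : List (Al I O)) (s : St (Al I O)),
    L[i]? = some b → s 0 = (T.unary i).word (.inl false) (.inl true) ++ rest →
    Run (readSym I L) s (update (update s 0 rest) 2 (.inr (.inr b) :: s 2)) (2 * i + 2) := by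
  induction L with
  | nil => intro i b rest s h; simp at h
  | cons b' L ih =>
    intro i b rest s h h0
    cases i with
    | zero =>
      have hb : b' = b := by simpa using h
      subst hb
      refine (Run.popc_cons (a := .inl false) (l := rest) (by simpa [T.word] using h0)
        (Run.push 2 _ _)).cast ?_ (by omega)
      funext i
      simp only [update_apply]
      split_ifs <;> simp_all
    | succ i =>
      have e1 := ih i b rest (update s 0 ((T.unary i).word (.inl false) (.inl true) ++ rest))
        (by simpa using h) (by simp)
      refine (Run.popc_cons (a := .inl true)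
        (l := .inl false :: ((T.unary i).word (.inl false) (.inl true) ++ rest))
        (t := 2 * i + 2 + 1)
        (by simpa [T.word] using h0) ?_).cast (s' := update (update s 0 rest) 2
          (.inr (.inr b) :: s 2)) rfl (by omega)
      refine Run.popc_cons (a := .inl false)
        (l := ((T.unary i).word (.inl false) (.inl true) ++ rest)) (t := 2 * i + 2) (by simp) ?_
      rw [update_idem]
      refine e1.cast ?_ le_rfl
      funext i
      simp only [update_apply]
      split_ifs <;> simp_all

/-- The loop body of `outConv`. -/
def outBody (I : Type) {O : Type} (L : List O) : Prog (Al I O) :=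
  .popc 0 fun a => match a with
    | some (.inl true) => readSym I L
    | _ => .skip

/-- Convert a list of unary codes in register `0` to symbols in register `2`, reversed. -/
def outConv (I : Type) {O : Type} (L : List O) : Prog (Al I O) := .whl 0 (outBody I L)

theorem below_outConv (L : List O) : Below (outConv I L) 3 := by
  refine ⟨by omega, by omega, fun a => ?_⟩
  rcases a with _ | ((_ | _) | _)
  · trivial
  · trivial
  · exact below_readSym L
  · trivial

theorem run_outConv [DecidableEq O] (L : List O) (hL : ∀ b : O, b ∈ L) (l : List O) :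
    ∀ (s : St (Al I O)), s 0 = (T.ofList (fun b => T.unary (L.idxOf b)) l).word
        (.inl false) (.inl true) →
      Run (outConv I L) s (update (update s 0 []) 2
        ((l.map (fun b => .inr (.inr b))).reverse ++ s 2)) ((2 * L.length + 4) * l.length + 4) := by
  induction l with
  | nil =>
    intro s h0
    refine (Run.whl_step (p := outBody I L) (t := 2) (u := 1) (s₁ := update s 0 [])
      (by simp [h0, T.word])
      (Run.popc_cons (a := .inl false) (l := []) (by simp [h0, T.word]) (Run.skip _))
      (Run.whl_done (by simp))).cast ?_ (by omega)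
    funext i
    simp only [update_apply]
    split_ifs <;> simp_all
  | cons b l ih =>
    intro s h0
    have e1 := run_readSym (I := I) L (L.idxOf b) b
      ((T.ofList (fun b => T.unary (L.idxOf b)) l).word (.inl false) (.inl true))
      (update s 0 ((T.unary (L.idxOf b)).word (.inl false) (.inl true) ++
        (T.ofList (fun b => T.unary (L.idxOf b)) l).word (.inl false) (.inl true)))
      (List.getElem?_idxOf (hL b)) (by simp)
    have e2 : Run (outBody I L) s (update (update s 0
        ((T.ofList (fun b => T.unary (L.idxOf b)) l).word (.inl false) (.inl true))) 2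
        (.inr (.inr b) :: s 2)) (2 * L.idxOf b + 3) := by
      refine (Run.popc_cons (a := .inl true)
        (l := ((T.unary (L.idxOf b)).word (.inl false) (.inl true) ++
        (T.ofList (fun b => T.unary (L.idxOf b)) l).word (.inl false) (.inl true)))
        (by simp [h0, T.word]) e1).cast ?_ le_rfl
      funext i
      simp only [update_apply]
      split_ifs <;> simp_all
    have e3 := ih (update (update s 0
        ((T.ofList (fun b => T.unary (L.idxOf b)) l).word (.inl false) (.inl true))) 2
        (.inr (.inr b) :: s 2)) (by simp)
    refine (Run.whl_step (p := outBody I L) (by simp [h0, T.word]) e2 e3).cast ?_ ?_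
    · funext i
      simp only [update_apply]
      split_ifs <;> simp_all
    · have := List.idxOf_lt_length_of_mem (hL b)
      simp only [List.length_cons]
      nlinarith

/-! ### The final machine -/

/-- Labels of the final machine: reading the input, the program, writing the output. -/
abbrev FLab (I O L : Type) := Option I ⊕ L ⊕ Option (Option O)

/-- Where to go after reading an input symbol. -/
def fPro (p : Prog (Al I O)) : Option I → FLab I O (Lab p)
  | some a => .inl (some a)
  | none => .inr (.inl (entry p))

/-- Where to go after reading an output symbol. -/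
def fEpi (p : Prog (Al I O)) : Option (Al I O) → FLab I O (Lab p)
  | some (.inr (.inr b)) => .inr (.inr (some (some b)))
  | _ => .inr (.inr none)

/-- The code of the final machine. -/
def finalCode (N : ℕ) [NeZero N] (p : Prog (Al I O)) :
    FLab I O (Lab p) → TM2.Stmt (Gam I O (Al I O) N) (FLab I O (Lab p)) (Sig I (Al I O))
  | .inl none => .pop .inp (fun v o => (o, v.2)) (.goto fun v => fPro p v.1)
  | .inl (some a) => .push (rg 1) (fun _ => (.inr (.inl a) : Al I O)) (.goto fun _ => .inl none)
  | .inr (.inl l) => code I O N p (fun l => .inr (.inl l)) (.inr (.inr (some none))) l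
  | .inr (.inr (some none)) => .pop (rg 2) (fun v o => (v.1, o)) (.goto fun v => fEpi p v.2)
  | .inr (.inr (some (some b))) => .push .out (fun _ => b) (.goto fun _ => .inr (.inr (some none)))
  | .inr (.inr none) => .load (fun _ => (none, none)) .halt

theorem step_pro {N : ℕ} [NeZero N] (p : Prog (Al I O)) (v : Sig I (Al I O))
    (S : ∀ k, List (Gam I O (Al I O) N k)) (w : List I) (hw : S .inp = w) :
    TM2.step (finalCode N p) ⟨some (.inl none), v, S⟩ =
      some ⟨some (fPro p w.head?), (w.head?, v.2), update S .inp w.tail⟩ := by
  subst hw
  rfl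

theorem step_epi {N : ℕ} [NeZero N] (p : Prog (Al I O)) (v : Sig I (Al I O))
    (S : ∀ k, List (Gam I O (Al I O) N k)) (w : List (Al I O)) (hw : S (rg 2) = w) :
    TM2.step (finalCode N p) ⟨some (.inr (.inr (some none))), v, S⟩ =
      some ⟨some (fEpi p w.head?), (v.1, w.head?), update S (rg 2) w.tail⟩ := by
  subst hw
  rfl

theorem steps_pro {N : ℕ} [NeZero N] (hN : 3 ≤ N) (p : Prog (Al I O)) (l : List I) :
    ∀ (v : Sig I (Al I O)) (S : ∀ k, List (Gam I O (Al I O) N k)) (s : St (Al I O)),
      S .inp = l → Agree S s →
      ∃ v' S', S' .inp = ([] : List I) ∧ S' .out = S .out ∧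
        Agree S' (update s 1 ((l.map (fun a => .inr (.inl a))).reverse ++ s 1)) ∧
        Steps (finalCode N p) (2 * l.length + 1) ⟨some (.inl none), v, S⟩
          ⟨some (.inr (.inl (entry p))), v', S'⟩ := by
  induction l with
  | nil =>
    intro v S s hl hS
    refine ⟨(none, v.2), update S .inp ([] : List I), ?_, ?_, ?_, ?_⟩
    · exact update_self _ _ _
    · exact update_of_ne (by simp) _ _
    · intro i
      simp only [List.map_nil, List.reverse_nil, List.nil_append, update_eq_self]
      exact (update_of_ne (by simp) _ _).trans (hS i)
    · exact Steps.one (step_pro p v S _ hl)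
  | cons a l ih =>
    intro v S s hl hS
    let S1 : ∀ k, List (Gam I O (Al I O) N k) := update S .inp l
    let S2 : ∀ k, List (Gam I O (Al I O) N k) := update S1 (rg 1) ((.inr (.inl a) : Al I O) :: S1 (rg 1))
    have hS1 : Agree S1 s := by
      intro i
      exact (update_of_ne (by simp) _ _).trans (hS i)
    have hS2 : Agree S2 (update s 1 (.inr (.inl a) :: s 1)) :=
      hS1.update (by omega) _ _ (congrArg (List.cons _) (hS1.apply (by omega)))
    obtain ⟨v', S', h1, h2, h3, h4⟩ := ih (some a, v.2) S2 _
      ((update_of_ne (by simp [rg]) _ _).trans (update_self _ _ _)) hS2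
    refine ⟨v', S', h1, ?_, ?_, ?_⟩
    · exact h2.trans ((update_of_ne (by simp [rg]) _ _).trans (update_of_ne (by simp) _ _))
    · convert h3 using 1
      simp
    · rw [show 2 * (a :: l).length + 1 = 1 + (1 + (2 * l.length + 1)) by simp; ring]
      refine Steps.trans (Steps.one (step_pro p v S _ hl)) (Steps.trans (Steps.one ?_) h4)
      rfl

theorem steps_epi {N : ℕ} [NeZero N] (hN : 3 ≤ N) (p : Prog (Al I O)) (l : List O) :
    ∀ (v : Sig I (Al I O)) (S : ∀ k, List (Gam I O (Al I O) N k)) (s : St (Al I O)) (w : List O),
      S .out = w → Agree S s → s 2 = l.map (fun a => .inr (.inr a)) →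
      ∃ v' S', S' .inp = S .inp ∧ S' .out = (l.reverse ++ w : List O) ∧
        Agree S' (update s 2 []) ∧
        Steps (finalCode N p) (2 * l.length + 1) ⟨some (.inr (.inr (some none))), v, S⟩
          ⟨some (.inr (.inr none)), v', S'⟩ := by
  induction l with
  | nil =>
    intro v S s w hw hS h2
    have e := hS.apply (k := 2) (by omega)
    refine ⟨(v.1, none), update S (rg 2) ([] : List (Al I O)), ?_, ?_, ?_, ?_⟩
    · exact update_of_ne (by simp [rg]) _ _
    · exact (update_of_ne (by simp [rg]) _ _).trans hw
    · exact hS.update (by omega) _ _ rfl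
    · exact Steps.one (step_epi p v S _ (e.trans h2))
  | cons b l ih =>
    intro v S s w hw hS h2
    have e := hS.apply (k := 2) (by omega)
    let S1 : ∀ k, List (Gam I O (Al I O) N k) :=
      update S (rg 2) (l.map (fun a => .inr (.inr a)) : List (Al I O))
    let S2 : ∀ k, List (Gam I O (Al I O) N k) := update S1 .out (b :: S1 .out : List O)
    have hS1 : Agree S1 (update s 2 (l.map (fun a => .inr (.inr a)))) :=
      hS.update (by omega) _ _ rfl
    have hS2 : Agree S2 (update s 2 (l.map (fun a => .inr (.inr a)))) := by
      intro i
      exact (update_of_ne (by simp) _ _).trans (hS1 i)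
    have e5 : S1 .out = w := (update_of_ne (by simp [rg]) _ _).trans hw
    have e4 : S2 .out = (b :: w : List O) := (update_self _ _ _).trans (congrArg (List.cons b) e5)
    obtain ⟨v', S', h1, h2', h3, h4⟩ := ih (v.1, some (.inr (.inr b))) S2 _ _ e4 hS2 (by simp)
    refine ⟨v', S', ?_, ?_, ?_, ?_⟩
    · exact h1.trans ((update_of_ne (by simp) _ _).trans (update_of_ne (by simp [rg]) _ _))
    · rw [h2']
      simp
    · rw [update_idem] at h3
      exact h3
    · rw [show 2 * (b :: l).length + 1 = 1 + (1 + (2 * l.length + 1)) by simp; ring]
      refine Steps.trans (Steps.one (step_epi p v S _ (e.trans h2)))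
        (Steps.trans (Steps.one ?_) h4)
      rfl

/-- The final machine. -/
noncomputable def finalTM [Fintype I] [Fintype O] (N : ℕ) [NeZero N] (p : Prog (Al I O)) :
    FinTM2 :=
  letI := labFintype p
  { K := Reg N
    k₀ := .inp
    k₁ := .out
    Γ := Gam I O (Al I O) N
    Λ := FLab I O (Lab p)
    main := .inl none
    ΛFin := inferInstance
    σ := Sig I (Al I O)
    initialState := (none, none)
    σFin := inferInstance
    Γk₀Fin := inferInstanceAs (Fintype I)
    m := finalCode N p }

/-- Input conversion: from the input word `ea a` one can produce the tree of `i a`. -/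
def InOK {α α' : Type*} [TEnc α'] (O : Type) (ea : α → List I) (i : α → α') : Prop :=
  (∃ Q : Polynomial ℕ, ∀ a, sz (i a) ≤ Q.eval (ea a).length) ∧
  ∃ (p : Prog (Al I O)) (k : ℕ) (P : Polynomial ℕ), Below p k ∧ ∀ a,
    Run p (update (fun _ => []) 1 ((ea a).map (fun a => .inr (.inl a))).reverse)
      (update (fun _ => []) 0 (wd (.inl false) (.inl true) (i a))) (P.eval (ea a).length)

/-- Output conversion: from the tree of `b` one can produce the word `w b`. -/
def OutOK {β' : Type*} [TEnc β'] (I : Type) (w : β' → List O) : Prop :=
  (∃ Q : Polynomial ℕ, ∀ b, (w b).length ≤ Q.eval (sz b)) ∧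
  ∃ (p : Prog (Al I O)) (k : ℕ) (P : Polynomial ℕ), Below p k ∧ ∀ b,
    Run p (update (fun _ => []) 0 (wd (.inl false) (.inl true) b))
      (update (fun _ => []) 2 ((w b).reverse.map (fun a => .inr (.inr a)))) (P.eval (sz b))

open Polynomial in
theorem InOK.list [Finite I] {α α' : Type*} [TEnc α'] (O : Type) (ea : α → List I) (i : α → α')
    (c : I → T) (h : ∀ a, enc (i a) = T.ofList c (ea a)) : InOK O ea i := by
  obtain ⟨M, hM⟩ : ∃ M, ∀ a, (c a).size ≤ M := by
    cases nonempty_fintype I
    exact ⟨Finset.univ.sup (fun a => (c a).size),
      fun a => Finset.le_sup (f := fun a => (c a).size) (Finset.mem_univ a)⟩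
  refine ⟨⟨C (M + 1) * X, fun a => ?_⟩, .seq (.push 0 (.inl false)) (inConv O c), 3,
    C (2 * M + 5) * X + 2, ⟨by show 0 < 3; omega, below_inConv c⟩, fun a => ?_⟩
  · unfold sz
    rw [h]
    simpa using T.size_ofList_le c M hM (ea a)
  · let s0 : St (Al I O) := update (fun _ => []) 1 (((ea a).map (fun a => .inr (.inl a))).reverse)
    let s1 : St (Al I O) := update s0 0 [.inl false]
    have r1 : Run (.push 0 (.inl false)) s0 s1 1 :=
      (Run.push 0 _ _).cast (by simp [s1, s0]) le_rfl
    refine (r1.seq (run_inConv c M hM (ea a).reverse .nil s1 (by simp [s1, T.word])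
        (by simp [s1, s0]))).cast ?_ (by simp; omega)
    rw [foldl_reverse_ofList]
    unfold wd
    rw [h]
    funext i
    simp only [s1, s0, update_apply]
    split_ifs <;> simp_all

open Polynomial in
theorem OutOK.list [Finite O] [DecidableEq O] {β' : Type*} [TEnc β'] (I : Type)
    (w : β' → List O) (L : List O) (hL : ∀ b, b ∈ L)
    (h : ∀ b, enc b = T.ofList (fun b => T.unary (L.idxOf b)) (w b)) : OutOK I w := by
  have hlen : ∀ b, (w b).length ≤ sz b := fun b => by
    unfold sz
    rw [h]
    exact T.length_le_size_ofList _ _
  refine ⟨⟨X, fun b => by simpa using hlen b⟩, outConv I L, 3, C (2 * L.length + 4) * X + 4,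
    below_outConv L, fun b => ?_⟩
  refine (run_outConv (I := I) L hL (w b) _ (by unfold wd; rw [update_self, h])).cast ?_ ?_
  · funext i
    simp only [update_apply]
    split_ifs <;> simp_all
  · have := Nat.mul_le_mul_left (2 * L.length + 4) (hlen b)
    simpa using this

/-- Translate the symbols of register `a` while moving them to register `b`. -/
def moveMap {A : Type} (a b : ℕ) (m : A → A) : Prog A :=
  .whl a (.popc a fun o => match o with
    | none => .skip
    | some x => .push b (m x))

theorem below_moveMap {A : Type} {a b N : ℕ} (m : A → A) (ha : a < N) (hb : b < N) :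
    Below (moveMap a b m : Prog A) N :=
  ⟨ha, ha, fun o => by cases o <;> simp [Below, hb]⟩

theorem run_moveMap {A : Type} {a b : ℕ} (hab : a ≠ b) (m : A → A) (l : List A) :
    ∀ (s : St A), s a = l → Run (moveMap a b m) s
      (update (update s a []) b ((l.map m).reverse ++ s b)) (3 * l.length + 1) := by
  induction l with
  | nil =>
    intro s h
    refine (Run.whl_done h).cast ?_ (by simp)
    funext i
    simp only [update_apply]
    split_ifs with h1 h2 <;> simp_all
  | cons x l ih =>
    intro s h
    have h1 : Run (.push b (m x)) (update s a l) (update (update s a l) b (m x :: s b)) 1 := by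
      refine (Run.push b _ _).cast ?_ le_rfl
      rw [update_of_ne hab.symm]
    refine (Run.whl_step (by simp [h]) (Run.popc_cons h h1) (ih _ ?_)).cast ?_ ?_
    · rw [update_of_ne hab, update_self]
    · funext i
      simp only [update_apply]
      split_ifs with h1 h2 <;> simp_all
    · simp; omega

/-- Symbol translation of the input word. -/
def inMap (O : Type) : Al Bool O → Al Bool O
  | .inr (.inl b) => .inl b
  | x => x

/-- Symbol translation of the output word. -/
def outMap (I : Type) : Al I Bool → Al I Bool
  | .inl b => .inr (.inr b)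
  | x => x

theorem map_word {A B : Type} (z o : A) (f : A → B) (x : T) :
    (x.word z o).map f = x.word (f z) (f o) := by
  induction x with
  | nil => rfl
  | node l r ihl ihr => simp [T.word, ihl, ihr]

open Polynomial in
/-- The input word is the word of the tree. -/
theorem InOK.word {α α' : Type*} [TEnc α'] (O : Type) (ea : α → List Bool) (i : α → α')
    (h : ∀ a, ea a = wd false true (i a)) : InOK O ea i := by
  refine ⟨⟨X, fun a => ?_⟩, moveMap 1 0 (inMap O), 2, 3 * X + 1,
    below_moveMap _ (by omega) (by omega), fun a => ?_⟩
  · rw [h]
    simp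
    omega
  · refine (run_moveMap one_ne_zero (inMap O) _ _ (update_self _ _ _)).cast ?_ (by simp)
    rw [h a]
    have e : ((wd false true (i a)).map (fun a => (.inr (.inl a) : Al Bool O))).map (inMap O) =
        wd (.inl false) (.inl true) (i a) := by
      unfold wd
      rw [map_word, map_word]
      rfl
    rw [List.map_reverse, List.reverse_reverse, e]
    funext i
    simp only [update_apply]
    split_ifs <;> simp_all

open Polynomial in
/-- The output word is the word of the tree. -/
theorem OutOK.word {β' : Type*} [TEnc β'] (I : Type) :
    OutOK I (fun b : β' => wd false true b) := by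
  refine ⟨⟨2 * X + 1, fun b => by simp⟩, moveMap 0 2 (outMap I), 3, 6 * X + 4,
    below_moveMap _ (by omega) (by omega), fun b => ?_⟩
  refine (run_moveMap (by omega) (outMap I) _ _ (update_self _ _ _)).cast ?_ (by simp; omega)
  have e : (wd (.inl false) (.inl true) b).map (outMap I) =
      (wd false true b).map (fun a => (.inr (.inr a) : Al I Bool)) := by
    unfold wd
    rw [map_word, map_word]
    rfl
  rw [e]
  funext i
  simp only [update_apply]
  split_ifs <;> simp_all

/-- Output of a Boolean. -/
def outBool (I : Type) : Prog (Al I Bool) :=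
  .popc 0 fun a => match a with
    | some (.inl true) => .seq (clear 0) (.push 2 (.inr (.inr true)))
    | _ => .push 2 (.inr (.inr false))

open Polynomial in
theorem OutOK.bool (I : Type) : OutOK I (fun b : Bool => [b]) := by
  refine ⟨⟨1, fun b => by simp⟩, outBool I, 3, 20, ⟨by omega, fun a => ?_⟩, fun b => ?_⟩
  · rcases a with _ | ((_ | _) | _)
    · show 2 < 3; omega
    · show 2 < 3; omega
    · exact ⟨below_clear (by omega), by show 2 < 3; omega⟩
    · show 2 < 3; omega
  · cases b with
    | false =>
      refine (Run.popc_cons (a := .inl false) (l := []) (t := 1)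
        (s' := update (fun _ => []) 2 [.inr (.inr false)]) (by simp [wd, T.word]) ?_).cast
          (by simp) (by simp)
      refine (Run.push 2 _ _).cast ?_ le_rfl
      funext i
      simp only [update_apply]
      split_ifs <;> simp_all
    | true =>
      refine (Run.popc_cons (a := .inl true) (l := [.inl false, .inl false]) (t := 8)
        (s' := update (fun _ => []) 2 [.inr (.inr true)]) (by simp [wd, T.word]) ?_).cast
          (by simp) (by simp)
      refine ((run_clear (a := 0) [.inl false, .inl false] _ (by simp)).seq
        (Run.push 2 _ _)).cast ?_ (by simp)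
      funext i
      simp only [update_apply]
      split_ifs <;> simp_all

open Polynomial in
/-- From a program to a machine. -/
theorem tm2_core [Finite I] [Finite O] {α β : Type} {α' β' : Type*} [TEnc α'] [TEnc β']
    {ea : α → List I} {eb : β → List O} {f : α → β} {i : α → α'} {w : β' → List O} {F : α' → β'}
    (hin : InOK O ea i) (hF : PolyF F) (hout : OutOK I w) (h : ∀ a, w (F (i a)) = eb (f a)) :
    Nonempty (TM2ComputableInPolyTime ea eb f) := by
  cases nonempty_fintype I
  cases nonempty_fintype O
  obtain ⟨⟨Qi, hQi⟩, pi, ki, Pi, hbi, hri⟩ := hin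
  obtain ⟨⟨Qo, hQo⟩, po, ko, Po, hbo, hro⟩ := hout
  obtain ⟨⟨Q, hQ⟩, hF⟩ := hF
  obtain ⟨pF, kF, PF, hkF, hbF, hrF⟩ := hF (Al I O) (.inl false) (.inl true) (by simp)
  obtain ⟨N, hN⟩ : ∃ N, N = max (max (max ki ko) kF) 3 := ⟨_, rfl⟩
  have : NeZero N := ⟨by omega⟩
  let p : Prog (Al I O) := .seq pi (.seq pF po)
  have hp : Below p N := ⟨hbi.mono (by omega), hbF.mono (by omega), hbo.mono (by omega)⟩
  refine ⟨⟨⟨finalTM N p, Equiv.refl _, Equiv.refl _⟩,
    C 10 * (1 + X + Pi + PF.comp Qi + Po.comp (Q.comp Qi) + Qo.comp (Q.comp Qi)),
    fun a => ?_⟩⟩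
  have key : ∃ n ≤ Polynomial.eval (ea a).length (C 10 * (1 + X + Pi + PF.comp Qi +
      Po.comp (Q.comp Qi) + Qo.comp (Q.comp Qi))),
      Steps (finalCode N p) n (initList (finalTM N p) (ea a))
        (haltList (finalTM N p) (eb (f a))) := by
    have hrun : Run p (update (fun _ => []) 1 ((ea a).map (fun a => .inr (.inl a))).reverse)
        (update (fun _ => []) 2 ((eb (f a)).reverse.map (fun a => .inr (.inr a))))
        (Pi.eval (ea a).length + (PF.eval (sz (i a)) + Po.eval (sz (F (i a))))) := by
      have r2 := hrF (i a) (update (fun _ => []) 0 (wd (.inl false) (.inl true) (i a)))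
        (update_self _ _ _) (fun j hj _ => by rw [update_of_ne hj.ne'])
      rw [update_idem] at r2
      have r3 := hro (F (i a))
      rw [h a] at r3
      exact (hri a).seq (r2.seq r3)
    obtain ⟨v1, S1, a1, a2, a3, a4⟩ := steps_pro (N := N) (by omega) p (ea a) (none, none)
      (initList (finalTM N p) (ea a)).stk (fun _ => []) rfl (fun i => rfl)
    obtain ⟨t, ht, hexec⟩ := hrun
    have a2' : S1 .out = ([] : List O) := a2.trans rfl
    obtain ⟨v2, S2, b1, b2, b3, b4, b5⟩ := exec_sim (I := I) (O := O) (N := N) hexec
      hp (finalCode N p) (fun l => .inr (.inl l))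
      (.inr (.inr (some none))) (fun l => rfl) v1 S1 (by simpa using a3)
    obtain ⟨v3, S3, c1, c2, c3, c4⟩ := steps_epi (N := N) (by omega)
      p (eb (f a)).reverse v2 S2 _ [] (b4.trans a2') b1 (by simp)
    refine ⟨(2 * (ea a).length + 1) + (t + ((2 * (eb (f a)).reverse.length + 1) + 1)), ?_,
      a4.trans (b5.trans (c4.trans (Steps.one ?_)))⟩
    · simp only [eval_add, eval_one, eval_mul, eval_X, eval_C, eval_comp, List.length_reverse]
      have e1 := hQi a
      have e2 := hQ (i a)
      have e3 := hQo (F (i a))
      rw [h a] at e3
      have e4 := e3.trans (peval_mono Qo (e2.trans (peval_mono Q e1)))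
      have e5 := peval_mono PF e1
      have e6 := peval_mono Po (e2.trans (peval_mono Q e1))
      omega
    · have e0 : S3 = (haltList (finalTM N p) (eb (f a))).stk := by
        funext r
        cases r with
        | inp => exact (c1.trans (b3.trans a1)).trans rfl
        | out =>
          refine c2.trans ?_
          rw [List.reverse_reverse, List.append_nil]
          rfl
        | reg i =>
          refine (c3 i).trans ?_
          rw [update_idem]
          have : update (fun _ => []) 2 ([] : List (Al I O)) = fun _ => [] := by
            funext j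
            simp only [update_apply]
            split_ifs <;> rfl
          rw [this]
          rfl
      have e1 : TM2.step (finalCode N p) ⟨some (.inr (.inr none)), v3, S3⟩
          = some ⟨none, (none, none), S3⟩ := rfl
      rw [e1, e0]
      rfl
  obtain ⟨n, hn, hs⟩ := Classical.indefiniteDescription _ key
  have e1 : List.map (Equiv.refl I).invFun (ea a) = ea a := List.map_id _
  have e2 : List.map (Equiv.refl O).invFun (eb (f a)) = eb (f a) := List.map_id _
  refine ⟨⟨n, ?_⟩, hn⟩
  have e3 : ∀ (u : List I) (w : List O), u = ea a → w = eb (f a) →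
    (flip bind (finalTM N p).step)^[n] (some (initList (finalTM N p) u)) =
      Option.map (haltList (finalTM N p)) (some w) := by
    rintro _ _ rfl rfl
    exact hs
  exact e3 _ _ e1 e2

/-- Decision problems whose instances are written as words of trees. -/
theorem PolyF.tm2_word_bool {α : Type} [TEnc α] {f : α → Bool} (hf : PolyF f) :
    Nonempty (TM2ComputableInPolyTime (fun a : α => wd false true a)
      Computability.encodeBool f) :=
  tm2_core (InOK.word Bool _ (fun a => a) (fun _ => rfl)) hf (OutOK.bool Bool) (fun _ => rfl)

/-- Functions whose inputs and outputs are written as words of trees. -/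
theorem PolyF.tm2_word {α β : Type} [TEnc α] [TEnc β] {f : α → β} (hf : PolyF f) :
    Nonempty (TM2ComputableInPolyTime (fun a : α => wd false true a)
      (fun b : β => wd false true b) f) :=
  tm2_core (InOK.word Bool _ (fun a => a) (fun _ => rfl)) hf (OutOK.word Bool) (fun _ => rfl)

/-- Lists whose symbols are encoded by their position in `L`. -/
structure Coded (O : Type) (L : List O) where
  /-- the list -/
  l : List O

instance {O : Type} [DecidableEq O] {L : List O} : TEnc (Coded O L) :=
  ⟨fun c => T.ofList (fun b => T.unary (L.idxOf b)) c.l⟩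

/-- Decision problems over an arbitrary finite input alphabet. The function `F` is only required
to be polynomial time on a type `α'` whose elements have the same trees as the input words
(for instance the type of all words, or a subtype of it). -/
theorem PolyF.tm2_bool' [Finite I] [TEnc I] {α : Type} {α' : Type*} [TEnc α'] {ea : α → List I}
    {f : α → Bool} {F : α' → Bool} (hF : PolyF F) (i : α → α') (hi : ∀ a, enc (i a) = enc (ea a))
    (h : ∀ a, F (i a) = f a) :
    Nonempty (TM2ComputableInPolyTime ea Computability.encodeBool f) :=
  tm2_core (InOK.list Bool ea i enc hi) hF (OutOK.bool I) (fun a => by rw [h]; rfl)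

theorem PolyF.tm2_bool [Finite I] [TEnc I] {α : Type} {ea : α → List I}
    {f : α → Bool} {F : List I → Bool} (hF : PolyF F) (h : ∀ a, F (ea a) = f a) :
    Nonempty (TM2ComputableInPolyTime ea Computability.encodeBool f) :=
  hF.tm2_bool' ea (fun _ => rfl) h

/-- Functions between words over arbitrary finite alphabets. -/
theorem PolyF.tm2' [Finite I] [TEnc I] [Finite O] [TEnc O] [TInj O] {α β : Type} {α' : Type*}
    [TEnc α'] {ea : α → List I} {eb : β → List O} {f : α → β} {F : α' → List O} (hF : PolyF F)
    (i : α → α') (hi : ∀ a, enc (i a) = enc (ea a)) (h : ∀ a, F (i a) = eb (f a)) :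
    Nonempty (TM2ComputableInPolyTime ea eb f) := by
  classical
  cases nonempty_fintype O
  let L : List O := Finset.univ.toList
  have hL : ∀ b, b ∈ L := fun b => by simp [L]
  have h1 : PolyF (fun x => (⟨F x⟩ : Coded O L)) := by
    refine (hF.map (h := fun _ b => L.idxOf b) (snd'.finComp (fun b => L.idxOf b))).of_enc
      (fun x => x) (fun _ => rfl) fun x => ?_
    show T.ofList (fun b => T.unary (L.idxOf b)) (F x) = enc ((F x).map (fun b => L.idxOf b))
    induction F x with
    | nil => rfl
    | cons b t ih => simp [ih, enc_nat]
  exact tm2_core (InOK.list O ea i enc hi) h1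
    (OutOK.list I (fun c : Coded O L => c.l) L hL (fun _ => rfl)) h

theorem PolyF.tm2 [Finite I] [TEnc I] [Finite O] [TEnc O] [TInj O] {α β : Type}
    {ea : α → List I} {eb : β → List O} {f : α → β} {F : List I → List O} (hF : PolyF F)
    (h : ∀ a, F (ea a) = eb (f a)) : Nonempty (TM2ComputableInPolyTime ea eb f) :=
  hF.tm2' ea (fun _ => rfl) h

end Bridge

end Pool.Agent.Lib.PolyTime
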