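import Pool.Agent.Lib.PolyTime.IntBin

/-!
# Rational numbers: polynomial-time arithmetic
-/

set_option linter.unusedSimpArgs false

namespace Pool.Agent.Lib.PolyTime

open Turing Function

/-- Rational numbers are encoded by numerator and denominator. -/
instance : TEnc ℚ := ⟨fun q => enc (q.num, (⟨q.den⟩ : Bin))⟩

theorem enc_rat (q : ℚ) : enc q = enc (q.num, (⟨q.den⟩ : Bin)) := rfl

theorem sz_rat (q : ℚ) : sz q = 1 + sz q.num + sz (⟨q.den⟩ : Bin) := rfl

instance : TInj ℚ := ⟨fun a b h => by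
  have h1 : (a.num, (⟨a.den⟩ : Bin)) = (b.num, (⟨b.den⟩ : Bin)) := TInj.inj h
  simp only [Prod.mk.injEq, Bin.mk.injEq] at h1
  exact Rat.ext h1.1 h1.2⟩

section

variable {α β γ δ ε : Type*} [TEnc α] [TEnc β] [TEnc γ] [TEnc δ] [TEnc ε]

namespace PolyF

theorem ratNum {f : α → ℚ} (hf : PolyF f) : PolyF (fun x => (f x).num) := by
  have h : PolyF (fun x => ((f x).num, (⟨(f x).den⟩ : Bin))) :=
    hf.of_enc (fun x => x) (fun _ => rfl) fun _ => rfl
  exact h.fst

theorem ratDen {f : α → ℚ} (hf : PolyF f) : PolyF (fun x => (⟨(f x).den⟩ : Bin)) := by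
  have h : PolyF (fun x => ((f x).num, (⟨(f x).den⟩ : Bin))) :=
    hf.of_enc (fun x => x) (fun _ => rfl) fun _ => rfl
  exact h.snd

/-- The denominator as an integer. -/
theorem ratDenZ {f : α → ℚ} (hf : PolyF f) : PolyF (fun x => ((f x).den : ℤ)) :=
  hf.ratDen.intOfBin

/-- Quotient of two integers. -/
theorem ratDivInt {f g : α → ℤ} (hf : PolyF f) (hg : PolyF g) :
    PolyF (fun x => Rat.divInt (f x) (g x)) := by
  have h : PolyF (fun x => ((g x).sign * f x / (((⟨Int.gcd (g x) (f x)⟩ : Bin).val : ℕ) : ℤ),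
      if g x = 0 then (⟨1⟩ : Bin) else
        ⟨(⟨(g x).natAbs⟩ : Bin).val / (⟨Int.gcd (g x) (f x)⟩ : Bin).val⟩)) :=
    ((hg.intSign.intMul hf).intEdiv (hg.intGcd hf).intOfBin).pair
      (ite (hg.intEq (const 0)) (const (⟨1⟩ : Bin)) (hg.intNatAbs.binDiv (hg.intGcd hf)))
  refine h.of_enc (fun x => x) (fun _ => rfl) fun x => ?_
  rw [enc_rat]
  refine congrArg enc (Prod.ext ?_ (Bin.ext ?_))
  · exact Rat.num_divInt _ _
  · refine (Rat.den_divInt _ _).trans ?_
    split_ifs <;> rfl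

theorem ratDivZ {f g : α → ℤ} (hf : PolyF f) (hg : PolyF g) :
    PolyF (fun x => (f x : ℚ) / (g x : ℚ)) :=
  (hf.ratDivInt hg).congr fun x => by rw [Rat.divInt_eq_div]

theorem ratOfInt {f : α → ℤ} (hf : PolyF f) : PolyF (fun x => (f x : ℚ)) :=
  (hf.ratDivZ (const 1)).congr fun x => by simp

theorem ratOfNat {f : α → ℕ} (hf : PolyF f) : PolyF (fun x => (f x : ℚ)) :=
  hf.intOfNat.ratOfInt.congr fun x => by simp

theorem ratAdd {f g : α → ℚ} (hf : PolyF f) (hg : PolyF g) : PolyF (fun x => f x + g x) :=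
  (((hf.ratNum.intMul hg.ratDenZ).intAdd (hg.ratNum.intMul hf.ratDenZ)).ratDivZ
    (hf.ratDenZ.intMul hg.ratDenZ)).congr fun x => by
      have h1 : ((f x).den : ℚ) ≠ 0 := by exact_mod_cast (f x).den_ne_zero
      have h2 : ((g x).den : ℚ) ≠ 0 := by exact_mod_cast (g x).den_ne_zero
      push_cast
      conv_rhs => rw [← Rat.num_div_den (f x), ← Rat.num_div_den (g x)]
      field_simp

theorem ratNeg {f : α → ℚ} (hf : PolyF f) : PolyF (fun x => -f x) :=
  (hf.ratNum.intNeg.ratDivZ hf.ratDenZ).congr fun x => by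
      push_cast
      conv_rhs => rw [← Rat.num_div_den (f x)]
      ring

theorem ratSub {f g : α → ℚ} (hf : PolyF f) (hg : PolyF g) : PolyF (fun x => f x - g x) :=
  (hf.ratAdd hg.ratNeg).congr fun x => by ring

theorem ratMul {f g : α → ℚ} (hf : PolyF f) (hg : PolyF g) : PolyF (fun x => f x * g x) :=
  ((hf.ratNum.intMul hg.ratNum).ratDivZ (hf.ratDenZ.intMul hg.ratDenZ)).congr fun x => by
      have h1 : ((f x).den : ℚ) ≠ 0 := by exact_mod_cast (f x).den_ne_zero
      have h2 : ((g x).den : ℚ) ≠ 0 := by exact_mod_cast (g x).den_ne_zero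
      push_cast
      conv_rhs => rw [← Rat.num_div_den (f x), ← Rat.num_div_den (g x)]
      field_simp

theorem ratInv {f : α → ℚ} (hf : PolyF f) : PolyF (fun x => (f x)⁻¹) :=
  (hf.ratDenZ.ratDivZ hf.ratNum).congr fun x => by
      push_cast
      conv_rhs => rw [← Rat.num_div_den (f x)]
      rw [inv_div]

theorem ratDiv {f g : α → ℚ} (hf : PolyF f) (hg : PolyF g) : PolyF (fun x => f x / g x) :=
  (hf.ratMul hg.ratInv).congr fun x => by rw [div_eq_mul_inv]

theorem ratLe {f g : α → ℚ} (hf : PolyF f) (hg : PolyF g) :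
    PolyF (fun x => decide (f x ≤ g x)) :=
  ((hf.ratNum.intMul hg.ratDenZ).intLe (hg.ratNum.intMul hf.ratDenZ)).decide_congr fun x => by
    rw [Rat.le_iff]

theorem ratLt {f g : α → ℚ} (hf : PolyF f) (hg : PolyF g) :
    PolyF (fun x => decide (f x < g x)) :=
  ((hf.ratNum.intMul hg.ratDenZ).intLt (hg.ratNum.intMul hf.ratDenZ)).decide_congr fun x => by
    rw [Rat.lt_iff]

theorem ratEq {f g : α → ℚ} (hf : PolyF f) (hg : PolyF g) :
    PolyF (fun x => decide (f x = g x)) := hf.eq hg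

end PolyF

end

end Pool.Agent.Lib.PolyTime
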