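import Pool.Agent.Lib.PolyTime.Bin

/-!
# Integers in binary: polynomial-time arithmetic
-/

set_option linter.unusedSimpArgs false

namespace Pool.Agent.Lib.PolyTime

open Turing Function

/-- Integers are encoded by their sign and the binary digits of their absolute value. -/
instance : TEnc ℤ := ⟨fun z => enc (decide (z < 0), (⟨z.natAbs⟩ : Bin))⟩

theorem enc_int (z : ℤ) : enc z = enc (decide (z < 0), (⟨z.natAbs⟩ : Bin)) := rfl

theorem sz_int (z : ℤ) : sz z = sz (decide (z < 0), (⟨z.natAbs⟩ : Bin)) := rfl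

instance : TInj ℤ := ⟨fun a b h => by
  have h1 : (decide (a < 0), (⟨a.natAbs⟩ : Bin)) = (decide (b < 0), (⟨b.natAbs⟩ : Bin)) :=
    TInj.inj h
  simp only [Prod.mk.injEq, Bin.mk.injEq, decide_eq_decide] at h1
  omega⟩

/-- Number of binary digits of the absolute value. -/
def isize (z : ℤ) : ℕ := Nat.size z.natAbs

theorem sz_int_le (z : ℤ) : sz z ≤ 2 * isize z + 2 := by
  rw [sz_int, sz_prod]
  have h1 := sz_bool_le (decide (z < 0))
  have h2 := sz_bin_le (⟨z.natAbs⟩ : Bin)
  unfold isize
  dsimp only at *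
  omega

theorem isize_le_sz (z : ℤ) : isize z ≤ sz z := by
  rw [sz_int, sz_prod]
  have h2 := size_le_sz_bin (⟨z.natAbs⟩ : Bin)
  unfold isize
  dsimp only at *
  omega

theorem isize_le_iff (z : ℤ) (n : ℕ) : isize z ≤ n ↔ |z| < 2 ^ n := by
  unfold isize
  rw [Nat.size_le, Int.abs_eq_natAbs]
  exact_mod_cast Iff.rfl

theorem abs_lt_two_pow_isize (z : ℤ) : |z| < 2 ^ isize z := (isize_le_iff z _).1 le_rfl

theorem abs_lt_two_pow_sz (z : ℤ) : |z| < 2 ^ sz z := (isize_le_iff z _).1 (isize_le_sz z)

theorem natAbs_lt_two_pow_sz (z : ℤ) : z.natAbs < 2 ^ sz z := by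
  have := abs_lt_two_pow_sz z
  rw [Int.abs_eq_natAbs] at this
  exact_mod_cast this

theorem sz_int_le_of_abs_lt {z : ℤ} {n : ℕ} (h : |z| < 2 ^ n) : sz z ≤ 2 * n + 2 := by
  have := sz_int_le z
  have := (isize_le_iff z n).2 h
  omega

@[simp] theorem isize_zero : isize 0 = 0 := by simp [isize]

@[simp] theorem isize_neg (z : ℤ) : isize (-z) = isize z := by simp [isize]

theorem isize_one : isize 1 = 1 := by simp [isize]

theorem isize_mono {a b : ℤ} (h : |a| ≤ |b|) : isize a ≤ isize b := by
  rw [isize_le_iff]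
  exact h.trans_lt (abs_lt_two_pow_isize b)

theorem isize_add_le (a b : ℤ) : isize (a + b) ≤ max (isize a) (isize b) + 1 := by
  rw [isize_le_iff, pow_succ]
  have h1 := abs_lt_two_pow_isize a
  have h2 := abs_lt_two_pow_isize b
  have h3 : (2 : ℤ) ^ isize a ≤ 2 ^ max (isize a) (isize b) :=
    pow_le_pow_right₀ (by norm_num) (le_max_left _ _)
  have h4 : (2 : ℤ) ^ isize b ≤ 2 ^ max (isize a) (isize b) :=
    pow_le_pow_right₀ (by norm_num) (le_max_right _ _)
  have := abs_add_le a b
  omega

theorem isize_sub_le (a b : ℤ) : isize (a - b) ≤ max (isize a) (isize b) + 1 := by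
  have := isize_add_le a (-b)
  rwa [isize_neg, ← sub_eq_add_neg] at this

theorem isize_mul_le (a b : ℤ) : isize (a * b) ≤ isize a + isize b := by
  rw [isize_le_iff, pow_add, abs_mul]
  have h1 := abs_lt_two_pow_isize a
  have h2 := abs_lt_two_pow_isize b
  have h3 := abs_nonneg a
  have h4 := abs_nonneg b
  calc |a| * |b| ≤ |a| * 2 ^ isize b := mul_le_mul_of_nonneg_left h2.le h3
    _ < 2 ^ isize a * 2 ^ isize b := mul_lt_mul_of_pos_right h1 (by positivity)

theorem isize_pow_le (a : ℤ) (n : ℕ) : isize (a ^ n) ≤ n * isize a + 1 := by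
  induction n with
  | zero => simp [isize_one]
  | succ n ih =>
    rw [pow_succ]
    refine (isize_mul_le _ _).trans ?_
    nlinarith

theorem isize_sum_le (l : List ℤ) (M : ℕ) (h : ∀ a ∈ l, isize a ≤ M) :
    isize l.sum ≤ M + Nat.size l.length := by
  rw [isize_le_iff, pow_add]
  have h1 : |l.sum| ≤ l.length * (2 ^ M - 1) := by
    induction l with
    | nil => simp
    | cons a l ih =>
      have h2 := ih fun b hb => h b (by simp [hb])
      have h3 := (isize_le_iff a M).1 (h a (by simp))
      have h4 := abs_add_le a l.sum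
      simp only [List.sum_cons, List.length_cons]
      push_cast
      nlinarith
  have h2 : (l.length : ℤ) < 2 ^ Nat.size l.length := by
    exact_mod_cast Nat.lt_size_self l.length
  have h3 : (0 : ℤ) < 2 ^ M := by positivity
  nlinarith

section

variable {α β γ δ ε : Type*} [TEnc α] [TEnc β] [TEnc γ] [TEnc δ] [TEnc ε]

theorem PBd.ofLt {t : α → ℕ} {f : α → ℤ} (ht : PBd t) (h : ∀ x, |f x| < 2 ^ t x) :
    PBd (fun x => sz (f x)) := by
  refine ((PBd.const 2).mul ht |>.add (PBd.const 2)).of_le fun x => ?_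
  exact sz_int_le_of_abs_lt (h x)

namespace PolyF

theorem intNatAbs {f : α → ℤ} (hf : PolyF f) : PolyF (fun x => (⟨(f x).natAbs⟩ : Bin)) := by
  have h : PolyF (fun x => (decide (f x < 0), (⟨(f x).natAbs⟩ : Bin))) :=
    hf.of_enc (fun x => x) (fun _ => rfl) fun _ => rfl
  exact h.snd

theorem intIsNeg {f : α → ℤ} (hf : PolyF f) : PolyF (fun x => decide (f x < 0)) := by
  have h : PolyF (fun x => (decide (f x < 0), (⟨(f x).natAbs⟩ : Bin))) :=
    hf.of_enc (fun x => x) (fun _ => rfl) fun _ => rfl
  exact h.fst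

/-- Difference of two natural numbers. -/
theorem intDiff {f g : α → Bin} (hf : PolyF f) (hg : PolyF g) :
    PolyF (fun x => ((f x).val : ℤ) - ((g x).val : ℤ)) := by
  have h : PolyF (fun x => (decide ((f x).val < (g x).val),
      if (f x).val < (g x).val then (⟨(g x).val - (f x).val⟩ : Bin)
        else ⟨(f x).val - (g x).val⟩)) :=
    (hf.binLt hg).pair (ite (hf.binLt hg) (hg.binSub hf) (hf.binSub hg))
  refine h.of_enc (fun x => x) (fun _ => rfl) fun x => ?_
  rw [enc_int]
  refine congrArg enc ?_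
  split_ifs with h
  · refine Prod.ext ?_ (Bin.ext ?_)
    · simp only [decide_eq_decide]; omega
    · simp only; omega
  · refine Prod.ext ?_ (Bin.ext ?_)
    · simp only [decide_eq_decide]; omega
    · simp only; omega

theorem intOfBin {f : α → Bin} (hf : PolyF f) : PolyF (fun x => ((f x).val : ℤ)) :=
  (hf.intDiff (const ⟨0⟩)).congr fun x => by simp

theorem intOfNat {f : α → ℕ} (hf : PolyF f) : PolyF (fun x => (f x : ℤ)) :=
  hf.binOfNat.intOfBin

theorem intNeg {f : α → ℤ} (hf : PolyF f) : PolyF (fun x => -f x) := by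
  refine (ite (p := fun x => f x < 0) hf.intIsNeg hf.intNatAbs.intOfBin
    ((const ⟨0⟩).intDiff hf.intNatAbs)).congr fun x => ?_
  split_ifs with h
  · dsimp only; omega
  · dsimp only; omega

theorem intToNat {f : α → ℤ} (hf : PolyF f) : PolyF (fun x => (⟨(f x).toNat⟩ : Bin)) := by
  refine (ite (p := fun x => f x < 0) hf.intIsNeg (const ⟨0⟩) hf.intNatAbs).congr fun x => ?_
  split_ifs with h
  · ext; dsimp only; omega
  · ext; dsimp only; omega

theorem intAdd {f g : α → ℤ} (hf : PolyF f) (hg : PolyF g) : PolyF (fun x => f x + g x) := by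
  refine ((hf.intToNat.binAdd hg.intToNat).intDiff
    (hf.intNeg.intToNat.binAdd hg.intNeg.intToNat)).congr fun x => ?_
  push_cast
  omega

theorem intSub {f g : α → ℤ} (hf : PolyF f) (hg : PolyF g) : PolyF (fun x => f x - g x) :=
  (hf.intAdd hg.intNeg).congr fun x => by ring

theorem intMul {f g : α → ℤ} (hf : PolyF f) (hg : PolyF g) : PolyF (fun x => f x * g x) := by
  refine (((hf.intToNat.binMul hg.intToNat).binAdd
    (hf.intNeg.intToNat.binMul hg.intNeg.intToNat)).intDiff
    ((hf.intToNat.binMul hg.intNeg.intToNat).binAdd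
    (hf.intNeg.intToNat.binMul hg.intToNat))).congr fun x => ?_
  have h1 : f x = ((f x).toNat : ℤ) - ((-f x).toNat : ℤ) := by omega
  have h2 : g x = ((g x).toNat : ℤ) - ((-g x).toNat : ℤ) := by omega
  push_cast
  conv_rhs => rw [h1, h2]
  ring

theorem intLt {f g : α → ℤ} (hf : PolyF f) (hg : PolyF g) :
    PolyF (fun x => decide (f x < g x)) :=
  (hf.intSub hg).intIsNeg.decide_congr fun x => by omega

theorem intLe {f g : α → ℤ} (hf : PolyF f) (hg : PolyF g) :
    PolyF (fun x => decide (f x ≤ g x)) :=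
  (hg.intLt hf).decide_not.decide_congr fun x => by omega

theorem intEq {f g : α → ℤ} (hf : PolyF f) (hg : PolyF g) :
    PolyF (fun x => decide (f x = g x)) := hf.eq hg

theorem intAbs {f : α → ℤ} (hf : PolyF f) : PolyF (fun x => |f x|) :=
  hf.intNatAbs.intOfBin.congr fun x => by rw [Int.abs_eq_natAbs]

theorem intSign {f : α → ℤ} (hf : PolyF f) : PolyF (fun x => (f x).sign) := by
  refine (ite (p := fun x => f x < 0) hf.intIsNeg (const (-1)) (ite (p := fun x => f x = 0)
    (hf.intEq (const 0)) (const 0) (const 1))).congr fun x => ?_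
  split_ifs with h1 h2
  · exact (Int.sign_eq_neg_one_of_neg h1).symm
  · rw [h2]; rfl
  · exact (Int.sign_eq_one_of_pos (by omega)).symm

theorem intMin {f g : α → ℤ} (hf : PolyF f) (hg : PolyF g) : PolyF (fun x => min (f x) (g x)) :=
  (ite (hf.intLe hg) hf hg).congr fun x => by rw [min_def]

theorem intMax {f g : α → ℤ} (hf : PolyF f) (hg : PolyF g) : PolyF (fun x => max (f x) (g x)) :=
  (ite (hf.intLe hg) hg hf).congr fun x => by rw [max_def]

/-- Truncated division. -/
theorem intTdiv {f g : α → ℤ} (hf : PolyF f) (hg : PolyF g) :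
    PolyF (fun x => (f x).tdiv (g x)) := by
  refine ((hf.intSign.intMul hg.intSign).intMul
    (hf.intNatAbs.binDiv hg.intNatAbs).intOfBin).congr fun x => ?_
  have h := Int.sign_mul_natAbs (f x)
  have h' := Int.sign_mul_natAbs (g x)
  dsimp only
  conv_rhs => rw [← h, ← h']
  rcases lt_trichotomy (f x) 0 with h1 | h1 | h1 <;> rcases lt_trichotomy (g x) 0 with h2 | h2 | h2
  all_goals first
    | rw [Int.sign_eq_neg_one_of_neg h1]
    | rw [Int.sign_eq_one_of_pos h1]
    | rw [h1]
  all_goals first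
    | rw [Int.sign_eq_neg_one_of_neg h2]
    | rw [Int.sign_eq_one_of_pos h2]
    | rw [h2]
  all_goals simp [Int.neg_tdiv, Int.tdiv_neg, Int.ofNat_tdiv,
    Int.tdiv_eq_ediv_of_nonneg (abs_nonneg _)]

/-- Floor division by a natural number or Euclidean division. -/
theorem intEdiv {f g : α → ℤ} (hf : PolyF f) (hg : PolyF g) :
    PolyF (fun x => f x / g x) := by
  -- `a / b = sign b * (if 0 ≤ a then |a| / |b| else -((|a| - 1) / |b|) - 1)`
  have h1 : PolyF (fun x => if f x < 0 then
      (if g x = 0 then (0 : ℤ) else -((((f x).natAbs - 1) / (g x).natAbs : ℕ) : ℤ) - 1)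
      else ((((f x).natAbs / (g x).natAbs : ℕ) : ℤ))) := by
    have e1 := (hf.intNatAbs.binDiv hg.intNatAbs).intOfBin
    have e2 := ((hf.intNatAbs.binSub (const ⟨1⟩)).binDiv hg.intNatAbs).intOfBin
    exact ite hf.intIsNeg (ite (hg.intEq (const 0)) (const 0)
      (e2.intNeg.intSub (const 1))) e1
  refine (hg.intSign.intMul h1).congr fun x => ?_
  generalize f x = a
  generalize g x = b
  split_ifs with h2 h3
  · simp [h3]
  · obtain ⟨n, hn⟩ : ∃ n : ℕ, a = -(n + 1 : ℤ) := ⟨a.natAbs - 1, by omega⟩
    subst hn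
    have e1 : (-(n + 1 : ℤ)).natAbs - 1 = n := by omega
    rw [e1]
    have e2 : (-(n + 1 : ℤ)) = Int.negSucc n := by rw [Int.negSucc_eq]
    rcases lt_or_gt_of_ne h3 with h4 | h4
    · rw [Int.sign_eq_neg_one_of_neg h4]
      obtain ⟨m, rfl⟩ : ∃ m : ℕ, b = -(m : ℤ) := ⟨b.natAbs, by omega⟩
      rw [Int.ediv_neg, e2, Int.negSucc_ediv n (by omega : (0 : ℤ) < m)]
      have e3 : (n : ℤ).ediv m = (n : ℤ) / m := rfl
      rw [e3]
      simp
      ring
    · rw [Int.sign_eq_one_of_pos h4]
      obtain ⟨m, rfl⟩ : ∃ m : ℕ, b = (m : ℤ) := ⟨b.natAbs, by omega⟩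
      rw [e2, Int.negSucc_ediv n h4]
      have e3 : (n : ℤ).ediv m = (n : ℤ) / m := rfl
      rw [e3]
      simp
      ring
  · obtain ⟨n, rfl⟩ : ∃ n : ℕ, a = (n : ℤ) := ⟨a.natAbs, by omega⟩
    rcases lt_trichotomy b 0 with h4 | h4 | h4
    · rw [Int.sign_eq_neg_one_of_neg h4]
      obtain ⟨m, rfl⟩ : ∃ m : ℕ, b = -(m : ℤ) := ⟨b.natAbs, by omega⟩
      rw [Int.ediv_neg]
      simp
    · simp [h4]
    · rw [Int.sign_eq_one_of_pos h4]
      obtain ⟨m, rfl⟩ : ∃ m : ℕ, b = (m : ℤ) := ⟨b.natAbs, by omega⟩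
      simp

theorem intEmod {f g : α → ℤ} (hf : PolyF f) (hg : PolyF g) :
    PolyF (fun x => f x % g x) :=
  (hf.intSub (hg.intMul (hf.intEdiv hg))).congr fun x => by
    have := Int.mul_ediv_add_emod (f x) (g x)
    omega

/-! ### Generic list operations -/

theorem zipWith {l : α → List β} {l' : α → List γ} {h : α → β → γ → δ} (hl : PolyF l)
    (hl' : PolyF l') (hh : PolyF (fun p : α × β × γ => h p.1 p.2.1 p.2.2)) :
    PolyF (fun x => List.zipWith (h x) (l x) (l' x)) := by
  refine ((hl.zip hl').map (h := fun x (q : β × γ) => h x q.1 q.2) hh).congr fun x => ?_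
  rw [List.zip_eq_zipWith, List.map_zipWith]

theorem replicate {n : α → ℕ} {b : α → β} (hn : PolyF n) (hb : PolyF b) :
    PolyF (fun x => List.replicate (n x) (b x)) := by
  refine (hn.range.map (h := fun y _ => b y) (hb.comp fst')).congr fun _ => ?_
  rw [List.map_const', List.length_range]

/-- Size of an element, in unary. -/
theorem szFun {f : α → β} (hf : PolyF f) : PolyF (fun x => sz (f x)) := by
  have key : ∀ i m : ℕ, (fun c => c + 1)^[i] m = m + i := by
    intro i
    induction i with
    | zero => intro m; rfl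
    | succ i ih => intro m; rw [iterate_succ_apply, ih]; ring
  refine (iterate (n := f) (f := fun _ c => c + 1) (g := fun _ => 0) hf snd'.succ (const 0)
    ?_).congr fun x => ?_
  · obtain ⟨B, hB⟩ := hf.pbd
    refine ⟨B, fun x i hi => ?_⟩
    rw [key, sz_nat, zero_add]
    exact hi.trans (hB x)
  · rw [key, zero_add]

/-! ### Further arithmetic -/

theorem binSize {f : α → Bin} (hf : PolyF f) : PolyF (fun x => Nat.size (f x).val) :=
  hf.bits.length.congr fun _ => Nat.size_eq_bits_len _

theorem intSize {f : α → ℤ} (hf : PolyF f) : PolyF (fun x => Nat.size (f x).natAbs) :=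
  hf.intNatAbs.binSize

/-- Power of a binary integer with a unary exponent. -/
theorem intPow {f : α → ℤ} {n : α → ℕ} (hf : PolyF f) (hn : PolyF n) :
    PolyF (fun x => f x ^ n x) := by
  have key : ∀ (i : ℕ) (a : ℤ), (fun c => c * a)^[i] 1 = a ^ i := by
    intro i
    induction i with
    | zero => intro m; simp
    | succ i ih => intro m; rw [iterate_succ_apply', ih, pow_succ]
  refine (natIterate (n := n) (f := fun x c => c * f x) (g := fun _ => 1) hn
    (snd'.intMul (hf.comp fst')) (const 1) ?_).congr fun x => key _ _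
  refine ((((hn.pbdNat.mul hf.pbd).add (PBd.const 1)).add ((hn.pbdNat.mul hf.pbd).add
    (PBd.const 1))).add (PBd.const 2)).imp fun B hB x i hi => ?_
  refine le_trans ?_ (hB x)
  beta_reduce
  rw [key]
  have h1 := sz_int_le (f x ^ i)
  have h2 := isize_pow_le (f x) i
  have h3 : i * isize (f x) ≤ n x * sz (f x) := Nat.mul_le_mul hi (isize_le_sz _)
  omega

theorem intTwoPow {n : α → ℕ} (hn : PolyF n) : PolyF (fun x => (2 : ℤ) ^ n x) :=
  intPow (const 2) hn

/-- Sum of a list of integers. -/
theorem intSum {l : α → List ℤ} (hl : PolyF l) : PolyF (fun x => (l x).sum) := by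
  refine (foldr_meas (i := fun _ => (0 : ℤ)) (f := fun _ b c => b + c) hl (const _)
    (snd'.fst.intAdd snd'.snd) (fun _ c => isize c) (2 * Polynomial.X) (fun x => sz (l x) + 2)
    (hl.pbd.add (PBd.const 2)) (fun x => by simp) (fun x c b hb => ?_) (fun x c => ?_)).congr
    fun x => ?_
  · have h1 := isize_add_le b c
    have h2 := isize_le_sz b
    have h3 := sz_mem hb
    omega
  · have := sz_int_le c
    simp only [Polynomial.eval_mul, Polynomial.eval_X, Polynomial.eval_ofNat]
    omega
  · induction l x with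
    | nil => rfl
    | cons b t ih => rw [List.foldr_cons, List.sum_cons, ← ih]

/-- Product of a list of integers. -/
theorem intProd {l : α → List ℤ} (hl : PolyF l) : PolyF (fun x => (l x).prod) := by
  refine (foldr_meas (i := fun _ => (1 : ℤ)) (f := fun _ b c => b * c) hl (const _)
    (snd'.fst.intMul snd'.snd) (fun _ c => isize c) (2 * Polynomial.X) (fun x => sz (l x) + 2)
    (hl.pbd.add (PBd.const 2)) (fun x => by simp [isize_one]) (fun x c b hb => ?_)
    (fun x c => ?_)).congr fun x => ?_
  · have h1 := isize_mul_le b c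
    have h2 := isize_le_sz b
    have h3 := sz_mem hb
    omega
  · have := sz_int_le c
    simp only [Polynomial.eval_mul, Polynomial.eval_X, Polynomial.eval_ofNat]
    omega
  · induction l x with
    | nil => rfl
    | cons b t ih => rw [List.foldr_cons, List.prod_cons, ← ih]

/-! ### Greatest common divisor -/

theorem gcd_step_iterate (k : ℕ) : ∀ a b : ℕ, Nat.size b ≤ k →
    ((fun p : ℕ × ℕ => if p.2 = 0 then p else (p.2, p.1 % p.2))^[2 * k] (a, b)) =
      (Nat.gcd a b, 0) := by
  induction k with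
  | zero =>
    intro a b h
    have hb : b = 0 := by
      have := Nat.size_eq_zero.1 (Nat.le_zero.1 h)
      exact this
    subst hb
    simp
  | succ k ih =>
    intro a b h
    rw [show 2 * (k + 1) = 2 * k + 1 + 1 by ring, iterate_succ_apply, iterate_succ_apply]
    by_cases hb : b = 0
    · subst hb
      simp only [if_true]
      rw [ih a 0 (by simp)]
    · simp only [if_neg hb]
      by_cases hc : a % b = 0
      · simp only [if_pos hc]
        rw [hc, ih b 0 (by simp)]
        simp only [Nat.gcd_zero_right]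
        rw [Nat.gcd_comm, Nat.gcd_rec, hc, Nat.gcd_zero_left]
      · simp only [if_neg hc]
        have hlt : a % b < b := Nat.mod_lt _ (Nat.pos_of_ne_zero hb)
        have h2 : b % (a % b) < 2 ^ k := by
          have h3 : b % (a % b) < a % b := Nat.mod_lt _ (Nat.pos_of_ne_zero hc)
          have h4 : b < 2 ^ (k + 1) := Nat.size_le.1 h
          have h5 : b % (a % b) + a % b ≤ b := by
            have h6 := Nat.div_add_mod b (a % b)
            have h7 : 1 ≤ b / (a % b) := Nat.div_pos hlt.le (Nat.pos_of_ne_zero hc)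
            nlinarith
          rw [pow_succ] at h4
          omega
        rw [ih _ _ (Nat.size_le.2 h2)]
        have e1 : (a % b).gcd (b % (a % b)) = a.gcd b := by
          rw [Nat.gcd_comm, ← Nat.gcd_rec, ← Nat.gcd_rec, Nat.gcd_comm]
        rw [e1]

theorem binGcd {f g : α → Bin} (hf : PolyF f) (hg : PolyF g) :
    PolyF (fun x => (⟨Nat.gcd (f x).val (g x).val⟩ : Bin)) := by
  let step : Bin × Bin → Bin × Bin := fun p => if p.2.val = (⟨0⟩ : Bin).val then p
    else (p.2, ⟨p.1.val % p.2.val⟩)
  have hstep : PolyF (fun p : α × Bin × Bin => step p.2) :=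
    ite (p := fun p : α × Bin × Bin => p.2.2.val = (⟨0⟩ : Bin).val)
      (PolyF.binEq (f := fun p : α × Bin × Bin => p.2.2) snd'.snd (const (⟨0⟩ : Bin))) snd'
      (snd'.snd.pair (snd'.fst.binMod snd'.snd))
  have key : ∀ (i : ℕ) (p : Bin × Bin), ((step^[i] p).1.val, (step^[i] p).2.val) =
      (fun p : ℕ × ℕ => if p.2 = 0 then p else (p.2, p.1 % p.2))^[i] (p.1.val, p.2.val) := by
    intro i
    induction i with
    | zero => intro p; rfl
    | succ i ih =>
      intro p
      rw [iterate_succ_apply', iterate_succ_apply', ← ih]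
      simp only [step]
      split_ifs with h1 <;> rfl
  have bd : ∀ (i : ℕ) (a b : ℕ), ∀ q, q = (fun p : ℕ × ℕ => if p.2 = 0 then p
      else (p.2, p.1 % p.2))^[i] (a, b) → q.1 ≤ max a b ∧ q.2 ≤ max a b := by
    intro i
    induction i with
    | zero => rintro a b q rfl; exact ⟨le_max_left _ _, le_max_right _ _⟩
    | succ i ih =>
      rintro a b q hq
      rw [iterate_succ_apply'] at hq
      have h1 := ih a b _ rfl
      rw [hq]
      split_ifs with h2
      · exact h1
      · exact ⟨h1.2, (Nat.mod_le _ _).trans h1.1⟩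
  have hn : PolyF (fun x => 2 * Nat.size (g x).val) := (const 2).natMul hg.binSize
  refine (natIterate (f := fun _ => step) (g := fun x => (f x, g x)) hn hstep
    (hf.pair hg) ?_).fst.congr fun x => ?_
  · refine ((PBd.const 1).add (((PBd.const 2).mul (hf.pbd.add hg.pbd)).add
      ((PBd.const 2).mul (hf.pbd.add hg.pbd)))).imp fun B hB x i hi => ?_
    refine le_trans ?_ (hB x)
    beta_reduce
    obtain ⟨h1, h2⟩ := bd i (f x).val (g x).val _ rfl
    rw [← key i (f x, g x)] at h1 h2
    rw [sz_prod]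
    have h3 := sz_bin_le (step^[i] (f x, g x)).1
    have h4 := sz_bin_le (step^[i] (f x, g x)).2
    have h5 : Nat.size (max (f x).val (g x).val) ≤ sz (f x) + sz (g x) := by
      rcases le_total (f x).val (g x).val with h | h
      · rw [max_eq_right h]
        have := size_le_sz_bin (g x)
        omega
      · rw [max_eq_left h]
        have := size_le_sz_bin (f x)
        omega
    have h6 := Nat.size_le_size h1
    have h7 := Nat.size_le_size h2
    dsimp only at h6 h7
    omega
  · have h1 := key (2 * Nat.size (g x).val) (f x, g x)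
    rw [gcd_step_iterate _ _ _ le_rfl] at h1
    ext
    exact congrArg Prod.fst h1

theorem intGcd {f g : α → ℤ} (hf : PolyF f) (hg : PolyF g) :
    PolyF (fun x => (⟨Int.gcd (f x) (g x)⟩ : Bin)) :=
  (hf.intNatAbs.binGcd hg.intNatAbs)

end PolyF

end

end Pool.Agent.Lib.PolyTime
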