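import Pool.Agent.Lib.PolyTime.Bin

/-!
# Binary naturals as a type synonym of `ℕ`

`NBin` is `ℕ` with the binary encoding, so that functions written for `ℕ` can be used unchanged.
-/

set_option linter.unusedSimpArgs false

namespace Pool.Agent.Lib.PolyTime

open Turing Function

/-- The natural numbers, encoded in binary. -/
def NBin : Type := ℕ

instance : TEnc NBin := ⟨fun n => enc (Nat.bits n)⟩

theorem enc_nbin (n : NBin) : enc n = enc (Nat.bits n) := rfl

theorem sz_nbin (n : NBin) : sz n = sz (Nat.bits n) := rfl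

theorem bits_inj (a b : ℕ) (h : Nat.bits a = Nat.bits b) : a = b := by
  have h2 := congrArg bval h
  rwa [bval_bits, bval_bits] at h2

instance : TInj NBin := ⟨fun a b h => bits_inj a b (TInj.inj (α := List Bool) h)⟩

instance : DecidableEq NBin := inferInstanceAs (DecidableEq ℕ)

theorem sz_nbin_le (n : NBin) : sz n ≤ 2 * Nat.size n := sz_bin_le ⟨n⟩

theorem size_le_sz_nbin (n : NBin) : Nat.size n ≤ sz n := size_le_sz_bin ⟨n⟩

section

variable {α β γ δ ε : Type*} [TEnc α] [TEnc β] [TEnc γ] [TEnc δ] [TEnc ε]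

namespace PolyF

theorem toBin {f : α → NBin} (hf : PolyF f) : PolyF (fun x => (⟨f x⟩ : Bin)) :=
  hf.of_enc (fun x => x) (fun _ => rfl) fun _ => rfl

theorem ofBin {f : α → Bin} (hf : PolyF f) : PolyF (α := α) (β := NBin) (fun x => (f x).val) :=
  hf.of_enc (fun x => x) (fun _ => rfl) fun _ => rfl

theorem nbConst (n : ℕ) : PolyF (α := α) (β := NBin) (fun _ => n) := const (β := NBin) n

theorem nbAdd {f g : α → NBin} (hf : PolyF f) (hg : PolyF g) :
    PolyF (α := α) (β := NBin) (fun x => @HAdd.hAdd ℕ ℕ ℕ instHAdd (f x) (g x)) :=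
  (hf.toBin.binAdd hg.toBin).ofBin

theorem nbSub {f g : α → NBin} (hf : PolyF f) (hg : PolyF g) :
    PolyF (α := α) (β := NBin) (fun x => @HSub.hSub ℕ ℕ ℕ instHSub (f x) (g x)) :=
  (hf.toBin.binSub hg.toBin).ofBin

theorem nbMul {f g : α → NBin} (hf : PolyF f) (hg : PolyF g) :
    PolyF (α := α) (β := NBin) (fun x => @HMul.hMul ℕ ℕ ℕ instHMul (f x) (g x)) :=
  (hf.toBin.binMul hg.toBin).ofBin

theorem nbDiv {f g : α → NBin} (hf : PolyF f) (hg : PolyF g) :
    PolyF (α := α) (β := NBin) (fun x => @HDiv.hDiv ℕ ℕ ℕ instHDiv (f x) (g x)) :=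
  (hf.toBin.binDiv hg.toBin).ofBin

theorem nbMod {f g : α → NBin} (hf : PolyF f) (hg : PolyF g) :
    PolyF (α := α) (β := NBin) (fun x => @HMod.hMod ℕ ℕ ℕ instHMod (f x) (g x)) :=
  (hf.toBin.binMod hg.toBin).ofBin

theorem nbMin {f g : α → NBin} (hf : PolyF f) (hg : PolyF g) :
    PolyF (α := α) (β := NBin) (fun x => @min ℕ _ (f x) (g x)) :=
  (hf.toBin.binMin hg.toBin).ofBin

theorem nbMax {f g : α → NBin} (hf : PolyF f) (hg : PolyF g) :
    PolyF (α := α) (β := NBin) (fun x => @max ℕ _ (f x) (g x)) :=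
  (hf.toBin.binMax hg.toBin).ofBin

theorem nbLe {f g : α → NBin} (hf : PolyF f) (hg : PolyF g) :
    PolyF (fun x => @decide (@LE.le ℕ instLENat (f x) (g x)) (Nat.decLe (f x) (g x))) :=
  hf.toBin.binLe hg.toBin

theorem nbLt {f g : α → NBin} (hf : PolyF f) (hg : PolyF g) :
    PolyF (fun x => @decide (@LT.lt ℕ instLTNat (f x) (g x)) (Nat.decLt (f x) (g x))) :=
  hf.toBin.binLt hg.toBin

theorem nbEq {f g : α → NBin} (hf : PolyF f) (hg : PolyF g) :
    PolyF (fun x => @decide (@Eq ℕ (f x) (g x)) (instDecidableEqNat (f x) (g x))) :=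
  hf.toBin.binEq hg.toBin

theorem nbBeq [inst : BEq ℕ] [LawfulBEq ℕ] {f g : α → NBin} (hf : PolyF f) (hg : PolyF g) :
    PolyF (fun x => @BEq.beq ℕ inst (f x) (g x)) := by
  refine (nbEq hf hg).congr fun x => ?_
  have h : ∀ a b : ℕ, decide (a = b) = (a == b) := fun a b => by
    rw [Bool.eq_iff_iff]
    simp
  exact h (f x) (g x)

/-- From unary to binary. -/
theorem nbOfNat {f : α → ℕ} (hf : PolyF f) : PolyF (α := α) (β := NBin) (fun x => f x) :=
  hf.binOfNat.ofBin

/-- From binary to unary, truncated. -/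
theorem natOfNb {f : α → NBin} {n : α → ℕ} (hf : PolyF f) (hn : PolyF n) :
    PolyF (α := α) (β := ℕ) (fun x => @min ℕ _ (f x) (n x)) := hf.toBin.natOfBin hn

theorem nbSum {l : α → List NBin} (hl : PolyF l) :
    PolyF (α := α) (β := NBin) (fun x => @List.sum ℕ _ _ (l x)) := by
  have h : PolyF (fun x => (l x).map (fun n => (⟨n⟩ : Bin))) :=
    hl.map (h := fun _ (n : NBin) => (⟨n⟩ : Bin)) snd'.toBin
  refine (h.binSum.ofBin).congr fun x => ?_
  have e : ∀ m : List ℕ, ((m.map (fun n => (⟨n⟩ : Bin))).map Bin.val).sum = m.sum := by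
    intro m
    induction m with
    | nil => rfl
    | cons a m ih => rw [List.map_cons, List.map_cons, List.sum_cons, ih, List.sum_cons]
  exact e (l x)

end PolyF

end

end Pool.Agent.Lib.PolyTime
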