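import Pool.Agent.Lib.PolyTime.EqOps

/-!
# Systems of distinct representatives in polynomial time (auction algorithm)
-/

set_option linter.unusedSimpArgs false
set_option linter.unusedSectionVars false

namespace Pool.Agent.Lib.PolyTime

open Turing Function

/-- The lists `adj[0], adj[1], ...` have a system of distinct representatives, i.e. the bipartite
graph with these adjacency lists has a matching saturating the left side. -/
def HasSDR {β : Type*} (adj : List (List β)) : Prop :=
  ∃ f : Fin adj.length → β, Injective f ∧ ∀ i, f i ∈ adj[i]

section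

variable {β : Type*} [DecidableEq β]

/-- The first left vertex that is not matched. -/
def unmatched (adj : List (List β)) (M : List (ℕ × β)) : Option ℕ :=
  (List.range adj.length).find? fun i => decide (i ∉ M.map Prod.fst)

/-- A cheapest neighbour of a left vertex, if its price is below the number of left vertices. -/
def cheapest (adj : List (List β)) (P : List β) (i : ℕ) : Option β :=
  (adj.getD i []).find? fun v =>
    decide (P.count v < adj.length ∧ ∀ w ∈ adj.getD i [], P.count v ≤ P.count w)

/-- One bid of the auction algorithm. The price of `v` is the number of its occurrences in `s.1`;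
`s.2` is the current matching. -/
def bid (adj : List (List β)) (s : List β × List (ℕ × β)) : List β × List (ℕ × β) :=
  match unmatched adj s.2 with
  | none => s
  | some i =>
    match cheapest adj s.1 i with
    | none => s
    | some v => (v :: s.1, (i, v) :: s.2.filter fun q => decide (q.2 ≠ v))

/-- Invariants of the auction algorithm. -/
structure AucInv (adj : List (List β)) (s : List β × List (ℕ × β)) : Prop where
  fst_nodup : (s.2.map Prod.fst).Nodup
  snd_nodup : (s.2.map Prod.snd).Nodup
  edge : ∀ q ∈ s.2, q.1 < adj.length ∧ q.2 ∈ adj.getD q.1 []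
  slack : ∀ q ∈ s.2, ∀ w ∈ adj.getD q.1 [], s.1.count q.2 ≤ s.1.count w + 1
  priced : ∀ v ∈ s.1, v ∈ s.2.map Prod.snd
  le : ∀ v, s.1.count v ≤ adj.length
  mem : ∀ v ∈ s.1, v ∈ adj.flatten

theorem aucInv_init (adj : List (List β)) : AucInv adj ([], []) := by
  constructor <;> simp

omit [DecidableEq β] in
theorem mem_flatten_of_getD {adj : List (List β)} {i : ℕ} {v : β} (h : v ∈ adj.getD i []) :
    v ∈ adj.flatten := by
  rw [List.getD_eq_getElem?_getD] at h
  rcases hi : adj[i]? with _ | l
  · rw [hi] at h; simp at h
  · rw [hi] at h
    exact List.mem_flatten.2 ⟨l, List.mem_of_getElem? hi, by simpa using h⟩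

theorem aucInv_bid {adj : List (List β)} {s : List β × List (ℕ × β)} (h : AucInv adj s) :
    AucInv adj (bid adj s) := by
  unfold bid
  rcases hu : unmatched adj s.2 with _ | i
  · exact h
  · rcases hc : cheapest adj s.1 i with _ | v
    · simpa only [hc] using h
    · simp only [hc]
      have hi := List.find?_some hu
      have hi2 := List.mem_of_find?_eq_some hu
      have hv := List.find?_some hc
      have hv2 := List.mem_of_find?_eq_some hc
      simp only [decide_eq_true_eq, List.mem_range] at hi hi2 hv
      constructor
      · rw [List.map_cons, List.nodup_cons]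
        refine ⟨fun h1 => hi ?_, ?_⟩
        · obtain ⟨q, hq, hq1⟩ := List.mem_map.1 h1
          exact List.mem_map.2 ⟨q, (List.mem_filter.1 hq).1, hq1⟩
        · exact h.fst_nodup.sublist (List.Sublist.map _ List.filter_sublist)
      · rw [List.map_cons, List.nodup_cons]
        refine ⟨fun h1 => ?_, ?_⟩
        · obtain ⟨q, hq, hq1⟩ := List.mem_map.1 h1
          have := (List.mem_filter.1 hq).2
          simp only [decide_eq_true_eq] at this
          exact this hq1
        · exact h.snd_nodup.sublist (List.Sublist.map _ List.filter_sublist)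
      · intro q hq
        rcases List.mem_cons.1 hq with rfl | hq
        · exact ⟨hi2, hv2⟩
        · exact h.edge q (List.mem_filter.1 hq).1
      · intro q hq w hw
        rcases List.mem_cons.1 hq with rfl | hq
        · have h1 := hv.2 w hw
          have h2 : s.1.count w ≤ (v :: s.1).count w := List.count_le_count_cons
          show (v :: s.1).count v ≤ (v :: s.1).count w + 1
          rw [List.count_cons_self]
          omega
        · obtain ⟨hq1, hq2⟩ := List.mem_filter.1 hq
          simp only [decide_eq_true_eq] at hq2
          have h1 := h.slack q hq1 w hw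
          have h2 : s.1.count w ≤ (v :: s.1).count w := List.count_le_count_cons
          show (v :: s.1).count q.2 ≤ (v :: s.1).count w + 1
          rw [List.count_cons_of_ne (Ne.symm hq2)]
          omega
      · intro w hw
        rcases List.mem_cons.1 hw with rfl | hw
        · simp
        · by_cases hwv : w = v
          · simp [hwv]
          · obtain ⟨q, hq, hq1⟩ := List.mem_map.1 (h.priced w hw)
            refine List.mem_map.2 ⟨q, List.mem_cons_of_mem _ (List.mem_filter.2 ⟨hq, ?_⟩), hq1⟩
            simp only [decide_eq_true_eq]
            rw [hq1]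
            exact hwv
      · intro w
        by_cases hwv : w = v
        · subst hwv
          rw [List.count_cons_self]
          exact hv.1
        · rw [List.count_cons_of_ne (Ne.symm hwv)]
          exact h.le w
      · intro w hw
        rcases List.mem_cons.1 hw with rfl | hw
        · exact mem_flatten_of_getD hv2
        · exact h.mem w hw

theorem aucInv_iterate (adj : List (List β)) (k : ℕ) : AucInv adj ((bid adj)^[k] ([], [])) := by
  induction k with
  | zero => exact aucInv_init adj
  | succ k ih => rw [iterate_succ_apply']; exact aucInv_bid ih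

theorem length_prices_le {adj : List (List β)} {s : List β × List (ℕ × β)} (h : AucInv adj s) :
    s.1.length ≤ adj.length * adj.flatten.length := by
  classical
  have h1 : s.1.length = ∑ v ∈ s.1.toFinset, s.1.count v :=
    (List.sum_toFinset_count_eq_length s.1).symm
  rw [h1]
  calc ∑ v ∈ s.1.toFinset, s.1.count v ≤ ∑ _v ∈ s.1.toFinset, adj.length :=
        Finset.sum_le_sum fun v _ => h.le v
    _ = s.1.toFinset.card * adj.length := by rw [Finset.sum_const, smul_eq_mul]
    _ ≤ adj.length * adj.flatten.length := by
        rw [mul_comm]
        refine Nat.mul_le_mul_left _ ?_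
        refine (Finset.card_le_card (fun v hv => ?_)).trans (List.toFinset_card_le adj.flatten)
        rw [List.mem_toFinset] at *
        exact h.mem v hv

theorem bid_fixed_or_length (adj : List (List β)) (s : List β × List (ℕ × β)) :
    bid adj s = s ∨ (bid adj s).1.length = s.1.length + 1 := by
  unfold bid
  rcases hu : unmatched adj s.2 with _ | i
  · left; rfl
  · rcases hc : cheapest adj s.1 i with _ | v
    · left; simp only [hc]
    · right; simp only [hc, List.length_cons]

/-- The number of bids. -/
def nBids (adj : List (List β)) : ℕ := adj.length * adj.flatten.length + 1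

/-- The final state of the auction. -/
def auction (adj : List (List β)) : List β × List (ℕ × β) := (bid adj)^[nBids adj] ([], [])

theorem bid_auction (adj : List (List β)) : bid adj (auction adj) = auction adj := by
  have key : ∀ k, bid adj ((bid adj)^[k] ([], [])) = (bid adj)^[k] ([], []) ∨
      ((bid adj)^[k] ([], [])).1.length = k := by
    intro k
    induction k with
    | zero => right; rfl
    | succ k ih =>
      rw [iterate_succ_apply']
      rcases ih with ih | ih
      · left; rw [ih, ih]
      · rcases bid_fixed_or_length adj ((bid adj)^[k] ([], [])) with h | h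
        · left; rw [h, h]
        · right; rw [h, ih]
  rcases key (nBids adj) with h | h
  · exact h
  · have h1 := length_prices_le (aucInv_iterate adj (nBids adj))
    rw [h] at h1
    unfold nBids at h1
    omega

/-- All left vertices are matched in the end. -/
def aucOk (adj : List (List β)) : Bool := (unmatched adj (auction adj).2).isNone

theorem hasSDR_of_inv {adj : List (List β)} {s : List β × List (ℕ × β)} (h : AucInv adj s)
    (hu : unmatched adj s.2 = none) : HasSDR adj := by
  have h2 : ∀ i : Fin adj.length, ∃ v, ((i : ℕ), v) ∈ s.2 := by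
    intro i
    have h1 : (i : ℕ) ∈ s.2.map Prod.fst := by
      by_contra hcon
      have := List.find?_eq_none.1 hu i (List.mem_range.2 i.2)
      simp only [decide_eq_true_eq, not_not] at this
      exact hcon this
    obtain ⟨q, hq, hq1⟩ := List.mem_map.1 h1
    exact ⟨q.2, by rw [← hq1]; exact hq⟩
  choose f hf using h2
  refine ⟨f, fun i j hij => ?_, fun i => ?_⟩
  · have := List.inj_on_of_nodup_map h.snd_nodup (hf i) (hf j) hij
    exact Fin.ext (congrArg Prod.fst this)
  · have := (h.edge _ (hf i)).2
    rwa [List.getD_eq_getElem _ _ i.2] at this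

theorem not_hasSDR_of_inv {adj : List (List β)} {s : List β × List (ℕ × β)} (h : AucInv adj s)
    {i : ℕ} (hu : unmatched adj s.2 = some i) (hc : cheapest adj s.1 i = none) :
    ¬ HasSDR adj := by
  have hi := List.find?_some hu
  have hi2 := List.mem_of_find?_eq_some hu
  simp only [decide_eq_true_eq, List.mem_range] at hi hi2
  -- all neighbours of `i` are expensive
  have hexp : ∀ w ∈ adj.getD i [], adj.length ≤ s.1.count w := by
    intro w hw
    obtain ⟨v, hv, hmin⟩ := Finset.exists_min_image (adj.getD i []).toFinset
      (fun v => s.1.count v) ⟨w, List.mem_toFinset.2 hw⟩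
    have h1 := List.find?_eq_none.1 hc v (List.mem_toFinset.1 hv)
    simp only [decide_eq_true_eq, not_and] at h1
    have h2 : ¬ s.1.count v < adj.length := fun h3 =>
      h1 h3 fun w' hw' => hmin w' (List.mem_toFinset.2 hw')
    have h3 := hmin w (List.mem_toFinset.2 hw)
    omega
  -- few matched vertices
  have hlen : s.2.length < adj.length := by
    have h1 : (i :: s.2.map Prod.fst).Nodup := List.nodup_cons.2 ⟨hi, h.fst_nodup⟩
    have h2 : (i :: s.2.map Prod.fst) ⊆ List.range adj.length := by
      intro j hj
      rw [List.mem_range]
      rcases List.mem_cons.1 hj with rfl | hj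
      · exact hi2
      · obtain ⟨q, hq, hq1⟩ := List.mem_map.1 hj
        rw [← hq1]
        exact (h.edge q hq).1
    have h3 := (List.subperm_of_subset h1 h2).length_le
    simpa using h3
  -- a gap in the prices
  obtain ⟨k, hk1, hk2⟩ : ∃ k, k ≤ adj.length ∧ 0 < k ∧ ∀ v, s.1.count v ≠ k := by
    by_contra hcon
    push Not at hcon
    have h1 : ∀ k : Fin adj.length, ∃ v, s.1.count v = k + 1 := fun k =>
      hcon (k + 1) k.2 (Nat.succ_pos _)
    choose g hg using h1
    have hginj : Injective g := fun a b hab => by
      have h2 := hg a
      rw [hab, hg b] at h2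
      exact Fin.ext (by omega)
    have h2 : (List.ofFn g).Nodup := List.nodup_ofFn.2 hginj
    have h3 : List.ofFn g ⊆ s.2.map Prod.snd := by
      intro v hv
      obtain ⟨k, rfl⟩ := (List.mem_ofFn' g v).1 hv
      refine h.priced _ (List.count_pos_iff.1 ?_)
      rw [hg]
      omega
    have h4 := (List.subperm_of_subset h2 h3).length_le
    simp only [List.length_ofFn, List.length_map] at h4
    omega
  rintro ⟨f, hf, hadj⟩
  -- the Hall violator
  let S := s.2.filter fun q => decide (k < s.1.count q.2)
  let f' : ℕ → β := fun j => if hj : j < adj.length then f ⟨j, hj⟩ else f ⟨i, hi2⟩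
  have hf' : ∀ j < adj.length, f' j ∈ adj.getD j [] := by
    intro j hj
    simp only [f', dif_pos hj]
    rw [List.getD_eq_getElem _ _ hj]
    exact hadj ⟨j, hj⟩
  have hSlt : ∀ q ∈ S, q.1 < adj.length := fun q hq => (h.edge q (List.mem_filter.1 hq).1).1
  have hA : (i :: S.map Prod.fst).Nodup := by
    refine List.nodup_cons.2 ⟨fun h1 => hi ?_, ?_⟩
    · obtain ⟨q, hq, hq1⟩ := List.mem_map.1 h1
      exact List.mem_map.2 ⟨q, (List.mem_filter.1 hq).1, hq1⟩
    · exact h.fst_nodup.sublist (List.Sublist.map _ List.filter_sublist)
  have hAlt : ∀ j ∈ i :: S.map Prod.fst, j < adj.length := by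
    intro j hj
    rcases List.mem_cons.1 hj with rfl | hj
    · exact hi2
    · obtain ⟨q, hq, hq1⟩ := List.mem_map.1 hj
      rw [← hq1]
      exact hSlt q hq
  have hmap : ((i :: S.map Prod.fst).map f').Nodup := by
    refine hA.map_on fun a ha b hb hab => ?_
    simp only [f', dif_pos (hAlt a ha), dif_pos (hAlt b hb)] at hab
    exact congrArg Fin.val (hf hab)
  have hin : ∀ w, k < s.1.count w → w ∈ S.map Prod.snd := by
    intro w hw
    obtain ⟨q, hq, hq1⟩ := List.mem_map.1 (h.priced w (List.count_pos_iff.1 (by omega)))
    refine List.mem_map.2 ⟨q, List.mem_filter.2 ⟨hq, ?_⟩, hq1⟩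
    simp only [decide_eq_true_eq, hq1]
    exact hw
  have hsub : (i :: S.map Prod.fst).map f' ⊆ S.map Prod.snd := by
    intro w hw
    obtain ⟨j, hj, rfl⟩ := List.mem_map.1 hw
    refine hin _ ?_
    have h1 := hf' j (hAlt j hj)
    rcases List.mem_cons.1 hj with rfl | hj
    · have h2 := hexp _ h1
      have h3 := hk2.2 (f' j)
      omega
    · obtain ⟨q, hq, hq1⟩ := List.mem_map.1 hj
      rw [← hq1] at h1 ⊢
      have h2 := h.slack q (List.mem_filter.1 hq).1 _ h1
      have h3 := (List.mem_filter.1 hq).2
      simp only [decide_eq_true_eq] at h3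
      have h4 := hk2.2 (f' q.1)
      omega
  have h1 := (List.subperm_of_subset hmap hsub).length_le
  simp only [List.map_cons, List.length_cons, List.length_map] at h1
  omega

/-- Correctness of the auction algorithm. -/
theorem aucOk_iff (adj : List (List β)) : aucOk adj = true ↔ HasSDR adj := by
  have hinv := aucInv_iterate adj (nBids adj)
  have hfix := bid_auction adj
  unfold aucOk
  rw [Option.isNone_iff_eq_none]
  constructor
  · exact hasSDR_of_inv hinv
  · intro h
    rcases hu : unmatched adj (auction adj).2 with _ | i
    · rfl
    · exfalso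
      rcases hc : cheapest adj (auction adj).1 i with _ | v
      · exact not_hasSDR_of_inv hinv hu hc h
      · unfold bid at hfix
        rw [hu] at hfix
        simp only [hc] at hfix
        have := congrArg (fun s => s.1.length) hfix
        simp at this

end

/-! ### Polynomial time -/

section

variable {α β : Type*} [TEnc α] [TEnc β]

theorem PolyF.listGetD {n : α → ℕ} {l : α → List β} {d : α → β} (hn : PolyF n) (hl : PolyF l)
    (hd : PolyF d) : PolyF (fun x => (l x).getD (n x) (d x)) :=
  ((hn.getElem? hl).getD hd).congr fun x => by rw [List.getD_eq_getElem?_getD]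

theorem length_matching_le [DecidableEq β] {adj : List (List β)} {s : List β × List (ℕ × β)}
    (h : AucInv adj s) : s.2.length ≤ adj.length := by
  have h2 : (s.2.map Prod.fst) ⊆ List.range adj.length := by
    intro j hj
    rw [List.mem_range]
    obtain ⟨q, hq, hq1⟩ := List.mem_map.1 hj
    rw [← hq1]
    exact (h.edge q hq).1
  have h3 := (List.subperm_of_subset h.fst_nodup h2).length_le
  simpa using h3

variable [TInj β] [DecidableEq β]

theorem PolyF.unmatched {adj : α → List (List β)} {M : α → List (ℕ × β)} (ha : PolyF adj)
    (hM : PolyF M) : PolyF (fun x => unmatched (adj x) (M x)) :=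
  ha.length.range.find? (p := fun x i => decide (i ∉ (M x).map Prod.fst))
    ((snd'.mem ((hM.comp fst').map (h := fun _ q => q.1) snd'.fst)).decide_not)

theorem PolyF.cheapest {adj : α → List (List β)} {P : α → List β} {i : α → ℕ} (ha : PolyF adj)
    (hP : PolyF P) (hi : PolyF i) : PolyF (fun x => cheapest (adj x) (P x) (i x)) := by
  have hg : PolyF (fun x => (adj x).getD (i x) []) := hi.listGetD ha (const _)
  refine hg.find? (p := fun x v => decide ((P x).count v < (adj x).length ∧
    ∀ w ∈ (adj x).getD (i x) [], (P x).count v ≤ (P x).count w)) ?_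
  refine ((snd'.count (hP.comp fst')).natLt (ha.comp fst').length).decide_and ?_
  exact (hg.comp fst').forallMem (p := fun (q : α × β) w => (P q.1).count q.2 ≤ (P q.1).count w)
    ((fst'.snd.count (hP.comp fst'.fst)).natLe (snd'.count (hP.comp fst'.fst)))

theorem PolyF.bid : PolyF (fun p : List (List β) × (List β × List (ℕ × β)) => bid p.1 p.2) := by
  refine optionCases (o := fun p : List (List β) × (List β × List (ℕ × β)) =>
      PolyTime.unmatched p.1 p.2.2)
    (g := fun p => p.2)
    (h := fun q : (List (List β) × (List β × List (ℕ × β))) × ℕ =>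
      match PolyTime.cheapest q.1.1 q.1.2.1 q.2 with
      | none => q.1.2
      | .some v => (v :: q.1.2.1, (q.2, v) :: q.1.2.2.filter fun r => decide (r.2 ≠ v)))
    (fst'.unmatched snd'.snd) snd' ?_ ?_ ?_
  · refine optionCases (o := fun q : (List (List β) × (List β × List (ℕ × β))) × ℕ =>
        PolyTime.cheapest q.1.1 q.1.2.1 q.2)
      (g := fun q => q.1.2)
      (h := fun r : ((List (List β) × (List β × List (ℕ × β))) × ℕ) × β =>
        (r.2 :: r.1.1.2.1, (r.1.2, r.2) :: r.1.1.2.2.filter fun t => decide (t.2 ≠ r.2)))
      (fst'.fst.cheapest fst'.snd.fst snd') fst'.snd ?_ ?_ ?_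
    · refine (snd'.cons fst'.fst.snd.fst).pair ((fst'.snd.pair snd').cons ?_)
      exact fst'.fst.snd.snd.filter
        (p := fun (r : ((List (List β) × (List β × List (ℕ × β))) × ℕ) × β) t =>
          decide (t.2 ≠ r.2)) (snd'.snd.eq fst'.snd).decide_not
    · intro q hq
      simp only [hq]
    · intro q b hq
      simp only [hq]
  · intro p hp
    unfold PolyTime.bid
    rw [hp]
  · intro p b hp
    unfold PolyTime.bid
    rw [hp]

theorem sz_aucState {adj : List (List β)} {s : List β × List (ℕ × β)} (h : AucInv adj s) :
    sz s ≤ 1 + (sz adj + 1) * (sz adj * sz adj) + (2 * sz adj + 3) * sz adj := by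
  have hlen : adj.length ≤ sz adj := length_le_sz adj
  have hmem : ∀ v ∈ adj.flatten, sz v ≤ sz adj := by
    intro v hv
    obtain ⟨l, hl, hvl⟩ := List.mem_flatten.1 hv
    have h1 := sz_mem hl
    have h2 := sz_mem hvl
    omega
  have hfl : adj.flatten.length ≤ sz adj := by
    have : ∀ l : List (List β), l.flatten.length ≤ sz l := by
      intro l
      induction l with
      | nil => simp
      | cons a l ih =>
        have := length_le_sz a
        simp only [List.flatten_cons, List.length_append, sz_cons]
        omega
    exact this adj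
  rw [sz_prod]
  have h1 : sz s.1 ≤ (sz adj + 1) * s.1.length := sz_le_of_forall fun v hv => hmem v (h.mem v hv)
  have h2 : sz s.2 ≤ (2 * sz adj + 2 + 1) * s.2.length := sz_le_of_forall fun q hq => by
    have h3 := (h.edge q hq).1
    have h4 := hmem _ (mem_flatten_of_getD (h.edge q hq).2)
    rw [sz_prod, sz_nat]
    omega
  have h3 := length_prices_le h
  have h4 : s.1.length ≤ sz adj * sz adj := h3.trans (Nat.mul_le_mul hlen hfl)
  have h5 := (length_matching_le h).trans hlen
  have h6 := Nat.mul_le_mul_left (sz adj + 1) h4
  have h7 : (2 * sz adj + 2 + 1) * s.2.length ≤ (2 * sz adj + 3) * sz adj :=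
    Nat.mul_le_mul_left _ h5
  omega

theorem PolyF.auction {adj : α → List (List β)} (ha : PolyF adj) :
    PolyF (fun x => auction (adj x)) := by
  have hn : PolyF (fun x => nBids (adj x)) :=
    (ha.length.natMul ha.flatten.length).succ
  refine natIterate (n := fun x => nBids (adj x)) (f := fun x s => PolyTime.bid (adj x) s)
    (g := fun _ => (([] : List β), ([] : List (ℕ × β)))) hn
    (PolyF.bid.comp ((ha.comp fst').pair snd')) (const _) ?_
  obtain ⟨B, hB⟩ := ha.pbd
  refine ⟨1 + (B + 1) * (B * B) + (2 * B + 3) * B, fun x i _ => ?_⟩
  refine (sz_aucState (aucInv_iterate (adj x) i)).trans ?_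
  have h1 := hB x
  simp only [Polynomial.eval_add, Polynomial.eval_mul, Polynomial.eval_one,
    Polynomial.eval_ofNat]
  gcongr

/-- Existence of a system of distinct representatives is decidable in polynomial time. -/
theorem PolyF.hasSDR {adj : α → List (List β)} [DecidablePred (fun x => HasSDR (adj x))]
    (ha : PolyF adj) : PolyF (fun x => decide (HasSDR (adj x))) :=
  (ha.auction.snd |> fun h => (ha.unmatched h).isNone).congr fun x => by
    rw [Bool.eq_iff_iff, decide_eq_true_iff]
    exact aucOk_iff (adj x)

/-- The matching found by the algorithm, as a list of pairs (left index, right vertex). -/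
def aucMatching (adj : List (List β)) : List (ℕ × β) := (auction adj).2

theorem PolyF.aucMatching {adj : α → List (List β)} (ha : PolyF adj) :
    PolyF (fun x => aucMatching (adj x)) := ha.auction.snd

end

section

variable {β : Type*} [TEnc β] [TInj β] [DecidableEq β]

theorem aucMatching_spec (adj : List (List β)) (h : HasSDR adj) :
    (∀ i < adj.length, ∃ v, (i, v) ∈ aucMatching adj) ∧
    (∀ q ∈ aucMatching adj, q.1 < adj.length ∧ q.2 ∈ adj.getD q.1 []) ∧
    ((aucMatching adj).map Prod.fst).Nodup ∧ ((aucMatching adj).map Prod.snd).Nodup := by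
  have hinv := aucInv_iterate adj (nBids adj)
  have hu : unmatched adj (auction adj).2 = none := by
    have := (aucOk_iff adj).2 h
    unfold aucOk at this
    rwa [Option.isNone_iff_eq_none] at this
  refine ⟨fun i hi => ?_, hinv.edge, hinv.fst_nodup, hinv.snd_nodup⟩
  have h1 : i ∈ (auction adj).2.map Prod.fst := by
    by_contra hcon
    have := List.find?_eq_none.1 hu i (List.mem_range.2 hi)
    simp only [decide_eq_true_eq, not_not] at this
    exact hcon this
  obtain ⟨q, hq, hq1⟩ := List.mem_map.1 h1
  exact ⟨q.2, by rw [← hq1]; exact hq⟩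

end

end Pool.Agent.Lib.PolyTime
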