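import Pool.Agent.Lib.PolyTime.ListOps

/-!
# Polynomial-time functions: equality tests and what follows from them
-/

set_option linter.unusedSimpArgs false
set_option linter.unnecessarySeqFocus false

namespace Pool.Agent.Lib.PolyTime

open Turing Function

section

variable {α β γ δ ε : Type*} [TEnc α] [TEnc β] [TEnc γ] [TEnc δ] [TEnc ε]

theorem sz_perm {l l' : List α} (h : l.Perm l') : sz l = sz l' := by
  rw [sz_eq_sum, sz_eq_sum, h.length_eq, (h.map sz).sum_eq]

theorem PolyF.treeCases {t : α → T} {f : α → γ} {g : α → γ} {h : α × T × T → γ}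
    (ht : PolyF t) (hg : PolyF g) (hh : PolyF h) (h1 : ∀ x, t x = .nil → f x = g x)
    (h2 : ∀ x a b, t x = .node a b → f x = h (x, a, b)) : PolyF f := by
  refine branch ht ?_ ?_
  · exact (hg.restrict _).congr fun x => (h1 x.1 x.2).symm
  · have e1 : PolyF (fun x : {x // enc (t x) ≠ T.nil} => (x.1, (t x.1).left, (t x.1).right)) :=
      ((PolyF.id.pair ((PolyF.left.comp ht).pair (PolyF.right.comp ht))).restrict _)
    refine (hh.comp e1).congr fun x => (h2 x.1 _ _ ?_).symm
    have := x.2
    cases h : t x.1 with
    | nil => exact absurd h this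
    | node a b => simp [T.left, T.right]

/-- One step of the comparison of lists of pairs of trees. -/
def eqStep : List (T × T) × Bool → List (T × T) × Bool
  | ([], b) => ([], b)
  | ((.nil, .nil) :: t, b) => (t, b)
  | ((.node a c, .node a' c') :: t, b) => ((a, a') :: (c, c') :: t, b)
  | ((.nil, .node _ _) :: _, _) => ([], false)
  | ((.node _ _, .nil) :: _, _) => ([], false)

theorem polyF_eqStep : PolyF eqStep := by
  refine PolyF.listCases (l := fun s : List (T × T) × Bool => s.1)
    (g := fun s => s)
    (h := fun q : (List (T × T) × Bool) × (T × T) × List (T × T) =>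
      eqStep (q.2.1 :: q.2.2, q.1.2)) PolyF.fst' PolyF.id ?_ ?_ ?_
  · refine PolyF.treeCases (t := fun q : (List (T × T) × Bool) × (T × T) × List (T × T) => q.2.1.1)
      (g := fun q => match q.2.1.2 with
        | .nil => (q.2.2, q.1.2)
        | .node _ _ => ([], false))
      (h := fun r : ((List (T × T) × Bool) × (T × T) × List (T × T)) × T × T =>
        match r.1.2.1.2 with
        | .nil => ([], false)
        | .node a' c' => ((r.2.1, a') :: (r.2.2, c') :: r.1.2.2, r.1.1.2))
      PolyF.snd'.fst.fst ?_ ?_ ?_ ?_
    · refine PolyF.treeCases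
        (t := fun q : (List (T × T) × Bool) × (T × T) × List (T × T) => q.2.1.2)
        (g := fun q => (q.2.2, q.1.2)) (h := fun _ => ([], false)) PolyF.snd'.fst.snd
        (PolyF.snd'.snd.pair PolyF.fst'.snd) (PolyF.const _) ?_ ?_
      · intro q hq
        simp only [hq]
      · intro q a b hq
        simp only [hq]
    · refine PolyF.treeCases
        (t := fun r : ((List (T × T) × Bool) × (T × T) × List (T × T)) × T × T => r.1.2.1.2)
        (g := fun _ => ([], false))
        (h := fun r => ((r.1.2.1, r.2.1) :: (r.1.2.2, r.2.2) :: r.1.1.2.2, r.1.1.1.2))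
        PolyF.fst'.snd.fst.snd (PolyF.const _)
        (((PolyF.fst'.snd.fst.pair PolyF.snd'.fst).cons
          ((PolyF.fst'.snd.snd.pair PolyF.snd'.snd).cons PolyF.fst'.fst.snd.snd)).pair
          PolyF.fst'.fst.fst.snd) ?_ ?_
      · intro q hq
        simp only [hq]
      · intro q a b hq
        simp only [hq]
    · rintro ⟨s, ⟨a, b⟩, t⟩ hq
      simp only at hq
      subst hq
      cases b <;> rfl
    · rintro ⟨s, ⟨a, b⟩, t⟩ c d hq
      simp only at hq
      subst hq
      cases b <;> rfl
  · rintro ⟨s, b⟩ hs
    simp only at hs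
    subst hs
    rfl
  · rintro ⟨s, b⟩ p t hs
    simp only at hs
    subst hs
    rfl

/-- The comparison state stands for a true equality. -/
def eqOk (s : List (T × T) × Bool) : Prop := s.2 = true ∧ ∀ p ∈ s.1, p.1 = p.2

theorem eqOk_step (s : List (T × T) × Bool) : eqOk (eqStep s) ↔ eqOk s := by
  rcases s with ⟨_ | ⟨⟨_ | ⟨a, c⟩, _ | ⟨a', c'⟩⟩, t⟩, b⟩ <;> simp [eqStep, eqOk, and_assoc]

/-- Termination measure. -/
def eqMeas (s : List (T × T) × Bool) : ℕ := (s.1.map (fun p => 2 * p.1.size + 1)).sum

theorem eqMeas_step (s : List (T × T) × Bool) : eqMeas (eqStep s) ≤ eqMeas s - 1 := by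
  rcases s with ⟨_ | ⟨⟨_ | ⟨a, c⟩, _ | ⟨a', c'⟩⟩, t⟩, b⟩ <;>
    simp only [eqStep, eqMeas, List.map_cons, List.map_nil, List.sum_cons, List.sum_nil,
      T.size_nil, T.size_node] <;> omega

theorem eqSz_step (s : List (T × T) × Bool) : sz (eqStep s).1 ≤ sz s.1 := by
  rcases s with ⟨_ | ⟨⟨_ | ⟨a, c⟩, _ | ⟨a', c'⟩⟩, t⟩, b⟩ <;>
    simp [eqStep, sz_prod, sz_cons] <;> omega

theorem PolyF.eqT : PolyF (fun p : T × T => decide (p.1 = p.2)) := by
  have hok : ∀ (i : ℕ) (s : List (T × T) × Bool), eqOk (eqStep^[i] s) ↔ eqOk s := by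
    intro i
    induction i with
    | zero => intro s; rfl
    | succ i ih => intro s; rw [iterate_succ_apply, ih, eqOk_step]
  have hmeas : ∀ (i : ℕ) (s : List (T × T) × Bool), eqMeas (eqStep^[i] s) ≤ eqMeas s - i := by
    intro i
    induction i with
    | zero => intro s; exact le_rfl
    | succ i ih =>
      intro s
      rw [iterate_succ_apply]
      have h1 := ih (eqStep s)
      have h2 := eqMeas_step s
      omega
  have hsz : ∀ (i : ℕ) (s : List (T × T) × Bool), sz (eqStep^[i] s).1 ≤ sz s.1 := by
    intro i
    induction i with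
    | zero => intro s; exact le_rfl
    | succ i ih => intro s; rw [iterate_succ_apply]; exact (ih _).trans (eqSz_step s)
  refine (iterate (n := fun p : T × T => (p, p)) (f := fun _ s => eqStep s)
    (g := fun p => ([p], true)) (PolyF.id.pair PolyF.id) (polyF_eqStep.comp snd')
    (PolyF.id.singleton.pair (const true)) ?_).snd.congr fun p => ?_
  · refine ⟨Polynomial.X + 3, fun p i _ => ?_⟩
    show sz (eqStep^[i] ([p], true)) ≤ _
    rw [sz_prod]
    have h1 := hsz i ([p], true)
    have h2 := sz_bool_le (eqStep^[i] ([p], true)).2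
    simp only [sz_cons, sz_nil] at h1
    have h3 : Polynomial.eval (sz p) (Polynomial.X + 3 : Polynomial ℕ) = sz p + 3 := by
      simp
    rw [h3]
    omega
  · have h1 := hok (sz (p, p)) ([p], true)
    have h2 := hmeas (sz (p, p)) ([p], true)
    have h3 : eqMeas ([p], true) ≤ sz (p, p) := by
      simp only [eqMeas, List.map_cons, List.map_nil, List.sum_cons, List.sum_nil, sz_prod, sz_T]
      omega
    have h4 : (eqStep^[sz (p, p)] ([p], true)).1 = [] := by
      have : eqMeas (eqStep^[sz (p, p)] ([p], true)) = 0 := by omega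
      unfold eqMeas at this
      rcases h5 : (eqStep^[sz (p, p)] ([p], true)).1 with _ | ⟨q, t⟩
      · rfl
      · rw [h5] at this
        simp at this
    rw [Bool.eq_iff_iff, decide_eq_true_iff]
    have h6 : eqOk (eqStep^[sz (p, p)] ([p], true)) ↔ (eqStep^[sz (p, p)] ([p], true)).2 = true := by
      unfold eqOk
      rw [h4]
      simp
    rw [← h6, h1]
    simp [eqOk]

namespace PolyF

/-- Equality tests. -/
theorem eq [TInj β] {f g : α → β} [DecidablePred (fun x => f x = g x)] (hf : PolyF f)
    (hg : PolyF g) : PolyF (fun x => decide (f x = g x)) :=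
  (eqT.comp (hf.enc_fun.pair hg.enc_fun)).congr fun x => by
    rw [decide_eq_decide]
    exact enc_inj

theorem beq [TInj β] [BEq β] [LawfulBEq β] {f g : α → β} (hf : PolyF f) (hg : PolyF g) :
    PolyF (fun x => f x == g x) := by
  classical
  exact (eq hf hg).congr fun x => by rw [Bool.eq_iff_iff]; simp

theorem eqConst [TInj β] {f : α → β} (b : β) [DecidablePred (fun x => f x = b)] (hf : PolyF f) :
    PolyF (fun x => decide (f x = b)) := hf.eq (const b)

/-- Membership in a list. -/
theorem mem [TInj β] {f : α → β} {l : α → List β} [DecidablePred (fun x => f x ∈ l x)]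
    (hf : PolyF f) (hl : PolyF l) : PolyF (fun x => decide (f x ∈ l x)) := by
  classical
  exact (hl.any (p := fun x b => decide (f x = b)) ((hf.comp fst').eq snd')).congr fun x => by
    rw [Bool.eq_iff_iff]; simp

/-- Functions on finite types. -/
theorem ofFinite [Finite β] [TInj β] (f : β → γ) : PolyF f := by
  classical
  have key : ∀ (l : List β) (c : γ), ∃ g : β → γ, PolyF g ∧ ∀ b ∈ l, g b = f b := by
    intro l c
    induction l with
    | nil => exact ⟨fun _ => c, const c, fun b hb => by simp at hb⟩
    | cons a l ih =>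
      obtain ⟨g, hg, hgl⟩ := ih
      refine ⟨fun b => if b = a then f a else g b, ite (PolyF.id.eq (const a)) (const _) hg,
        fun b hb => ?_⟩
      beta_reduce
      split_ifs with h
      · rw [h]
      · exact hgl b ((List.mem_cons.1 hb).resolve_left h)
  cases nonempty_fintype β
  rcases isEmpty_or_nonempty β with hβ | ⟨⟨b⟩⟩
  · refine ⟨⟨0, fun x => (hβ.false x).elim⟩, fun A z o _ => ⟨.skip, 1, 1, Nat.one_pos, trivial,
      fun x => (hβ.false x).elim⟩⟩
  · obtain ⟨g, hg, h⟩ := key Finset.univ.toList (f b)
    exact hg.congr fun x => h x (by simp)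

/-- Composition with a function on a finite type. -/
theorem finComp [Finite β] [TInj β] {f : α → β} (hf : PolyF f) (g : β → γ) :
    PolyF (fun x => g (f x)) := (ofFinite g).comp hf

theorem lookup [TInj β] [BEq β] [LawfulBEq β] {f : α → β} {l : α → List (β × γ)} (hf : PolyF f)
    (hl : PolyF l) : PolyF (fun x => (l x).lookup (f x)) := by
  refine ((hl.find? (p := fun x b => f x == b.1) ((hf.comp fst').beq snd'.fst)).optionMap
    (h := fun _ p => p.2) snd'.snd).congr fun x => ?_
  induction l x with
  | nil => rfl
  | cons b t ih =>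
    obtain ⟨b, c⟩ := b
    rw [List.find?_cons, List.lookup_cons]
    cases h : f x == b
    · simpa using ih
    · simp

theorem insert [TInj β] [DecidableEq β] {f : α → β} {l : α → List β} (hf : PolyF f)
    (hl : PolyF l) : PolyF (fun x => List.insert (f x) (l x)) :=
  (ite (p := fun x => f x ∈ l x) (hf.mem hl) hl (hf.cons hl)).congr fun x => by
    split_ifs with h <;> simp [h]

theorem dedup [TInj β] [DecidableEq β] {l : α → List β} (hl : PolyF l) :
    PolyF (fun x => (l x).dedup) := by
  refine (foldr_add (i := fun _ => ([] : List β)) (f := fun _ b c => if b ∈ c then c else b :: c)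
    hl (const _) (ite (snd'.fst.mem snd'.snd) snd'.snd (snd'.fst.cons snd'.snd))
    (fun x => sz (l x)) hl.pbd (fun x c b hb => ?_)).congr fun x => ?_
  · have := sz_mem hb
    split_ifs
    · omega
    · simp only [sz_cons]
      omega
  · induction l x with
    | nil => rfl
    | cons b t ih =>
      rw [List.foldr_cons, ih]
      split_ifs with h
      · rw [List.dedup_cons_of_mem (List.mem_dedup.1 h)]
      · rw [List.dedup_cons_of_notMem (fun h' => h (List.mem_dedup.2 h'))]

theorem nodup [TInj β] {l : α → List β} [DecidablePred (fun x => (l x).Nodup)] (hl : PolyF l) :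
    PolyF (fun x => decide (l x).Nodup) := by
  classical
  exact ((dedup hl).eq hl).decide_congr fun x => List.dedup_eq_self

theorem subset [TInj β] {l l' : α → List β} [DecidablePred (fun x => l x ⊆ l' x)] (hl : PolyF l)
    (hl' : PolyF l') : PolyF (fun x => decide (l x ⊆ l' x)) := by
  classical
  exact (hl.forallMem (p := fun x b => b ∈ l' x) (snd'.mem (hl'.comp fst'))).decide_congr
    fun x => Iff.rfl

theorem union [TInj β] [DecidableEq β] {l l' : α → List β} (hl : PolyF l)
    (hl' : PolyF l') : PolyF (fun x => l x ∪ l' x) := by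
  refine (foldr_add (i := l') (f := fun _ b c => List.insert b c)
    hl hl' (snd'.fst.insert snd'.snd) (fun x => sz (l x)) hl.pbd (fun x c b hb => ?_)).congr
    fun x => ?_
  · have := sz_mem hb
    by_cases h : b ∈ c
    · rw [List.insert_of_mem h]
      omega
    · rw [List.insert_of_not_mem h]
      simp only [sz_cons]
      omega
  · rfl

theorem inter [TInj β] [DecidableEq β] {l l' : α → List β} (hl : PolyF l)
    (hl' : PolyF l') : PolyF (fun x => l x ∩ l' x) := by
  refine (hl.filter (p := fun x b => decide (b ∈ l' x)) (snd'.mem (hl'.comp fst'))).congr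
    fun x => ?_
  rw [List.inter_def]
  congr 1
  funext b
  simp

theorem countP {l : α → List β} {p : α → β → Bool} (hl : PolyF l)
    (hp : PolyF (fun q : α × β => p q.1 q.2)) : PolyF (fun x => (l x).countP (p x)) :=
  (hl.filter hp).length.congr fun x => by rw [List.countP_eq_length_filter]

theorem count [TInj β] [BEq β] [LawfulBEq β] {l : α → List β} {f : α → β} (hf : PolyF f)
    (hl : PolyF l) : PolyF (fun x => (l x).count (f x)) :=
  hl.countP (p := fun x b => b == f x) (snd'.beq (hf.comp fst'))

theorem idxOf [TInj β] [BEq β] [LawfulBEq β] {l : α → List β} {f : α → β} (hf : PolyF f)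
    (hl : PolyF l) : PolyF (fun x => (l x).idxOf (f x)) := by
  refine (foldr_add (i := fun _ => 0) (f := fun x b c => bif b == f x then 0 else c + 1)
    hl (const _) (cond (snd'.fst.beq (hf.comp fst')) (const 0) snd'.snd.succ)
    (fun x => 1) (PBd.const 1) (fun x c b hb => ?_)).congr fun x => ?_
  · cases b == f x <;> simp
  · induction l x with
    | nil => rfl
    | cons b t ih =>
      rw [List.foldr_cons, ih, List.idxOf_cons]

theorem erase [TInj β] [DecidableEq β] {l : α → List β} {f : α → β} (hf : PolyF f)
    (hl : PolyF l) : PolyF (fun x => (l x).erase (f x)) := by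
  refine (((hf.idxOf hl).take hl).append ((hf.idxOf hl).succ.drop hl)).congr fun x => ?_
  rw [List.erase_eq_eraseIdx_of_idxOf rfl, List.eraseIdx_eq_take_drop_succ]

theorem contains [TInj β] [BEq β] [LawfulBEq β] {l : α → List β} {f : α → β} (hl : PolyF l)
    (hf : PolyF f) : PolyF (fun x => (l x).contains (f x)) := by
  refine (hl.any (p := fun x b => f x == b) ((hf.comp fst').beq snd')).congr fun x => ?_
  rw [List.contains_eq_any_beq]

/-- Maximum of a list of unary numbers. -/
theorem natMaxList {l : α → List ℕ} (hl : PolyF l) : PolyF (fun x => (l x).foldr max 0) :=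
  foldr_add (i := fun _ => 0) (f := fun _ b c => max b c) hl (const _)
    (snd'.fst.natMax snd'.snd) (fun x => sz (l x)) hl.pbd fun x c b hb => by
      have := sz_mem hb
      simp only [sz_nat] at *
      omega

theorem takeWhile {l : α → List β} {p : α → β → Bool} (hl : PolyF l)
    (hp : PolyF (fun q : α × β => p q.1 q.2)) : PolyF (fun x => (l x).takeWhile (p x)) := by
  refine (foldr_add (i := fun _ => ([] : List β))
    (f := fun x b c => if p x b = true then b :: c else [])
    hl (const _) (iteBool (hp.comp (fst'.pair snd'.fst)) (snd'.fst.cons snd'.snd) (const _))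
    (fun x => sz (l x)) hl.pbd (fun x c b hb => ?_)).congr fun x => ?_
  · have := sz_mem hb
    split_ifs
    · simp only [sz_cons]
      omega
    · simp
  · induction l x with
    | nil => rfl
    | cons b t ih =>
      rw [List.foldr_cons, ih, List.takeWhile_cons]

theorem dropWhile {l : α → List β} {p : α → β → Bool} (hl : PolyF l)
    (hp : PolyF (fun q : α × β => p q.1 q.2)) : PolyF (fun x => (l x).dropWhile (p x)) :=
  ((hl.takeWhile hp).length.drop hl).congr fun x => by
    have h : ∀ m : List β, m = (l x).takeWhile (p x) ++ (l x).dropWhile (p x) →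
        m.drop ((l x).takeWhile (p x)).length = (l x).dropWhile (p x) := by
      rintro _ rfl
      exact List.drop_left
    exact h _ List.takeWhile_append_dropWhile.symm

theorem orderedInsert {r : β → β → Prop} [DecidableRel r] {l : α → List β} {f : α → β}
    (hr : PolyF (fun p : β × β => decide (r p.1 p.2))) (hf : PolyF f) (hl : PolyF l) :
    PolyF (fun x => (l x).orderedInsert r (f x)) := by
  refine ((hl.takeWhile (p := fun x b => decide (¬ r (f x) b))
    (hr.comp ((hf.comp fst').pair snd')).decide_not).append
    (hf.cons (hl.dropWhile (p := fun x b => decide (¬ r (f x) b))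
    (hr.comp ((hf.comp fst').pair snd')).decide_not))).congr fun x => ?_
  rw [List.orderedInsert_eq_take_drop]

theorem insertionSort {r : β → β → Prop} [DecidableRel r] {l : α → List β}
    (hr : PolyF (fun p : β × β => decide (r p.1 p.2))) (hl : PolyF l) :
    PolyF (fun x => (l x).insertionSort r) :=
  foldr_add (i := fun _ => ([] : List β)) (f := fun _ b c => c.orderedInsert r b) hl (const _)
    (orderedInsert hr snd'.fst snd'.snd) (fun x => sz (l x)) hl.pbd fun x c b hb => by
      have := sz_mem hb
      rw [sz_perm (List.perm_orderedInsert r b c)]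
      simp only [sz_cons]
      omega

end PolyF

end

end Pool.Agent.Lib.PolyTime
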