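import Pool.Agent.Lib.PolyTime.Pad

/-!
# Loops that write an output list

`InTimeL S N f` : as `InTime S N f`, but the output may have size `Q (S x) * (N x + 1)`.

* `InTimeL.emit`     : the loop of `InTime.while` which writes `emit (step^[i] (init x))` for
  `i = 0, 1, ..., N x`;
* `InTimeL.tm2_word` : bridge to Mathlib's machines;
* `quasi_emit_word`  : quasi-polynomial version.
-/

set_option linter.unusedSimpArgs false

namespace Pool.Agent.Lib.PolyTime

open Turing Function

/-- Functions computable in time `P (S x) * (N x + 1)` with output of size at most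
`Q (S x) * (N x + 1)`. -/
def InTimeL {α β : Type*} [TEnc α] [TEnc β] (S N : α → ℕ) (f : α → β) : Prop :=
  (∃ Q : Polynomial ℕ, ∀ x, sz (f x) ≤ Q.eval (S x) * (N x + 1)) ∧
    ∀ (A : Type) (z o : A), z ≠ o → ∃ (p : Prog A) (k : ℕ) (P : Polynomial ℕ),
      ComputesT z o p k (fun x => P.eval (S x) * (N x + 1)) f

theorem InTime.toL {α β : Type*} [TEnc α] [TEnc β] {S N : α → ℕ} {f : α → β}
    (h : InTime S N f) : InTimeL S N f := by
  obtain ⟨⟨Q, hQ⟩, h⟩ := h
  exact ⟨⟨Q, fun x => (hQ x).trans (Nat.le_mul_of_pos_right _ (Nat.succ_pos _))⟩, h⟩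

section Emit

variable {α β σ : Type*} [TEnc α] [TEnc β] [TEnc σ]

/-- The list of outputs `emit (step^[i] x)`, `i = 0, ..., n`. -/
def emits (emit : σ → β) (step : σ → σ) (n : ℕ) (x : σ) : List β :=
  (List.range (n + 1)).map (fun i => emit (step^[i] x))

omit [TEnc β] [TEnc σ] in
theorem emits_zero (emit : σ → β) (step : σ → σ) (x : σ) : emits emit step 0 x = [emit x] := by
  simp [emits]

omit [TEnc β] [TEnc σ] in
theorem emits_succ (emit : σ → β) (step : σ → σ) (n : ℕ) (x : σ) :
    emits emit step (n + 1) x = emit x :: emits emit step n (step x) := by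
  simp [emits, List.range_succ_eq_map, Function.comp_def]

theorem wd_list {A : Type} (z o : A) (l : List β) :
    wd z o l = l.flatMap (fun b => o :: wd z o b) ++ [z] := by
  induction l with
  | nil => simp [wd, T.word]
  | cons a l ih =>
    simp only [List.flatMap_cons, List.append_assoc, ← ih]
    simp [wd, T.word]

/-- Write the value computed by `pe` on the output register. -/
def emitPart {A : Type} (o : A) (K : ℕ) (pe : Prog A) : Prog A :=
  .seq (.push (K + 3) o) <| .seq (save 0 (K + 1) (K + 2)) <| .seq pe <|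
    .seq (moveRev 0 (K + 3)) (moveRev (K + 1) 0)

theorem below_emitPart {A : Type} {o : A} {K : ℕ} {pe : Prog A} {N : ℕ} (hK : K + 3 < N)
    (he : Below pe N) : Below (emitPart o K pe) N :=
  ⟨hK, below_save (by omega) (by omega) (by omega), he, below_moveRev (by omega) hK,
    below_moveRev (by omega) (by omega)⟩

theorem run_emitPart {A : Type} {z o : A} {pe : Prog A} {ke K : ℕ} {te : σ → ℕ}
    {emit : σ → β} (he : ComputesT z o pe ke te emit) (hK : 0 < K) (hke : ke ≤ K)
    (x : σ) (s : St A) (h0 : s 0 = wd z o x) (h2 : s (K + 1) = [])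
    (h3 : s (K + 2) = []) (h4 : ∀ i, 0 < i → i < K → s i = []) :
    Run (emitPart o K pe) s
      (update s (K + 3) ((o :: wd z o (emit x)).reverse ++ s (K + 3)))
      (te x + 40 * (sz x + 1) + 6 * sz (emit x)) := by
  have n1 : K + 1 ≠ 0 := by omega
  have n2 : K + 2 ≠ 0 := by omega
  have n3 : K + 3 ≠ 0 := by omega
  have n4 : K + 1 ≠ K + 2 := by omega
  have n5 : K + 1 ≠ K + 3 := by omega
  have n6 : K + 2 ≠ K + 3 := by omega
  let s1 := update s (K + 3) (o :: s (K + 3))
  let s2 := update s1 (K + 1) (wd z o x).reverse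
  let s3 := update s2 0 (wd z o (emit x))
  let s4 := update (update s3 0 []) (K + 3) ((wd z o (emit x)).reverse ++ (o :: s (K + 3)))
  let s5 := update (update s4 (K + 1) []) 0 (wd z o x)
  have r1 : Run (.push (K + 3) o) s s1 1 := Run.push _ _ _
  have r2 : Run (save 0 (K + 1) (K + 2)) s1 s2 (7 * (2 * sz x + 1) + 2) := by
    refine (run_save n1.symm n2.symm n4 s1 ?_).cast ?_ ?_
    · simp [s1, n6, h3]
    · simp [s2, s1, n5, n3.symm, h0, h2]
    · simp [s1, n3.symm, h0]
  have r3 : Run pe s2 s3 (te x) := by
    refine he.2.2 x s2 ?_ ?_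
    · simp [s2, s1, n1.symm, n3.symm, h0]
    · intro i hi hi'
      simp only [s2, s1]
      rw [update_of_ne (by omega), update_of_ne (by omega)]
      exact h4 i hi (by omega)
  have r4 : Run (moveRev 0 (K + 3)) s3 s4 (3 * (2 * sz (emit x) + 1) + 1) := by
    refine (run_moveRev n3.symm (wd z o (emit x)) s3 ?_).cast ?_ ?_
    · simp [s3]
    · simp [s4, s3, s2, s1, n3, n5.symm]
    · simp
  have r5 : Run (moveRev (K + 1) 0) s4 s5 (3 * (2 * sz x + 1) + 1) := by
    refine (run_moveRev n1 (wd z o x).reverse s4 ?_).cast ?_ ?_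
    · simp [s4, s3, s2, s1, n1, n5]
    · simp [s5, s4, s3, s2, s1, n1, n5, n3.symm]
    · simp
  refine (r1.seq (r2.seq (r3.seq (r4.seq r5)))).cast ?_ (by omega)
  simp only [s5, s4, s3, s2, s1]
  funext i
  simp only [update_apply]
  split_ifs <;> simp_all

/-- The body of the emitting loop. -/
noncomputable def emitBody {A : Type} (o : A) (K : ℕ) (pe ph ps : Prog A) : Prog A :=
  .seq (emitPart o K pe) (whileBody o K ph ps)

theorem run_emit {A : Type} {z o : A} (hzo : z ≠ o) {pe ph ps : Prog A} {ke kh ks K : ℕ}
    {te th ts : σ → ℕ} {emit : σ → β} {halt : σ → Bool} {step : σ → σ}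
    (he : ComputesT z o pe ke te emit) (hh : ComputesT z o ph kh th halt)
    (hs : ComputesT z o ps ks ts step) (hK : 0 < K) (hke : ke ≤ K) (hkh : kh ≤ K) (hks : ks ≤ K)
    (B n : ℕ) :
    ∀ (x : σ) (s : St A) (a : A), s 0 = wd z o x → s K = [a] → s (K + 1) = [] →
      s (K + 2) = [] → (∀ i, 0 < i → i < K → s i = []) →
      (∀ i < n, halt (step^[i] x) = false) → halt (step^[n] x) = true →
      (∀ i ≤ n, te (step^[i] x) + th (step^[i] x) + ts (step^[i] x) +
        80 * (sz (step^[i] x) + 1) + 6 * sz (emit (step^[i] x)) ≤ B) →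
      Run (.whl K (emitBody o K pe ph ps)) s
        (update (update (update s K []) 0 (wd z o (step^[n] x))) (K + 3)
          (((emits emit step n x).flatMap (fun b => o :: wd z o b)).reverse ++ s (K + 3)))
        ((B + 1) * (n + 1) + 1) := by
  have n0 : K ≠ 0 := by omega
  have n3 : K + 3 ≠ 0 := by omega
  have n4 : K + 3 ≠ K := by omega
  induction n with
  | zero =>
    intro x s a h0 h1 h2 h3 h4 hlt heq hB
    have hx : halt x = true := heq
    have hBx := hB 0 le_rfl
    simp only [iterate_zero, id_eq] at hBx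
    have re := run_emitPart he hK hke x s h0 h2 h3 h4
    let s1 := update s (K + 3) ((o :: wd z o (emit x)).reverse ++ s (K + 3))
    have r := (run_whileBody hzo hh hs hK hkh hks x s1 a (by simp [s1, n3.symm, h0])
      (by simp [s1, n4.symm, h1]) (by simp [s1, h2]) (by simp [s1, h3])
      (fun i hi hi' => by simp only [s1]; rw [update_of_ne (by omega)]; exact h4 i hi hi')).1 hx
    refine (Run.whl_step (by simp [h1]) (re.seq r) (Run.whl_done (by simp))).cast ?_ (by omega)
    simp only [iterate_zero, id_eq, emits_zero, s1]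
    funext i
    simp only [update_apply]
    split_ifs <;> simp_all
  | succ n ih =>
    intro x s a h0 h1 h2 h3 h4 hlt heq hB
    have hx : halt x = false := hlt 0 (by omega)
    have hBx := hB 0 (by omega)
    simp only [iterate_zero, id_eq] at hBx
    have re := run_emitPart he hK hke x s h0 h2 h3 h4
    let s1 := update s (K + 3) ((o :: wd z o (emit x)).reverse ++ s (K + 3))
    have r := (run_whileBody hzo hh hs hK hkh hks x s1 a (by simp [s1, n3.symm, h0])
      (by simp [s1, n4.symm, h1]) (by simp [s1, h2]) (by simp [s1, h3])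
      (fun i hi hi' => by simp only [s1]; rw [update_of_ne (by omega)]; exact h4 i hi hi')).2 hx
    have r' := ih (step x) (update (update s1 0 (wd z o (step x))) K [o]) o
      (by simp [n0.symm]) (by simp) (by simp [s1, h2]) (by simp [s1, h3])
      (fun i hi hi' => by
        simp only [s1]
        rw [update_of_ne (by omega), update_of_ne (by omega), update_of_ne (by omega)]
        exact h4 i hi hi')
      (fun i hi => by rw [← iterate_succ_apply]; exact hlt (i + 1) (by omega))
      (by rw [← iterate_succ_apply]; exact heq)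
      (fun i hi => by rw [← iterate_succ_apply]; exact hB (i + 1) (by omega))
    refine (Run.whl_step (by simp [h1]) (re.seq r) r').cast ?_ ?_
    · rw [← iterate_succ_apply, emits_succ]
      simp only [s1]
      funext i
      simp only [update_apply]
      split_ifs <;> simp_all
    · have e : (B + 1) * (n + 1 + 1) = (B + 1) * (n + 1) + (B + 1) := by ring
      omega

open Polynomial in
/-- **Loops with output.** -/
theorem InTimeL.emit {init : α → σ} {step : σ → σ} {halt : σ → Bool} {emit : σ → β}
    {S N : α → ℕ} (hi : PolyF init) (hs : PolyF step) (hh : PolyF halt) (he : PolyF emit)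
    (hsz : ∀ x, sz x ≤ S x)
    (h1 : ∀ x, ∀ i < N x, halt (step^[i] (init x)) = false)
    (h2 : ∀ x, halt (step^[N x] (init x)) = true)
    (h3 : ∀ x, ∀ i ≤ N x, sz (step^[i] (init x)) ≤ S x) :
    InTimeL S N (fun x => emits emit step (N x) (init x)) := by
  obtain ⟨⟨Qe, hQe⟩, he'⟩ := he
  have hlist : ∀ x, sz (emits emit step (N x) (init x)) ≤ (Qe.eval (S x) + 1) * (N x + 1) := by
    intro x
    have h := sz_le_of_forall (l := emits emit step (N x) (init x)) (M := Qe.eval (S x))
      (fun b hb => by
        obtain ⟨i, hi, rfl⟩ := List.mem_map.1 hb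
        have hi' := h3 x i (by have := List.mem_range.1 hi; omega)
        exact (hQe _).trans (peval_mono _ hi'))
    have hl : (emits emit step (N x) (init x)).length = N x + 1 := by simp [emits]
    rw [hl] at h
    refine h.trans (le_of_eq ?_)
    ring
  refine ⟨⟨Qe + 1, fun x => by simpa using hlist x⟩, fun A z o hzo => ?_⟩
  obtain ⟨pi, ki, Pi, hki, hbi, hri⟩ := hi.2 A z o hzo
  obtain ⟨ps, ks, Ps, hps⟩ := hs.2 A z o hzo
  obtain ⟨ph, kh, Ph, hph⟩ := hh.2 A z o hzo
  obtain ⟨pe, ke, Pe, hpe⟩ := he' A z o hzo
  obtain ⟨K, hK⟩ : ∃ K, K = max (max (max ki ks) kh) ke := ⟨_, rfl⟩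
  have hK0 : 0 < K := by omega
  have n0 : K ≠ 0 := by omega
  have n3 : K + 3 ≠ 0 := by omega
  have n4 : K + 3 ≠ K := by omega
  refine ⟨.seq pi (.seq (.push K o) (.seq (.whl K (emitBody o K pe ph ps))
    (.seq (.push (K + 3) z) (.seq (clear 0) (moveRev (K + 3) 0))))), K + 4,
    Pi + Ps + Ph + Pe + C 200 * (1 + X + Qe), by omega,
    ⟨hbi.mono (by omega), by show K < K + 4; omega,
      ⟨by omega, below_emitPart (by omega) (hpe.2.1.mono (by omega)),
        below_whileBody (by omega) (hph.2.1.mono (by omega)) (hps.2.1.mono (by omega))⟩,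
      by show K + 3 < K + 4; omega, below_clear (by omega),
      below_moveRev (by omega) (by omega)⟩,
    fun x s h hs' => ?_⟩
  let W := (emits emit step (N x) (init x)).flatMap (fun b => o :: wd z o b)
  let s1 := update s 0 (wd z o (init x))
  let s2 := update s1 K [o]
  let s3 := update (update (update s2 K []) 0 (wd z o (step^[N x] (init x)))) (K + 3)
    (W.reverse ++ s2 (K + 3))
  let s4 := update s3 (K + 3) (z :: (W.reverse ++ s2 (K + 3)))
  let s5 := update s4 0 []
  have hsK3 : s2 (K + 3) = [] := by
    simp only [s2, s1]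
    rw [update_of_ne (by omega), update_of_ne (by omega)]
    exact hs' _ (by omega) (by omega)
  have r1 : Run pi s s1 (Pi.eval (sz x)) := hri x s h (fun i hi hi' => hs' i hi (by omega))
  have r2 : Run (.push K o) s1 s2 1 := by
    refine (Run.push K o s1).cast ?_ le_rfl
    simp only [s1, s2]
    rw [update_of_ne n0, hs' K (by omega) (by omega)]
  have r3 := run_emit hzo hpe.computesT hph.computesT hps.computesT hK0 (by omega) (by omega)
    (by omega) (Pe.eval (S x) + Ph.eval (S x) + Ps.eval (S x) + 80 * (S x + 1) +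
      6 * Qe.eval (S x)) (N x) (init x) s2 o
    (by simp [s2, s1, n0.symm]) (by simp [s2])
    (by simp only [s2, s1]; rw [update_of_ne (by omega), update_of_ne (by omega)]
        exact hs' _ (by omega) (by omega))
    (by simp only [s2, s1]; rw [update_of_ne (by omega), update_of_ne (by omega)]
        exact hs' _ (by omega) (by omega))
    (fun i hi hi' => by
      simp only [s2, s1]; rw [update_of_ne (by omega), update_of_ne (by omega)]
      exact hs' _ (by omega) (by omega))
    (h1 x) (h2 x) (fun i hi => by
      have e := h3 x i hi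
      have e1 := peval_mono Ph e
      have e2 := peval_mono Ps e
      have e3 := peval_mono Pe e
      have e4 := (hQe (step^[i] (init x))).trans (peval_mono Qe e)
      omega)
  have r4 : Run (.push (K + 3) z) s3 s4 1 := by
    refine (Run.push (K + 3) z s3).cast ?_ le_rfl
    simp [s4, s3]
  have r5 : Run (clear 0) s4 s5 (3 * (wd z o (step^[N x] (init x))).length + 1) :=
    run_clear _ _ (by simp [s4, s3, n3.symm])
  have r6 := run_moveRev n3 (z :: (W.reverse ++ s2 (K + 3))) s5 (by simp [s5, s4, n3])
  refine (r1.seq (r2.seq (r3.seq (r4.seq (r5.seq r6))))).cast ?_ ?_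
  · have hW : (z :: (W.reverse ++ s2 (K + 3))).reverse ++ s5 0 =
        wd z o (emits emit step (N x) (init x)) := by
      rw [hsK3, wd_list]
      simp [s5, W]
    have hsK : s K = [] := hs' K (by omega) (by omega)
    have hsK3' : s (K + 3) = [] := hs' (K + 3) (by omega) (by omega)
    rw [hW]
    funext i
    by_cases i0 : i = 0
    · subst i0; rw [update_self, update_self]
    rw [update_of_ne i0, update_of_ne i0]
    by_cases i1 : i = K + 3
    · subst i1; rw [update_self, hsK3']
    rw [update_of_ne i1]
    simp only [s5, s4, s3]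
    rw [update_of_ne i0, update_of_ne i1, update_of_ne i1, update_of_ne i0]
    by_cases i2 : i = K
    · subst i2; rw [update_self, hsK]
    simp only [s2, s1]
    rw [update_of_ne i2, update_of_ne i2, update_of_ne i0]
  · have hWl : (z :: (W.reverse ++ s2 (K + 3))).length =
        2 * sz (emits emit step (N x) (init x)) + 1 := by
      rw [hsK3, ← length_wd z o, wd_list]
      simp [W]
    rw [hWl]
    have hl := hlist x
    have h3' := h3 x (N x) le_rfl
    simp only [eval_add, eval_mul, eval_C, eval_X, eval_one, length_wd]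
    have e := peval_mono Pi (hsz x)
    have e' : Pi.eval (S x) ≤ Pi.eval (S x) * (N x + 1) := Nat.le_mul_of_pos_right _ (by omega)
    have e'' : S x ≤ S x * (N x + 1) := Nat.le_mul_of_pos_right _ (by omega)
    have e2 : (Pe.eval (S x) + Ph.eval (S x) + Ps.eval (S x) + 80 * (S x + 1) +
        6 * Qe.eval (S x) + 1) * (N x + 1) = Pe.eval (S x) * (N x + 1) +
      Ph.eval (S x) * (N x + 1) + Ps.eval (S x) * (N x + 1) + 80 * (S x * (N x + 1)) +
        81 * (N x + 1) + 6 * (Qe.eval (S x) * (N x + 1)) := by ring
    have e3 : (Pi.eval (S x) + Ps.eval (S x) + Ph.eval (S x) + Pe.eval (S x) +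
        200 * (1 + S x + Qe.eval (S x))) * (N x + 1) =
      Pi.eval (S x) * (N x + 1) + Ps.eval (S x) * (N x + 1) + Ph.eval (S x) * (N x + 1) +
        Pe.eval (S x) * (N x + 1) + 200 * (N x + 1) + 200 * (S x * (N x + 1)) +
        200 * (Qe.eval (S x) * (N x + 1)) := by ring
    have e4 : (Qe.eval (S x) + 1) * (N x + 1) = Qe.eval (S x) * (N x + 1) + (N x + 1) := by ring
    rw [e4] at hl
    rw [e2, e3]
    omega

end Emit

/-! ### Machines with long outputs -/

section Bridge

variable {I O : Type}

/-- Output conversion in linear time. -/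
def OutLin {β' : Type*} [TEnc β'] (I : Type) (w : β' → List O) : Prop :=
  ∃ c : ℕ, (∀ b, (w b).length ≤ c * (sz b + 1)) ∧
  ∃ (p : Prog (Al I O)) (k : ℕ), Below p k ∧ ∀ b,
    Run p (update (fun _ => []) 0 (wd (.inl false) (.inl true) b))
      (update (fun _ => []) 2 ((w b).reverse.map (fun a => .inr (.inr a)))) (c * (sz b + 1))

/-- The output word is the word of the tree. -/
theorem OutLin.word {β' : Type*} [TEnc β'] (I : Type) :
    OutLin I (fun b : β' => wd false true b) := by
  refine ⟨6, fun b => by rw [length_wd]; omega, moveMap 0 2 (outMap I), 3,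
    below_moveMap _ (by omega) (by omega), fun b => ?_⟩
  refine (run_moveMap (by omega) (outMap I) _ _ (update_self _ _ _)).cast ?_ (by simp; omega)
  have e : (wd (.inl false) (.inl true) b).map (outMap I) =
      (wd false true b).map (fun a => (.inr (.inr a) : Al I Bool)) := by
    unfold wd
    rw [map_word, map_word]
    rfl
  rw [e]
  funext i
  simp only [update_apply]
  split_ifs <;> simp_all

theorem OutLin.list [Finite O] [DecidableEq O] {β' : Type*} [TEnc β'] (I : Type)
    (w : β' → List O) (L : List O) (hL : ∀ b, b ∈ L)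
    (h : ∀ b, enc b = T.ofList (fun b => T.unary (L.idxOf b)) (w b)) : OutLin I w := by
  have hlen : ∀ b, (w b).length ≤ sz b := fun b => by
    unfold sz
    rw [h]
    exact T.length_le_size_ofList _ _
  refine ⟨2 * L.length + 4, fun b => ?_, outConv I L, 3, below_outConv L, fun b => ?_⟩
  · have := hlen b
    nlinarith
  refine (run_outConv (I := I) L hL (w b) _ (by unfold wd; rw [update_self, h])).cast ?_ ?_
  · funext i
    simp only [update_apply]
    split_ifs <;> simp_all
  · have := Nat.mul_le_mul_left (2 * L.length + 4) (hlen b)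
    have e : (2 * L.length + 4) * (sz b + 1) = (2 * L.length + 4) * sz b + (2 * L.length + 4) := by
      ring
    omega

open Polynomial in
/-- From a program with long output to a machine. -/
theorem tm2_timeL_core [Finite I] [Finite O] {α β : Type} {α' β' : Type*} [TEnc α'] [TEnc β']
    {ea : α → List I} {eb : β → List O} {f : α → β} {i : α → α'} {w : β' → List O} {F : α' → β'}
    {S N : α' → ℕ} (hin : InOK O ea i) (hF : InTimeL S N F) (hout : OutLin I w)
    (h : ∀ a, w (F (i a)) = eb (f a)) (S' N' : ℕ → ℕ) (hL : ∀ L, L ≤ S' L)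
    (hS : ∀ a, S (i a) ≤ S' (ea a).length) (hN : ∀ a, N (i a) ≤ N' (ea a).length) :
    ∃ (P : Polynomial ℕ) (M : TM2ComputableInTime ea eb f),
      M.time = fun L => P.eval (S' L) * (N' L + 1) := by
  cases nonempty_fintype I
  cases nonempty_fintype O
  obtain ⟨⟨Qi, hQi⟩, pi, ki, Pi, hbi, hri⟩ := hin
  obtain ⟨c, hQo, po, ko, hbo, hro⟩ := hout
  obtain ⟨⟨Q, hQ⟩, hF⟩ := hF
  obtain ⟨pF, kF, PF, hkF, hbF, hrF⟩ := hF (Al I O) (.inl false) (.inl true) (by simp)
  obtain ⟨R, hR⟩ : ∃ R, R = max (max (max ki ko) kF) 3 := ⟨_, rfl⟩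
  have : NeZero R := ⟨by omega⟩
  let p : Prog (Al I O) := .seq pi (.seq pF po)
  have hp : Below p R := ⟨hbi.mono (by omega), hbF.mono (by omega), hbo.mono (by omega)⟩
  let PP : Polynomial ℕ := C 10 * (1 + X + Pi + PF + C c * (Q + 1))
  refine ⟨PP, ⟨⟨finalTM R p, Equiv.refl _, Equiv.refl _⟩,
    fun L => PP.eval (S' L) * (N' L + 1), fun a => ?_⟩, rfl⟩
  have key : ∃ n ≤ PP.eval (S' (ea a).length) * (N' (ea a).length + 1),
      Steps (finalCode R p) n (initList (finalTM R p) (ea a))
        (haltList (finalTM R p) (eb (f a))) := by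
    have hrun : Run p (update (fun _ => []) 1 ((ea a).map (fun a => .inr (.inl a))).reverse)
        (update (fun _ => []) 2 ((eb (f a)).reverse.map (fun a => .inr (.inr a))))
        (Pi.eval (ea a).length + (PF.eval (S (i a)) * (N (i a) + 1) +
          c * (sz (F (i a)) + 1))) := by
      have r2 := hrF (i a) (update (fun _ => []) 0 (wd (.inl false) (.inl true) (i a)))
        (update_self _ _ _) (fun j hj _ => by rw [update_of_ne hj.ne'])
      rw [update_idem] at r2
      have r3 := hro (F (i a))
      rw [h a] at r3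
      exact (hri a).seq (r2.seq r3)
    obtain ⟨v1, S1, a1, a2, a3, a4⟩ := steps_pro (N := R) (by omega) p (ea a) (none, none)
      (initList (finalTM R p) (ea a)).stk (fun _ => []) rfl (fun i => rfl)
    obtain ⟨t, ht, hexec⟩ := hrun
    have a2' : S1 .out = ([] : List O) := a2.trans rfl
    obtain ⟨v2, S2, b1, b2, b3, b4, b5⟩ := exec_sim (I := I) (O := O) (N := R) hexec
      hp (finalCode R p) (fun l => .inr (.inl l))
      (.inr (.inr (some none))) (fun l => rfl) v1 S1 (by simpa using a3)
    obtain ⟨v3, S3, c1, c2, c3, c4⟩ := steps_epi (N := R) (by omega)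
      p (eb (f a)).reverse v2 S2 _ [] (b4.trans a2') b1 (by simp)
    refine ⟨(2 * (ea a).length + 1) + (t + ((2 * (eb (f a)).reverse.length + 1) + 1)), ?_,
      a4.trans (b5.trans (c4.trans (Steps.one ?_)))⟩
    · simp only [PP, eval_add, eval_one, eval_mul, eval_X, eval_C, List.length_reverse]
      obtain ⟨s, hs⟩ : ∃ s, s = S' (ea a).length := ⟨_, rfl⟩
      obtain ⟨m, hm⟩ : ∃ m, m = N' (ea a).length + 1 := ⟨_, rfl⟩
      have e0 := hL (ea a).length
      have e1 := hS a
      have e8 : N (i a) + 1 ≤ m := by have := hN a; omega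
      rw [← hs] at e0 e1 ⊢
      rw [← hm]
      have e2 := (hQ (i a)).trans (Nat.mul_le_mul (peval_mono Q e1) e8)
      have e3 := hQo (F (i a))
      rw [h a] at e3
      have e5 := Nat.mul_le_mul (peval_mono PF e1) e8
      have e7 := peval_mono Pi e0
      have m1 : 1 ≤ m := by omega
      have e9 : c * (sz (F (i a)) + 1) ≤ c * (Q.eval s * m + m) :=
        Nat.mul_le_mul_left _ (by omega)
      have e10 : Pi.eval s ≤ Pi.eval s * m := Nat.le_mul_of_pos_right _ (by omega)
      have e11 : s ≤ s * m := Nat.le_mul_of_pos_right _ (by omega)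
      have e12 : 10 * (1 + s + Pi.eval s + PF.eval s + c * (Q.eval s + 1)) * m =
        10 * m + 10 * (s * m) + 10 * (Pi.eval s * m) + 10 * (PF.eval s * m) +
          10 * (c * (Q.eval s * m + m)) := by ring
      rw [e12]
      omega
    · have e0 : S3 = (haltList (finalTM R p) (eb (f a))).stk := by
        funext r
        cases r with
        | inp => exact (c1.trans (b3.trans a1)).trans rfl
        | out =>
          refine c2.trans ?_
          rw [List.reverse_reverse, List.append_nil]
          rfl
        | reg i =>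
          refine (c3 i).trans ?_
          rw [update_idem]
          have : update (fun _ => []) 2 ([] : List (Al I O)) = fun _ => [] := by
            funext j
            simp only [update_apply]
            split_ifs <;> rfl
          rw [this]
          rfl
      have e1 : TM2.step (finalCode R p) ⟨some (.inr (.inr none)), v3, S3⟩
          = some ⟨none, (none, none), S3⟩ := rfl
      rw [e1, e0]
      rfl
  obtain ⟨n, hn, hs⟩ := Classical.indefiniteDescription _ key
  have e1 : List.map (Equiv.refl I).invFun (ea a) = ea a := List.map_id _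
  have e2 : List.map (Equiv.refl O).invFun (eb (f a)) = eb (f a) := List.map_id _
  refine ⟨⟨n, ?_⟩, hn⟩
  have e3 : ∀ (u : List I) (w : List O), u = ea a → w = eb (f a) →
    (flip bind (finalTM R p).step)^[n] (some (initList (finalTM R p) u)) =
      Option.map (haltList (finalTM R p)) (some w) := by
    rintro _ _ rfl rfl
    exact hs
  exact e3 _ _ e1 e2

/-- Functions with long outputs, inputs and outputs written as words of trees. -/
theorem InTimeL.tm2_word {α β : Type} [TEnc α] [TEnc β] {f : α → β} {S N : α → ℕ}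
    (hf : InTimeL S N f) (S' N' : ℕ → ℕ) (hL : ∀ L, L ≤ S' L)
    (hS : ∀ a, S a ≤ S' (wd false true a).length) (hN : ∀ a, N a ≤ N' (wd false true a).length) :
    ∃ (P : Polynomial ℕ) (M : TM2ComputableInTime (fun a : α => wd false true a)
      (fun b : β => wd false true b) f), M.time = fun L => P.eval (S' L) * (N' L + 1) :=
  tm2_timeL_core (InOK.word Bool _ (fun a => a) (fun _ => rfl)) hf (OutLin.word Bool)
    (fun _ => rfl) S' N' hL hS hN

/-- **Emitting loops as machines, polynomial time per round.** The input is written as the word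
of its tree, the output is the word of the list of all the values `emit (step^[i] (init x))`,
`i ≤ N x`. The states have polynomial size, the number of rounds is bounded by `N'`; then the
machine needs time `P L * (N' L + 1)`. -/
theorem emit_tm2_word {α β : Type} {σ : Type*} [TEnc α] [TEnc β] [TEnc σ] {f : α → List β}
    {init : α → σ} {step : σ → σ} {halt : σ → Bool} {emit : σ → β}
    (hinit : PolyF init) (hstep : PolyF step) (hhalt : PolyF halt) (hemit : PolyF emit)
    (N : α → ℕ) (h1 : ∀ x, ∀ j < N x, halt (step^[j] (init x)) = false)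
    (h2 : ∀ x, halt (step^[N x] (init x)) = true)
    (h : ∀ a, (List.range (N a + 1)).map (fun i => emit (step^[i] (init a))) = f a)
    (Q : Polynomial ℕ) (hS : ∀ x, ∀ j ≤ N x, sz (step^[j] (init x)) ≤ Q.eval (sz x))
    (N' : ℕ → ℕ) (hNm : Monotone N') (hN : ∀ x, N x ≤ N' (sz x)) :
    ∃ (P : Polynomial ℕ) (M : TM2ComputableInTime (fun a : α => wd false true a)
      (fun b : List β => wd false true b) f), M.time = fun L => P.eval L * (N' L + 1) := by
  have hf : (fun x => emits emit step (N x) (init x)) = f := funext h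
  have hE := InTimeL.emit (S := fun x => (Polynomial.X + Q).eval (sz x)) (N := N)
    hinit hstep hhalt hemit (fun x => by simp) h1 h2
    (fun x j hj => (hS x j hj).trans (by simp))
  rw [hf] at hE
  have hlen : ∀ a : α, sz a ≤ (wd false true a).length := fun a => by
    rw [length_wd]; omega
  obtain ⟨P, M, hM⟩ := hE.tm2_word (fun L => (Polynomial.X + Q).eval L) N'
    (fun L => by simp) (fun a => peval_mono _ (hlen a)) (fun a => (hN a).trans (hNm (hlen a)))
  exact ⟨P.comp (Polynomial.X + Q), M, by rw [hM]; funext L; rw [Polynomial.eval_comp]⟩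

/-- **Emitting loops as machines, quasi-polynomial time.** -/
theorem quasi_emit_word {α β : Type} {σ : Type*} [TEnc α] [TEnc β] [TEnc σ] {f : α → List β}
    {init : α → σ} {step : σ → σ} {halt : σ → Bool} {emit : σ → β}
    (hinit : PolyF init) (hstep : PolyF step) (hhalt : PolyF halt) (hemit : PolyF emit)
    (N : α → ℕ) (h1 : ∀ x, ∀ j < N x, halt (step^[j] (init x)) = false)
    (h2 : ∀ x, halt (step^[N x] (init x)) = true)
    (h : ∀ a, (List.range (N a + 1)).map (fun i => emit (step^[i] (init a))) = f a)
    {S' N' : ℕ → ℕ} (hSq : QuasiPoly S') (hNq : QuasiPoly N') (hSm : Monotone S')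
    (hNm : Monotone N')
    (hS : ∀ x, ∀ j ≤ N x, sz (step^[j] (init x)) ≤ S' (sz x)) (hN : ∀ x, N x ≤ N' (sz x)) :
    ∃ M : TM2ComputableInTime (fun a : α => wd false true a)
      (fun b : List β => wd false true b) f, QuasiPoly M.time := by
  have hf : (fun x => emits emit step (N x) (init x)) = f := funext h
  have hE := InTimeL.emit (S := fun x => sz x + S' (sz x)) (N := N)
    hinit hstep hhalt hemit (fun x => Nat.le_add_right _ _) h1 h2
    (fun x j hj => (hS x j hj).trans (Nat.le_add_left _ _))
  rw [hf] at hE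
  have hlen : ∀ a : α, sz a ≤ (wd false true a).length := fun a => by
    rw [length_wd]; omega
  refine quasi_of_time (S' := fun L => L + S' L) (N' := N') (QuasiPoly.self.add hSq) hNq
    (hE.tm2_word _ _ (fun L => Nat.le_add_right _ _) (fun a => ?_) (fun a => ?_))
  · have e1 := hlen a
    have e2 := hSm e1
    show sz a + S' (sz a) ≤ _
    omega
  · exact (hN _).trans (hNm (hlen a))

end Bridge

end Pool.Agent.Lib.PolyTime
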