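import Pool.Agent.Lib.PolyTime.Typed

/-!
# Polynomial-time functions: lists, unary numbers, equality tests
-/

set_option linter.unusedSimpArgs false

namespace Pool.Agent.Lib.PolyTime

open Turing Function

/-- Functions bounded by a polynomial in the size of the input. -/
def PBd {α : Type*} [TEnc α] (t : α → ℕ) : Prop :=
  ∃ B : Polynomial ℕ, ∀ x, t x ≤ B.eval (sz x)

section

variable {α β γ δ ε : Type*} [TEnc α] [TEnc β] [TEnc γ] [TEnc δ] [TEnc ε]

namespace PBd

theorem of_le {t u : α → ℕ} (hu : PBd u) (h : ∀ x, t x ≤ u x) : PBd t := by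
  obtain ⟨B, hB⟩ := hu
  exact ⟨B, fun x => (h x).trans (hB x)⟩

theorem const (n : ℕ) : PBd (fun _ : α => n) := ⟨Polynomial.C n, fun x => by simp⟩

theorem size : PBd (fun x : α => sz x) := ⟨Polynomial.X, fun x => by simp⟩

theorem add {t u : α → ℕ} (ht : PBd t) (hu : PBd u) : PBd (fun x => t x + u x) := by
  obtain ⟨B, hB⟩ := ht
  obtain ⟨C, hC⟩ := hu
  exact ⟨B + C, fun x => by rw [Polynomial.eval_add]; exact add_le_add (hB x) (hC x)⟩

theorem mul {t u : α → ℕ} (ht : PBd t) (hu : PBd u) : PBd (fun x => t x * u x) := by
  obtain ⟨B, hB⟩ := ht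
  obtain ⟨C, hC⟩ := hu
  exact ⟨B * C, fun x => by rw [Polynomial.eval_mul]; exact Nat.mul_le_mul (hB x) (hC x)⟩

theorem pow {t : α → ℕ} (ht : PBd t) (n : ℕ) : PBd (fun x => t x ^ n) := by
  obtain ⟨B, hB⟩ := ht
  exact ⟨B ^ n, fun x => by rw [Polynomial.eval_pow]; exact Nat.pow_le_pow_left (hB x) n⟩

theorem peval {t : α → ℕ} (ht : PBd t) (P : Polynomial ℕ) : PBd (fun x => P.eval (t x)) := by
  obtain ⟨B, hB⟩ := ht
  exact ⟨P.comp B, fun x => by rw [Polynomial.eval_comp]; exact peval_mono P (hB x)⟩

theorem sum (s : List (α → ℕ)) (h : ∀ t ∈ s, PBd t) : PBd (fun x => (s.map (fun t => t x)).sum) := by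
  induction s with
  | nil => simpa using const 0
  | cons t s ih =>
    simp only [List.map_cons, List.sum_cons]
    exact (h t (by simp)).add (ih fun u hu => h u (by simp [hu]))

end PBd

theorem PolyF.pbd {f : α → β} (hf : PolyF f) : PBd (fun x => sz (f x)) := hf.bound

theorem PolyF.pbdLength {f : α → List β} (hf : PolyF f) : PBd (fun x => (f x).length) :=
  hf.pbd.of_le fun _ => length_le_sz _

theorem PolyF.pbdNat {f : α → ℕ} (hf : PolyF f) : PBd (fun x => f x) :=
  hf.pbd.of_le fun x => by simp

theorem PBd.comp {t : β → ℕ} (ht : PBd t) {f : α → β} (hf : PolyF f) : PBd (fun x => t (f x)) := by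
  obtain ⟨B, hB⟩ := ht
  exact (hf.pbd.peval B).of_le fun x => hB _

namespace PolyF

/-! ### Folds with additive growth -/

/-- `foldl` with an explicit bound on the intermediate values. -/
theorem foldl' {l : α → List β} {i : α → γ} {f : α → γ → β → γ} (hl : PolyF l) (hi : PolyF i)
    (hf : PolyF (fun p : α × γ × β => f p.1 p.2.1 p.2.2)) (t : α → ℕ) (ht : PBd t)
    (hb : ∀ x, ∀ k ≤ (l x).length, sz (((l x).take k).foldl (f x) (i x)) ≤ t x) :
    PolyF (fun x => (l x).foldl (f x) (i x)) := by
  obtain ⟨B, hB⟩ := ht
  exact foldl hl hi hf ⟨B, fun x k hk => (hb x k hk).trans (hB x)⟩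

/-- `foldl` where every step adds at most `t x` to the size, as long as an invariant holds. -/
theorem foldl_add {l : α → List β} {i : α → γ} {f : α → γ → β → γ} (hl : PolyF l) (hi : PolyF i)
    (hf : PolyF (fun p : α × γ × β => f p.1 p.2.1 p.2.2)) (t : α → ℕ) (ht : PBd t)
    (hb : ∀ x c, ∀ b ∈ l x, sz (f x c b) ≤ sz c + t x) :
    PolyF (fun x => (l x).foldl (f x) (i x)) := by
  refine foldl' hl hi hf (fun x => sz (i x) + (l x).length * t x)
    (hi.pbd.add (hl.pbdLength.mul ht)) fun x k hk => ?_
  have key : ∀ (l' : List β) (c : γ), (∀ b ∈ l', b ∈ l x) →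
      sz (l'.foldl (f x) c) ≤ sz c + l'.length * t x := by
    intro l'
    induction l' with
    | nil => intro c _; simp
    | cons b l' ih =>
      intro c h
      have h1 := ih (f x c b) (fun b' hb' => h b' (by simp [hb']))
      have h2 := hb x c b (h b (by simp))
      simp only [List.foldl_cons, List.length_cons]
      nlinarith
  refine (key _ (i x) (fun b hb => List.mem_of_mem_take hb)).trans ?_
  have : ((l x).take k).length ≤ (l x).length := by simp
  exact Nat.add_le_add_left (Nat.mul_le_mul_right _ this) _

/-- `foldl` where an invariant bounds the size of the accumulator. -/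
theorem foldl_inv {l : α → List β} {i : α → γ} {f : α → γ → β → γ} (hl : PolyF l) (hi : PolyF i)
    (hf : PolyF (fun p : α × γ × β => f p.1 p.2.1 p.2.2)) (I : α → γ → Prop) (t : α → ℕ)
    (ht : PBd t) (h0 : ∀ x, I x (i x)) (hs : ∀ x c, ∀ b ∈ l x, I x c → I x (f x c b))
    (hI : ∀ x c, I x c → sz c ≤ t x) :
    PolyF (fun x => (l x).foldl (f x) (i x)) := by
  refine foldl' hl hi hf t ht fun x k _ => hI x _ ?_
  have key : ∀ (l' : List β) (c : γ), (∀ b ∈ l', b ∈ l x) → I x c → I x (l'.foldl (f x) c) := by
    intro l'
    induction l' with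
    | nil => intro c _ h; simpa using h
    | cons b l' ih =>
      intro c h hc
      exact ih _ (fun b' hb' => h b' (by simp [hb'])) (hs x c b (h b (by simp)) hc)
  exact key _ _ (fun b hb => List.mem_of_mem_take hb) (h0 x)

/-- `foldl` where some measure of the accumulator grows by at most `t x` in every step, and the
size of the accumulator is polynomially bounded in this measure. -/
theorem foldl_meas {l : α → List β} {i : α → γ} {f : α → γ → β → γ} (hl : PolyF l) (hi : PolyF i)
    (hf : PolyF (fun p : α × γ × β => f p.1 p.2.1 p.2.2)) (μ : α → γ → ℕ) (P : Polynomial ℕ)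
    (t : α → ℕ) (ht : PBd t) (h0 : ∀ x, μ x (i x) ≤ t x)
    (hb : ∀ x c, ∀ b ∈ l x, μ x (f x c b) ≤ μ x c + t x)
    (hsz : ∀ x c, sz c ≤ P.eval (μ x c) + t x) :
    PolyF (fun x => (l x).foldl (f x) (i x)) := by
  refine foldl' hl hi hf (fun x => P.eval (t x + (l x).length * t x) + t x)
    (((ht.add (hl.pbdLength.mul ht)).peval P).add ht) fun x k hk => ?_
  have key : ∀ (l' : List β) (c : γ), (∀ b ∈ l', b ∈ l x) →
      μ x (l'.foldl (f x) c) ≤ μ x c + l'.length * t x := by
    intro l'
    induction l' with
    | nil => intro c _; simp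
    | cons b l' ih =>
      intro c h
      have h1 := ih (f x c b) (fun b' hb' => h b' (by simp [hb']))
      have h2 := hb x c b (h b (by simp))
      simp only [List.foldl_cons, List.length_cons]
      nlinarith
  refine (hsz x _).trans (Nat.add_le_add_right (peval_mono P ?_) _)
  refine (key _ (i x) (fun b hb => List.mem_of_mem_take hb)).trans ?_
  have h1 : ((l x).take k).length ≤ (l x).length := by simp
  exact Nat.add_le_add (h0 x) (Nat.mul_le_mul_right _ h1)

theorem reverse {l : α → List β} (hl : PolyF l) : PolyF (fun x => (l x).reverse) := by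
  refine (foldl_add (i := fun _ => ([] : List β)) (f := fun _ c b => b :: c) hl (const _)
    (snd'.snd.cons snd'.fst) (fun x => sz (l x)) hl.pbd (fun x c b hb => ?_)).congr fun x => ?_
  · have := sz_mem hb
    simp only [sz_cons]
    omega
  · simp

theorem foldr_add {l : α → List β} {i : α → γ} {f : α → β → γ → γ} (hl : PolyF l) (hi : PolyF i)
    (hf : PolyF (fun p : α × β × γ => f p.1 p.2.1 p.2.2)) (t : α → ℕ) (ht : PBd t)
    (hb : ∀ x c, ∀ b ∈ l x, sz (f x b c) ≤ sz c + t x) :
    PolyF (fun x => (l x).foldr (f x) (i x)) := by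
  refine (foldl_add (f := fun x c b => f x b c) hl.reverse hi
    (hf.comp (fst'.pair (snd'.snd.pair snd'.fst))) t ht (fun x c b hbl => ?_)).congr fun x => ?_
  · exact hb x c b (by simpa using hbl)
  · rw [List.foldl_reverse]

theorem foldr_inv {l : α → List β} {i : α → γ} {f : α → β → γ → γ} (hl : PolyF l) (hi : PolyF i)
    (hf : PolyF (fun p : α × β × γ => f p.1 p.2.1 p.2.2)) (I : α → γ → Prop) (t : α → ℕ)
    (ht : PBd t) (h0 : ∀ x, I x (i x)) (hs : ∀ x c, ∀ b ∈ l x, I x c → I x (f x b c))
    (hI : ∀ x c, I x c → sz c ≤ t x) :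
    PolyF (fun x => (l x).foldr (f x) (i x)) := by
  refine (foldl_inv (f := fun x c b => f x b c) hl.reverse hi
    (hf.comp (fst'.pair (snd'.snd.pair snd'.fst))) I t ht h0 (fun x c b hbl => ?_) hI).congr
    fun x => ?_
  · exact hs x c b (by simpa using hbl)
  · rw [List.foldl_reverse]

theorem foldr_meas {l : α → List β} {i : α → γ} {f : α → β → γ → γ} (hl : PolyF l) (hi : PolyF i)
    (hf : PolyF (fun p : α × β × γ => f p.1 p.2.1 p.2.2)) (μ : α → γ → ℕ) (P : Polynomial ℕ)
    (t : α → ℕ) (ht : PBd t) (h0 : ∀ x, μ x (i x) ≤ t x)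
    (hb : ∀ x c, ∀ b ∈ l x, μ x (f x b c) ≤ μ x c + t x)
    (hsz : ∀ x c, sz c ≤ P.eval (μ x c) + t x) :
    PolyF (fun x => (l x).foldr (f x) (i x)) := by
  refine (foldl_meas (f := fun x c b => f x b c) hl.reverse hi
    (hf.comp (fst'.pair (snd'.snd.pair snd'.fst))) μ P t ht h0 (fun x c b hbl => ?_) hsz).congr
    fun x => ?_
  · exact hb x c b (by simpa using hbl)
  · rw [List.foldl_reverse]

theorem append {l l' : α → List β} (hl : PolyF l) (hl' : PolyF l') :
    PolyF (fun x => l x ++ l' x) := by
  refine (foldr_add (f := fun _ b c => b :: c) hl hl'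
    (snd'.fst.cons snd'.snd) (fun x => sz (l x)) hl.pbd (fun x c b hb => ?_)).congr fun x => ?_
  · have := sz_mem hb
    simp only [sz_cons]
    omega
  · simp

theorem map {l : α → List β} {h : α → β → γ} (hl : PolyF l)
    (hh : PolyF (fun p : α × β => h p.1 p.2)) : PolyF (fun x => (l x).map (h x)) := by
  obtain ⟨Q, hQ⟩ := hh.bound
  refine (foldr_add (i := fun _ => ([] : List γ)) (f := fun x b c => h x b :: c) hl (const _)
    ((hh.comp (fst'.pair snd'.fst)).cons snd'.snd)
    (fun x => 1 + Q.eval (1 + sz x + sz (l x)))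
    ((PBd.const 1).add (PBd.peval (((PBd.const 1).add PBd.size).add hl.pbd) Q))
    (fun x c b hb => ?_)).congr fun x => ?_
  · have h1 := sz_mem hb
    have h2 := hQ (x, b)
    have h3 : Q.eval (sz (x, b)) ≤ Q.eval (1 + sz x + sz (l x)) :=
      peval_mono Q (by simp only [sz_prod]; omega)
    simp only [sz_cons]
    have h4 : sz (h x b) ≤ Q.eval (sz (x, b)) := h2
    omega
  · induction l x with
    | nil => rfl
    | cons b t ih => simp [ih]

theorem flatten {l : α → List (List β)} (hl : PolyF l) : PolyF (fun x => (l x).flatten) := by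
  refine (foldr_add (i := fun _ => ([] : List β)) (f := fun _ b c => b ++ c) hl (const _)
    (snd'.fst.append snd'.snd) (fun x => sz (l x)) hl.pbd (fun x c b hb => ?_)).congr fun x => ?_
  · have := sz_mem hb
    rw [sz_append]
    omega
  · induction l x with
    | nil => rfl
    | cons b t ih => simp [ih]

theorem flatMap {l : α → List β} {h : α → β → List γ} (hl : PolyF l)
    (hh : PolyF (fun p : α × β => h p.1 p.2)) : PolyF (fun x => (l x).flatMap (h x)) :=
  (hl.map hh).flatten.congr fun x => by rw [List.flatMap_def]

theorem optionToList {o : α → Option β} (ho : PolyF o) : PolyF (fun x => (o x).toList) :=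
  optionCases ho nil (singleton snd') (fun x hx => by simp [hx]) (fun x b hx => by simp [hx])

theorem filterMap {l : α → List β} {h : α → β → Option γ} (hl : PolyF l)
    (hh : PolyF (fun p : α × β => h p.1 p.2)) : PolyF (fun x => (l x).filterMap (h x)) := by
  refine (hl.flatMap (h := fun x b => (h x b).toList) hh.optionToList).congr fun x => ?_
  induction l x with
  | nil => rfl
  | cons b t ih =>
    rw [List.flatMap_cons, List.filterMap_cons, ih]
    cases h x b <;> simp

theorem filter {l : α → List β} {p : α → β → Bool} (hl : PolyF l)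
    (hp : PolyF (fun q : α × β => p q.1 q.2)) : PolyF (fun x => (l x).filter (p x)) := by
  refine (hl.filterMap (h := fun x b => if p x b = true then Option.some b else none)
    (iteBool hp (some snd') (const _))).congr fun x => ?_
  induction l x with
  | nil => rfl
  | cons b t ih =>
    rw [List.filterMap_cons, List.filter_cons, ih]
    cases p x b <;> simp

theorem filterProp {l : α → List β} {p : α → β → Prop} [∀ x, DecidablePred (p x)] (hl : PolyF l)
    (hp : PolyF (fun q : α × β => decide (p q.1 q.2))) :
    PolyF (fun x => (l x).filter (fun b => decide (p x b))) := hl.filter hp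

theorem all {l : α → List β} {p : α → β → Bool} (hl : PolyF l)
    (hp : PolyF (fun q : α × β => p q.1 q.2)) : PolyF (fun x => (l x).all (p x)) := by
  refine (foldr_inv (i := fun _ => true) (f := fun x b c => p x b && c) hl (const _)
    ((hp.comp (fst'.pair snd'.fst)).and snd'.snd) (fun _ _ => True) (fun _ => 1) (PBd.const 1)
    (fun _ => trivial) (fun _ _ _ _ _ => trivial) (fun x c _ => sz_bool_le c)).congr fun x => ?_
  induction l x with
  | nil => rfl
  | cons b t ih => simp only [List.foldr_cons, List.all_cons, ih]

theorem any {l : α → List β} {p : α → β → Bool} (hl : PolyF l)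
    (hp : PolyF (fun q : α × β => p q.1 q.2)) : PolyF (fun x => (l x).any (p x)) := by
  refine (hl.all (p := fun x b => !p x b) hp.not).not.congr fun x => ?_
  induction l x with
  | nil => rfl
  | cons b t ih =>
    simp only [List.all_cons, List.any_cons, ← ih, Bool.not_and, Bool.not_not]

/-- Bounded universal quantification over a list. -/
theorem forallMem {l : α → List β} {p : α → β → Prop} [∀ x, DecidablePred (p x)] (hl : PolyF l)
    (hp : PolyF (fun q : α × β => decide (p q.1 q.2)))
    [DecidablePred (fun x => ∀ b ∈ l x, p x b)] :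
    PolyF (fun x => decide (∀ b ∈ l x, p x b)) :=
  (hl.all (p := fun x b => decide (p x b)) hp).congr fun x => by
    rw [Bool.eq_iff_iff]; simp

/-- Bounded existential quantification over a list. -/
theorem existsMem {l : α → List β} {p : α → β → Prop} [∀ x, DecidablePred (p x)] (hl : PolyF l)
    (hp : PolyF (fun q : α × β => decide (p q.1 q.2)))
    [DecidablePred (fun x => ∃ b ∈ l x, p x b)] :
    PolyF (fun x => decide (∃ b ∈ l x, p x b)) :=
  (hl.any (p := fun x b => decide (p x b)) hp).congr fun x => by
    rw [Bool.eq_iff_iff]; simp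

theorem length {l : α → List β} (hl : PolyF l) : PolyF (fun x => (l x).length) := by
  refine (foldr_add (i := fun _ => 0) (f := fun _ _ c => c + 1) hl (const _)
    snd'.snd.succ (fun _ => 1) (PBd.const 1) (fun x c b _ => by simp)).congr fun x => ?_
  induction l x with
  | nil => rfl
  | cons b t ih => simp only [List.foldr_cons, List.length_cons, ih]

theorem getLast? {l : α → List β} (hl : PolyF l) : PolyF (fun x => (l x).getLast?) :=
  hl.reverse.head?.congr fun x => by simp

theorem find? {l : α → List β} {p : α → β → Bool} (hl : PolyF l)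
    (hp : PolyF (fun q : α × β => p q.1 q.2)) : PolyF (fun x => (l x).find? (p x)) :=
  (hl.filter hp).head?.congr fun x => by rw [List.head?_filter]

theorem findSome? {l : α → List β} {h : α → β → Option γ} (hl : PolyF l)
    (hh : PolyF (fun q : α × β => h q.1 q.2)) : PolyF (fun x => (l x).findSome? (h x)) :=
  (hl.filterMap hh).head?.congr fun x => by rw [List.head?_filterMap]

theorem product {l : α → List β} {l' : α → List γ} (hl : PolyF l) (hl' : PolyF l') :
    PolyF (fun x => l x ×ˢ l' x) :=
  hl.flatMap (h := fun x b => (l' x).map (fun c => (b, c)))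
    ((hl'.comp fst').map (fst'.snd.pair snd'))

/-! ### Unary arithmetic -/

theorem natAdd {f g : α → ℕ} (hf : PolyF f) (hg : PolyF g) : PolyF (fun x => f x + g x) := by
  refine (natIterate (n := f) (f := fun _ c => c + 1) (g := g) hf snd'.succ hg ?_).congr
    fun x => ?_
  · have h : ∀ (i m : ℕ), (fun c => c + 1)^[i] m = i + m := by
      intro i
      induction i with
      | zero => intro m; simp
      | succ i ih => intro m; rw [iterate_succ_apply, ih]; ring
    obtain ⟨B, hB⟩ := hf.pbdNat.add hg.pbdNat
    refine ⟨B, fun x i hi => ?_⟩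
    have := hB x
    beta_reduce at this
    rw [h]
    simp only [sz_nat]
    omega
  · induction f x with
    | zero => simp
    | succ i ih => rw [iterate_succ_apply', ih]; ring

theorem natSub {f g : α → ℕ} (hf : PolyF f) (hg : PolyF g) : PolyF (fun x => f x - g x) := by
  have h : ∀ (i m : ℕ), (fun c => c - 1)^[i] m = m - i := by
    intro i
    induction i with
    | zero => intro m; simp
    | succ i ih => intro m; rw [iterate_succ_apply, ih]; omega
  refine (natIterate (n := g) (f := fun _ c => c - 1) (g := f) hg snd'.pred hf ?_).congr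
    fun x => ?_
  · obtain ⟨B, hB⟩ := hf.pbdNat
    refine ⟨B, fun x i hi => ?_⟩
    have := hB x
    beta_reduce at this
    rw [h]
    simp only [sz_nat]
    omega
  · rw [h]

theorem natMul {f g : α → ℕ} (hf : PolyF f) (hg : PolyF g) : PolyF (fun x => f x * g x) := by
  have h : ∀ (i m : ℕ), (fun c => c + m)^[i] 0 = i * m := by
    intro i
    induction i with
    | zero => intro m; simp
    | succ i ih => intro m; rw [iterate_succ_apply', ih]; ring
  refine (natIterate (n := f) (f := fun x c => c + g x) (g := fun _ => 0) hf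
    (snd'.natAdd (hg.comp fst')) (const 0) ?_).congr fun x => ?_
  · obtain ⟨B, hB⟩ := hf.pbdNat.mul hg.pbdNat
    refine ⟨B, fun x i hi => ?_⟩
    have := hB x
    rw [h]
    simp only [sz_nat]
    exact (Nat.mul_le_mul_right _ hi).trans this
  · rw [h]

theorem natPow {f : α → ℕ} (hf : PolyF f) (k : ℕ) : PolyF (fun x => f x ^ k) := by
  induction k with
  | zero => simpa using const 1
  | succ k ih => simp only [pow_succ]; exact ih.natMul hf

theorem natIsZero {f : α → ℕ} (hf : PolyF f) : PolyF (fun x => decide (f x = 0)) :=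
  natCases hf (const true) (const false) (fun x hx => by simp [hx])
    (fun x b hx => by simp [hx])

theorem natLe {f g : α → ℕ} (hf : PolyF f) (hg : PolyF g) :
    PolyF (fun x => decide (f x ≤ g x)) :=
  (hf.natSub hg).natIsZero.congr fun x => by rw [decide_eq_decide]; omega

theorem natLt {f g : α → ℕ} (hf : PolyF f) (hg : PolyF g) :
    PolyF (fun x => decide (f x < g x)) :=
  (hf.succ.natLe hg).congr fun x => by rw [decide_eq_decide]; omega

theorem natEq {f g : α → ℕ} (hf : PolyF f) (hg : PolyF g) :
    PolyF (fun x => decide (f x = g x)) :=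
  ((hf.natLe hg).decide_and (hg.natLe hf)).congr fun x => by rw [decide_eq_decide]; omega

theorem natMin {f g : α → ℕ} (hf : PolyF f) (hg : PolyF g) : PolyF (fun x => min (f x) (g x)) :=
  (ite (hf.natLe hg) hf hg).congr fun x => by rw [min_def]

theorem natMax {f g : α → ℕ} (hf : PolyF f) (hg : PolyF g) : PolyF (fun x => max (f x) (g x)) :=
  (ite (hf.natLe hg) hg hf).congr fun x => by rw [max_def]

theorem natEven {f : α → ℕ} (hf : PolyF f) : PolyF (fun x => decide (f x % 2 = 0)) := by
  have h : ∀ (i : ℕ), (fun c => !c)^[i] true = decide (i % 2 = 0) := by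
    intro i
    induction i with
    | zero => simp
    | succ i ih =>
      rw [iterate_succ_apply', ih]
      rcases Nat.mod_two_eq_zero_or_one i with h | h <;> simp [h] <;> omega
  refine (natIterate (n := f) (f := fun _ c => !c) (g := fun _ => true) hf snd'.not (const true)
    ⟨1, fun x i _ => ?_⟩).congr fun x => h _
  simpa using sz_bool_le _

/-- Unary division. -/
theorem natDiv {f g : α → ℕ} (hf : PolyF f) (hg : PolyF g) : PolyF (fun x => f x / g x) := by
  let step : ℕ → ℕ × ℕ → ℕ × ℕ := fun d p => if 0 < d ∧ d ≤ p.1 then (p.1 - d, p.2 + 1) else p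
  have key : ∀ (d n i : ℕ), i ≤ n → (step d)^[i] (n, 0) =
      (n - min i (n / d) * d, min i (n / d)) := by
    intro d n i hi
    induction i with
    | zero => simp
    | succ i ih =>
      rw [iterate_succ_apply', ih (by omega)]
      simp only [step]
      rcases Nat.eq_zero_or_pos d with rfl | hd
      · simp
      · have e1 : n / d * d ≤ n := Nat.div_mul_le_self n d
        have e2 : n < n / d * d + d := Nat.lt_div_mul_add hd
        by_cases h : i < n / d
        · have e3 : (i + 1) * d ≤ n / d * d := Nat.mul_le_mul_right d h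
          rw [min_eq_left h.le, if_pos ⟨hd, by have := add_mul i 1 d; omega⟩,
            min_eq_left (show i + 1 ≤ n / d from h)]
          ext
          · simp only; rw [add_mul]; omega
          · rfl
        · rw [min_eq_right (by omega : n / d ≤ i), if_neg (by omega),
            min_eq_right (by omega : n / d ≤ i + 1)]
  have hstep : PolyF (fun p : α × ℕ × ℕ => step (g p.1) p.2) := by
    refine ite (((const 0).natLt (hg.comp fst')).decide_and
      ((hg.comp fst').natLe snd'.fst)) ((snd'.fst.natSub (hg.comp fst')).pair snd'.snd.succ) snd'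
  refine (natIterate (n := f) (f := fun x => step (g x)) (g := fun x => (f x, 0)) hf hstep
    (hf.pair (const 0)) ?_).snd.congr fun x => ?_
  · obtain ⟨B, hB⟩ := hf.pbdNat
    refine ⟨1 + B + B, fun x i hi => ?_⟩
    rw [key _ _ _ hi]
    have h1 := hB x
    beta_reduce at h1
    have h2 : min i (f x / g x) ≤ f x := (min_le_left _ _).trans hi
    simp only [sz_prod, sz_nat, Polynomial.eval_add, Polynomial.eval_one]
    omega
  · rw [key _ _ _ le_rfl, min_eq_right (Nat.div_le_self _ _)]

theorem natMod {f g : α → ℕ} (hf : PolyF f) (hg : PolyF g) : PolyF (fun x => f x % g x) :=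
  (hf.natSub (hg.natMul (hf.natDiv hg))).congr fun x => by
    have := Nat.div_add_mod (f x) (g x)
    omega

theorem natSum {l : α → List ℕ} (hl : PolyF l) : PolyF (fun x => (l x).sum) := by
  refine (foldr_add (i := fun _ => 0) (f := fun _ b c => b + c) hl (const _)
    (snd'.fst.natAdd snd'.snd) (fun x => sz (l x)) hl.pbd (fun x c b hb => ?_)).congr fun x => ?_
  · have := sz_mem hb
    simp only [sz_nat] at *
    omega
  · rfl

theorem range {n : α → ℕ} (hn : PolyF n) : PolyF (fun x => List.range (n x)) := by
  have h : ∀ (i : ℕ), (fun l => l ++ [l.length])^[i] [] = List.range i := by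
    intro i
    induction i with
    | zero => simp
    | succ i ih => rw [iterate_succ_apply', ih, List.range_succ, List.length_range]
  refine (natIterate (n := n) (f := fun _ l => l ++ [l.length]) (g := fun _ => ([] : List ℕ)) hn
    (snd'.append snd'.length.singleton) (const _) ?_).congr fun x => h _
  obtain ⟨B, hB⟩ := hn.pbdNat
  refine ⟨(B + 1) * B, fun x i hi => ?_⟩
  rw [h]
  have h1 := hB x
  beta_reduce at h1
  have h2 : sz (List.range i) ≤ (i + 1) * (List.range i).length :=
    sz_le_of_forall fun a ha => by simp at ha ⊢; omega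
  rw [List.length_range] at h2
  simp only [Polynomial.eval_add, Polynomial.eval_mul, Polynomial.eval_one]
  exact h2.trans (Nat.mul_le_mul (by omega) (by omega))

/-- Bounded quantification over numbers. -/
theorem forallLt {n : α → ℕ} {p : α → ℕ → Prop} [∀ x, DecidablePred (p x)] (hn : PolyF n)
    (hp : PolyF (fun q : α × ℕ => decide (p q.1 q.2)))
    [DecidablePred (fun x => ∀ b < n x, p x b)] :
    PolyF (fun x => decide (∀ b < n x, p x b)) := by
  have : DecidablePred (fun x => ∀ b ∈ List.range (n x), p x b) := fun x => inferInstance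
  exact (hn.range.forallMem hp).decide_congr fun x => by simp

theorem existsLt {n : α → ℕ} {p : α → ℕ → Prop} [∀ x, DecidablePred (p x)] (hn : PolyF n)
    (hp : PolyF (fun q : α × ℕ => decide (p q.1 q.2)))
    [DecidablePred (fun x => ∃ b < n x, p x b)] :
    PolyF (fun x => decide (∃ b < n x, p x b)) := by
  have : DecidablePred (fun x => ∃ b ∈ List.range (n x), p x b) := fun x => inferInstance
  exact (hn.range.existsMem hp).decide_congr fun x => by simp

/-! ### Positions in lists -/

theorem drop {n : α → ℕ} {l : α → List β} (hn : PolyF n) (hl : PolyF l) :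
    PolyF (fun x => (l x).drop (n x)) := by
  have h : ∀ (i : ℕ) (l : List β), List.tail^[i] l = l.drop i := by
    intro i
    induction i with
    | zero => simp
    | succ i ih => intro l; rw [iterate_succ_apply, ih, List.drop_tail]
  refine (natIterate (n := n) (f := fun _ l => l.tail) (g := l) hn snd'.tail hl ?_).congr
    fun x => h _ _
  obtain ⟨B, hB⟩ := hl.pbd
  refine ⟨B, fun x i _ => ?_⟩
  rw [h]
  exact (sz_sublist (List.drop_sublist _ _)).trans (hB x)

theorem take {n : α → ℕ} {l : α → List β} (hn : PolyF n) (hl : PolyF l) :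
    PolyF (fun x => (l x).take (n x)) :=
  (drop (hl.length.natSub hn) hl.reverse).reverse.congr fun x => by
    rw [List.drop_reverse, List.reverse_reverse]
    rcases le_total (n x) (l x).length with h | h
    · congr 1
      omega
    · rw [List.take_of_length_le h, List.take_of_length_le (by omega)]

theorem getElem? {n : α → ℕ} {l : α → List β} (hn : PolyF n) (hl : PolyF l) :
    PolyF (fun x => (l x)[n x]?) :=
  (hn.drop hl).head?.congr fun x => by rw [List.head?_drop]

theorem set {n : α → ℕ} {l : α → List β} {b : α → β} (hn : PolyF n) (hl : PolyF l)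
    (hb : PolyF b) : PolyF (fun x => (l x).set (n x) (b x)) := by
  refine (ite (p := fun x => n x < (l x).length) (hn.natLt hl.length)
    ((hn.take hl).append (hb.cons (hn.succ.drop hl))) hl).congr fun x => ?_
  split_ifs with h
  · rw [List.set_eq_take_append_cons_drop, if_pos h]
  · rw [List.set_eq_take_append_cons_drop, if_neg h]

theorem zip {l : α → List β} {l' : α → List γ} (hl : PolyF l) (hl' : PolyF l') :
    PolyF (fun x => (l x).zip (l' x)) := by
  have h : PolyF (fun x => (List.range (l x).length).filterMap (fun i =>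
      ((l x)[i]?).bind fun b => ((l' x)[i]?).map fun c => (b, c))) := by
    refine hl.length.range.filterMap ?_
    refine optionBind (h := fun (p : α × ℕ) b => ((l' p.1)[p.2]?).map fun c => (b, c))
      (snd'.getElem? (hl.comp fst')) ?_
    exact optionMap (h := fun (p : (α × ℕ) × β) c => (p.2, c))
      (fst'.snd.getElem? (hl'.comp fst'.fst)) (fst'.snd.pair snd')
  refine h.congr fun x => ?_
  generalize l x = a
  generalize l' x = b
  induction a generalizing b with
  | nil => simp
  | cons c a ih =>
    cases b with
    | nil => simp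
    | cons d b =>
      rw [List.length_cons, List.range_succ_eq_map, List.filterMap_cons]
      simp only [List.filterMap_map]
      simp [← ih b, Function.comp_def]

end PolyF

end

end Pool.Agent.Lib.PolyTime
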