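import Pool.Agent.Lib.PolyTime.EqOps

/-!
# Polynomial-time functions: binary numbers
-/

set_option linter.unusedSimpArgs false

namespace Pool.Agent.Lib.PolyTime

open Turing Function

/-- Value of a little-endian list of bits. -/
def bval : List Bool → ℕ
  | [] => 0
  | b :: l => b.toNat + 2 * bval l

@[simp] theorem bval_nil : bval [] = 0 := rfl

@[simp] theorem bval_cons (b : Bool) (l : List Bool) : bval (b :: l) = b.toNat + 2 * bval l := rfl

theorem bval_append (l l' : List Bool) : bval (l ++ l') = bval l + 2 ^ l.length * bval l' := by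
  induction l with
  | nil => simp
  | cons b l ih => simp only [List.cons_append, bval_cons, ih, List.length_cons, pow_succ]; ring

theorem bval_lt (l : List Bool) : bval l < 2 ^ l.length := by
  induction l with
  | nil => simp
  | cons b l ih =>
    have := b.toNat_le
    simp only [bval_cons, List.length_cons, pow_succ]
    omega

/-- Remove the leading zeros (at the end of the list). -/
def strip (l : List Bool) : List Bool := l.foldr (fun b c => if b = false ∧ c = [] then [] else b :: c) []

theorem bits_eq_nil {n : ℕ} : Nat.bits n = [] ↔ n = 0 := by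
  rw [← List.length_eq_zero_iff, Nat.size_eq_bits_len, Nat.size_eq_zero]

theorem bits_bval (l : List Bool) : Nat.bits (bval l) = strip l := by
  induction l with
  | nil => simp [strip]
  | cons b l ih =>
    have h1 : strip (b :: l) = if b = false ∧ strip l = [] then [] else b :: strip l := rfl
    rw [h1, ← ih, bval_cons]
    have h2 : b.toNat + 2 * bval l = Nat.bit b (bval l) := by
      rw [Nat.bit_val]; ring
    split_ifs with h
    · rw [bits_eq_nil.1 h.2, h.1]; simp
    · rw [h2, Nat.bits_append_bit]
      intro h3
      by_contra h4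
      exact h ⟨by simpa using h4, bits_eq_nil.2 h3⟩

theorem bval_bits (n : ℕ) : bval (Nat.bits n) = n := by
  induction n using Nat.binaryRec' with
  | zero => simp
  | bit b n h ih =>
    rw [Nat.bits_append_bit _ _ h, bval_cons, ih, Nat.bit_val]
    ring

instance : TInj Bin := ⟨fun a b h => by
  have h1 := TInj.inj (α := List Bool) h
  have h2 := congrArg bval h1
  rw [bval_bits, bval_bits] at h2
  exact Bin.ext h2⟩

theorem sz_bits_le (l : List Bool) : sz l ≤ 2 * l.length := by
  have := sz_le_of_forall (l := l) (M := 1) (fun b _ => sz_bool_le b)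
  omega

theorem sz_bin_le (n : Bin) : sz n ≤ 2 * Nat.size n.val := by
  rw [sz_bin, ← Nat.size_eq_bits_len]
  exact sz_bits_le _

theorem size_le_sz_bin (n : Bin) : Nat.size n.val ≤ sz n := by
  rw [sz_bin, ← Nat.size_eq_bits_len]
  exact length_le_sz _

theorem size_add_le (m n : ℕ) : Nat.size (m + n) ≤ Nat.size m + Nat.size n + 1 := by
  rw [Nat.size_le]
  have h1 := Nat.lt_size_self m
  have h2 := Nat.lt_size_self n
  have h3 : 2 ^ m.size ≤ 2 ^ (m.size + n.size) := Nat.pow_le_pow_right (by omega) (by omega)
  have h4 : 2 ^ n.size ≤ 2 ^ (m.size + n.size) := Nat.pow_le_pow_right (by omega) (by omega)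
  rw [pow_succ]
  omega

theorem size_two_mul_le (m : ℕ) : Nat.size (2 * m) ≤ Nat.size m + 1 := by
  rw [Nat.size_le]
  have h1 := Nat.lt_size_self m
  rw [pow_succ]
  omega

section

variable {α β γ δ ε : Type*} [TEnc α] [TEnc β] [TEnc γ] [TEnc δ] [TEnc ε]

namespace PolyF

theorem bits {f : α → Bin} (hf : PolyF f) : PolyF (fun x => Nat.bits (f x).val) :=
  hf.of_enc (fun x => x) (fun _ => rfl) fun _ => rfl

theorem strip {f : α → List Bool} (hf : PolyF f) : PolyF (fun x => strip (f x)) :=
  foldr_add (i := fun _ => ([] : List Bool))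
    (f := fun _ b c => if b = false ∧ c = [] then [] else b :: c) hf (const _)
    (ite ((snd'.fst.eq (const false)).decide_and (snd'.snd.eq (const []))) (const _)
      (snd'.fst.cons snd'.snd)) (fun x => sz (f x)) hf.pbd fun x c b hb => by
      have := sz_mem hb
      split_ifs
      · simp
      · simp only [sz_cons]
        omega

theorem ofBits {f : α → List Bool} (hf : PolyF f) : PolyF (fun x => (⟨bval (f x)⟩ : Bin)) :=
  hf.strip.of_enc (fun x => x) (fun _ => rfl) fun x => by rw [enc_bin, bits_bval]

end PolyF

/-- One step of a bit-serial computation on two numbers. -/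
def serStep (f : Bool → Bool → Bool → Bool × Bool)
    (s : (List Bool × List Bool) × Bool × List Bool) :
    (List Bool × List Bool) × Bool × List Bool :=
  ((s.1.1.tail, s.1.2.tail),
    (f (s.1.1.headD false) (s.1.2.headD false) s.2.1).1,
    (f (s.1.1.headD false) (s.1.2.headD false) s.2.1).2 :: s.2.2)

theorem PolyF.headD {f : α → List β} {g : α → β} (hf : PolyF f) (hg : PolyF g) :
    PolyF (fun x => (f x).headD (g x)) :=
  (hf.head?.getD hg).congr fun x => by rw [List.headD_eq_head?_getD]

theorem PolyF.serStep (f : Bool → Bool → Bool → Bool × Bool) : PolyF (serStep f) := by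
  have h : PolyF (fun s : (List Bool × List Bool) × Bool × List Bool =>
      f (s.1.1.headD false) (s.1.2.headD false) s.2.1) :=
    ((fst'.fst.headD (const false)).pair ((fst'.snd.headD (const false)).pair snd'.fst)).finComp
      (fun q : Bool × Bool × Bool => f q.1 q.2.1 q.2.2)
  exact (fst'.fst.tail.pair fst'.snd.tail).pair (h.fst.pair (h.snd.cons snd'.snd))

/-- Bit-serial computation: the final carry and the output bits. -/
def serial (f : Bool → Bool → Bool → Bool × Bool) (c : Bool) (l l' : List Bool) :
    Bool × List Bool :=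
  let r := ((PolyTime.serStep f)^[sz (l, l')] ((l, l'), c, [])).2
  (r.1, r.2.reverse)

theorem PolyF.serial (f : Bool → Bool → Bool → Bool × Bool) (c : Bool) {l l' : α → List Bool}
    (hl : PolyF l) (hl' : PolyF l') : PolyF (fun x => serial f c (l x) (l' x)) := by
  have h : PolyF (fun x => (PolyTime.serStep f)^[sz (l x, l' x)] ((l x, l' x), c, [])) := by
    refine iterate (n := fun x => (l x, l' x)) (f := fun _ => PolyTime.serStep f)
      (g := fun x => ((l x, l' x), c, [])) (hl.pair hl') ((PolyF.serStep f).comp snd')
      ((hl.pair hl').pair (const _)) ?_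
    have key : ∀ (i : ℕ) (s : (List Bool × List Bool) × Bool × List Bool),
        sz ((PolyTime.serStep f)^[i] s).1.1 ≤ sz s.1.1 ∧
        sz ((PolyTime.serStep f)^[i] s).1.2 ≤ sz s.1.2 ∧
        sz ((PolyTime.serStep f)^[i] s).2.2 ≤ sz s.2.2 + 2 * i := by
      intro i
      induction i with
      | zero => intro s; exact ⟨le_rfl, le_rfl, le_rfl⟩
      | succ i ih =>
        intro s
        rw [iterate_succ_apply]
        obtain ⟨h1, h2, h3⟩ := ih (PolyTime.serStep f s)
        refine ⟨h1.trans (sz_sublist (List.tail_sublist _)),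
          h2.trans (sz_sublist (List.tail_sublist _)), h3.trans ?_⟩
        simp only [PolyTime.serStep, sz_cons]
        have := sz_bool_le (f (s.1.1.headD false) (s.1.2.headD false) s.2.1).2
        omega
    obtain ⟨B, hB⟩ := hl.pbd.add hl'.pbd
    refine ⟨6 + 3 * B, fun x i hi => ?_⟩
    obtain ⟨h1, h2, h3⟩ := key i ((l x, l' x), c, [])
    dsimp only at h1 h2 h3
    have h4 := hB x
    beta_reduce at h4
    have h5 := sz_bool_le ((PolyTime.serStep f)^[i] ((l x, l' x), c, [])).2.1
    simp only [sz_prod] at hi ⊢
    simp only [sz_nil] at h3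
    have h6 : Polynomial.eval (sz x) (6 + 3 * B) = 6 + 3 * Polynomial.eval (sz x) B := by
      simp
    rw [h6]
    omega
  exact h.snd.fst.pair h.snd.snd.reverse

/-- Invariants of bit-serial computations. -/
theorem serial_inv (f : Bool → Bool → Bool → Bool × Bool) (w : Bool → ℤ) (e : ℤ)
    (hf : ∀ a b c, ((f a b c).2.toNat : ℤ) + 2 * w (f a b c).1 =
      w c + (a.toNat + e * b.toNat)) (c : Bool) (l l' : List Bool) :
    (bval (serial f c l l').2 : ℤ) + 2 ^ (serial f c l l').2.length * w (serial f c l l').1 =
      w c + (bval l + e * bval l') ∧ (serial f c l l').2.length = sz (l, l') := by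
  have key : ∀ (i : ℕ) (s : (List Bool × List Bool) × Bool × List Bool),
      (bval ((PolyTime.serStep f)^[i] s).2.2.reverse : ℤ) +
        2 ^ ((PolyTime.serStep f)^[i] s).2.2.length * (w ((PolyTime.serStep f)^[i] s).2.1 +
          (bval ((PolyTime.serStep f)^[i] s).1.1 + e * bval ((PolyTime.serStep f)^[i] s).1.2)) =
      (bval s.2.2.reverse : ℤ) + 2 ^ s.2.2.length * (w s.2.1 + (bval s.1.1 + e * bval s.1.2)) ∧
      ((PolyTime.serStep f)^[i] s).2.2.length = s.2.2.length + i ∧
      ((PolyTime.serStep f)^[i] s).1.1.length = s.1.1.length - i ∧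
      ((PolyTime.serStep f)^[i] s).1.2.length = s.1.2.length - i := by
    intro i
    induction i with
    | zero => intro s; simp
    | succ i ih =>
      intro s
      rw [iterate_succ_apply]
      obtain ⟨h1, h2, h3, h4⟩ := ih (PolyTime.serStep f s)
      have hh : ∀ l : List Bool, (bval l : ℤ) = (l.headD false).toNat + 2 * bval l.tail := by
        intro l
        cases l <;> simp
      refine ⟨?_, ?_, ?_, ?_⟩
      · rw [h1]
        simp only [PolyTime.serStep, List.reverse_cons, bval_append, List.length_reverse,
          List.length_cons, pow_succ]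
        have h5 := hf (s.1.1.headD false) (s.1.2.headD false) s.2.1
        rw [hh s.1.1, hh s.1.2]
        push_cast
        simp only [bval_cons, bval_nil, mul_zero, add_zero]
        linear_combination (2 ^ s.2.2.length : ℤ) * h5
      · rw [h2]
        simp only [PolyTime.serStep, List.length_cons]
        ring
      · rw [h3]
        simp only [PolyTime.serStep, List.length_tail]
        omega
      · rw [h4]
        simp only [PolyTime.serStep, List.length_tail]
        omega
  obtain ⟨h1, h2, h3, h4⟩ := key (sz (l, l')) ((l, l'), c, [])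
  have h5 := length_le_sz l
  have h6 := length_le_sz l'
  have h7 : sz (l, l') = 1 + sz l + sz l' := rfl
  have h8 : ((PolyTime.serStep f)^[sz (l, l')] ((l, l'), c, [])).1.1 = [] := by
    rw [← List.length_eq_zero_iff, h3, h7]
    simp only
    omega
  have h9 : ((PolyTime.serStep f)^[sz (l, l')] ((l, l'), c, [])).1.2 = [] := by
    rw [← List.length_eq_zero_iff, h4, h7]
    simp only
    omega
  rw [h8, h9] at h1
  simp only [bval_nil, List.reverse_nil, List.length_nil, pow_zero] at h1
  simp only [List.length_nil] at h2
  refine ⟨?_, ?_⟩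
  · simp only [PolyTime.serial, List.length_reverse]
    rw [← h7] at *
    push_cast at h1 ⊢
    linarith
  · simp only [PolyTime.serial, List.length_reverse, h2, zero_add]

/-- Full adder. -/
def adder (a b c : Bool) : Bool × Bool := ((a && b) || (a && c) || (b && c), a ^^ b ^^ c)

/-- Full subtractor. -/
def subber (a b c : Bool) : Bool × Bool := ((!a && b) || (!a && c) || (b && c), a ^^ b ^^ c)

theorem bval_adder (l l' : List Bool) :
    bval ((serial adder false l l').2 ++ [(serial adder false l l').1]) = bval l + bval l' := by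
  have h := (serial_inv adder (fun c => (c.toNat : ℤ)) 1
    (by intro a b c; cases a <;> cases b <;> cases c <;> decide) false l l').1
  rw [bval_append]
  have h2 : bval [(serial adder false l l').1] = (serial adder false l l').1.toNat := by simp
  rw [h2]
  zify
  rw [h]
  simp

theorem bval_subber (l l' : List Bool) :
    ((serial subber false l l').1 = true ↔ bval l < bval l') ∧
    (bval l' ≤ bval l → bval (serial subber false l l').2 = bval l - bval l') := by
  have h := (serial_inv subber (fun c => -(c.toNat : ℤ)) (-1)
    (by intro a b c; cases a <;> cases b <;> cases c <;> decide) false l l').1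
  have hlt := bval_lt (serial subber false l l').2
  zify at hlt
  cases hc : (serial subber false l l').1
  · rw [hc] at h
    simp only [Bool.toNat_false, Nat.cast_zero, neg_zero, mul_zero, add_zero, zero_add] at h
    constructor
    · simp only [Bool.false_eq_true, false_iff, not_lt]
      zify
      have : (0 : ℤ) ≤ bval (serial subber false l l').2 := by positivity
      linarith
    · intro h1
      zify [h1]
      linarith
  · rw [hc] at h
    simp only [Bool.toNat_true, Bool.toNat_false, Nat.cast_zero, neg_zero, Nat.cast_one, zero_add]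
      at h
    have h3 : (bval l : ℤ) < bval l' := by linarith
    constructor
    · simp only [true_iff]
      exact_mod_cast h3
    · intro h1
      exact absurd (by exact_mod_cast h3 : bval l < bval l') (by omega)

namespace PolyF

theorem binAdd {f g : α → Bin} (hf : PolyF f) (hg : PolyF g) :
    PolyF (fun x => (⟨(f x).val + (g x).val⟩ : Bin)) := by
  have h := PolyF.serial adder false hf.bits hg.bits
  refine (h.snd.append h.fst.singleton).ofBits.congr fun x => ?_
  rw [bval_adder, bval_bits, bval_bits]

theorem binLt {f g : α → Bin} (hf : PolyF f) (hg : PolyF g) :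
    PolyF (fun x => decide ((f x).val < (g x).val)) := by
  have h := PolyF.serial subber false hf.bits hg.bits
  refine h.fst.congr fun x => ?_
  have h1 := (bval_subber (f x).val.bits (g x).val.bits).1
  rw [bval_bits, bval_bits] at h1
  rw [Bool.eq_iff_iff, decide_eq_true_iff]
  exact h1

theorem binLe {f g : α → Bin} (hf : PolyF f) (hg : PolyF g) :
    PolyF (fun x => decide ((f x).val ≤ (g x).val)) :=
  (hg.binLt hf).decide_not.decide_congr fun x => by omega

theorem binEq {f g : α → Bin} (hf : PolyF f) (hg : PolyF g) :
    PolyF (fun x => decide ((f x).val = (g x).val)) :=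
  ((hf.binLe hg).decide_and (hg.binLe hf)).decide_congr fun x => by omega

theorem binSub {f g : α → Bin} (hf : PolyF f) (hg : PolyF g) :
    PolyF (fun x => (⟨(f x).val - (g x).val⟩ : Bin)) := by
  have h := PolyF.serial subber false hf.bits hg.bits
  refine (iteBool h.fst (const ⟨0⟩) h.snd.ofBits).congr fun x => ?_
  have h1 := bval_subber (f x).val.bits (g x).val.bits
  rw [bval_bits, bval_bits] at h1
  split_ifs with h2
  · have := h1.1.1 h2
    ext
    simp only
    omega
  · have h3 : ¬ (f x).val < (g x).val := fun h4 => h2 (h1.1.2 h4)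
    ext
    exact h1.2 (by omega)

theorem binMin {f g : α → Bin} (hf : PolyF f) (hg : PolyF g) :
    PolyF (fun x => (⟨min (f x).val (g x).val⟩ : Bin)) :=
  (ite (hf.binLe hg) hf hg).congr fun x => by
    ext
    split_ifs with h
    · exact (min_eq_left h).symm
    · exact (min_eq_right (by omega)).symm

theorem binMax {f g : α → Bin} (hf : PolyF f) (hg : PolyF g) :
    PolyF (fun x => (⟨max (f x).val (g x).val⟩ : Bin)) :=
  (ite (hf.binLe hg) hg hf).congr fun x => by
    ext
    split_ifs with h
    · exact (max_eq_right h).symm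
    · exact (max_eq_left (by omega)).symm

/-- `2 * n + b`. -/
theorem binBit {b : α → Bool} {f : α → Bin} (hb : PolyF b) (hf : PolyF f) :
    PolyF (fun x => (⟨(b x).toNat + 2 * (f x).val⟩ : Bin)) :=
  (hb.cons hf.bits).ofBits.congr fun x => by rw [bval_cons, bval_bits]

theorem binDouble {f : α → Bin} (hf : PolyF f) : PolyF (fun x => (⟨2 * (f x).val⟩ : Bin)) :=
  (binBit (const false) hf).congr fun x => by simp

theorem binHalf {f : α → Bin} (hf : PolyF f) : PolyF (fun x => (⟨(f x).val / 2⟩ : Bin)) :=
  hf.bits.tail.ofBits.congr fun x => by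
    rw [← Nat.div2_bits_eq_tail, bval_bits, Nat.div2_val]

theorem binOdd {f : α → Bin} (hf : PolyF f) : PolyF (fun x => decide ((f x).val % 2 = 1)) :=
  (hf.bits.headD (const false)).congr fun x => by
    have h : ∀ l : List Bool, l.headD false = decide (bval l % 2 = 1) := by
      intro l
      rw [Bool.eq_iff_iff, decide_eq_true_iff]
      cases l with
      | nil => simp
      | cons b l =>
        cases b
        · simp only [List.headD_cons, bval_cons, Bool.toNat_false]
          constructor
          · intro h; exact absurd h (by simp)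
          · intro h; omega
        · simp only [List.headD_cons, bval_cons, Bool.toNat_true]
          constructor
          · intro _; omega
          · intro _; trivial
    rw [h, bval_bits]

theorem binMul {f g : α → Bin} (hf : PolyF f) (hg : PolyF g) :
    PolyF (fun x => (⟨(f x).val * (g x).val⟩ : Bin)) := by
  have hstep : PolyF (fun p : α × Bool × Bin =>
      (⟨(if p.2.1 = true then g p.1 else ⟨0⟩ : Bin).val + 2 * p.2.2.val⟩ : Bin)) :=
    (iteBool snd'.fst (hg.comp fst') (const ⟨0⟩)).binAdd snd'.snd.binDouble
  refine (foldr_meas (l := fun x => (f x).val.bits) (i := fun _ => (⟨0⟩ : Bin))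
    (f := fun x b c => ⟨(if b = true then g x else ⟨0⟩ : Bin).val + 2 * c.val⟩) hf.bits (const _)
    hstep (fun _ c => Nat.size c.val) (2 * Polynomial.X) (fun x => sz (g x) + 2)
    (hg.pbd.add (PBd.const 2)) (fun x => by simp) (fun x c b _ => ?_) (fun x c => ?_)).congr
    fun x => ?_
  · have h1 := size_add_le (if b = true then g x else ⟨0⟩ : Bin).val (2 * c.val)
    have h2 := size_two_mul_le c.val
    have h3 : Nat.size (if b = true then g x else ⟨0⟩ : Bin).val ≤ sz (g x) := by
      split_ifs
      · exact size_le_sz_bin _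
      · simp
    dsimp only
    omega
  · have := sz_bin_le c
    simp only [Polynomial.eval_mul, Polynomial.eval_X, Polynomial.eval_ofNat]
    omega
  · have h : ∀ l : List Bool, (l.foldr (fun (b : Bool) (c : Bin) =>
        (⟨(if b = true then g x else ⟨0⟩ : Bin).val + 2 * c.val⟩ : Bin)) ⟨0⟩).val =
        bval l * (g x).val := by
      intro l
      induction l with
      | nil => simp
      | cons b l ih =>
        rw [List.foldr_cons]
        dsimp only
        rw [ih, bval_cons]
        cases b <;> simp <;> ring
    ext
    rw [h, bval_bits]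

/-- Sum of a list of binary numbers. -/
theorem binSum {l : α → List Bin} (hl : PolyF l) :
    PolyF (fun x => (⟨((l x).map Bin.val).sum⟩ : Bin)) := by
  refine (foldr_meas (i := fun _ => (⟨0⟩ : Bin))
    (f := fun _ b c => ⟨b.val + c.val⟩) hl (const _) (snd'.fst.binAdd snd'.snd)
    (fun _ c => Nat.size c.val) (2 * Polynomial.X) (fun x => sz (l x) + 1)
    (hl.pbd.add (PBd.const 1)) (fun x => by simp) (fun x c b hb => ?_) (fun x c => ?_)).congr
    fun x => ?_
  · have h1 := size_add_le b.val c.val
    have h2 := size_le_sz_bin b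
    have h3 := sz_mem hb
    dsimp only
    omega
  · have := sz_bin_le c
    simp only [Polynomial.eval_mul, Polynomial.eval_X, Polynomial.eval_ofNat]
    omega
  · ext
    dsimp only
    induction l x with
    | nil => rfl
    | cons b t ih => rw [List.foldr_cons, List.map_cons, List.sum_cons, ← ih]

/-- Conversion from unary to binary. -/
theorem binOfNat {f : α → ℕ} (hf : PolyF f) : PolyF (fun x => (⟨f x⟩ : Bin)) := by
  have h : ∀ i : ℕ, (fun c : Bin => (⟨c.val + 1⟩ : Bin))^[i] ⟨0⟩ = ⟨i⟩ := by
    intro i
    induction i with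
    | zero => rfl
    | succ i ih => rw [iterate_succ_apply', ih]
  refine (natIterate (n := f) (f := fun _ (c : Bin) => (⟨c.val + 1⟩ : Bin)) (g := fun _ => ⟨0⟩) hf
    (snd'.binAdd (const (⟨1⟩ : Bin))) (const _) ?_).congr fun x => h _
  obtain ⟨B, hB⟩ := hf.pbdNat
  refine ⟨2 * B, fun x i hi => ?_⟩
  rw [h]
  have h1 := sz_bin_le (⟨i⟩ : Bin)
  have h2 : Nat.size i ≤ i := by
    rw [Nat.size_le]
    exact Nat.lt_two_pow_self
  have h3 := hB x
  beta_reduce at h3
  simp only [Polynomial.eval_mul, Polynomial.eval_ofNat]
  dsimp only at h1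
  omega

/-- Conversion from binary to unary, truncated. -/
theorem natOfBin {f : α → Bin} {n : α → ℕ} (hf : PolyF f) (hn : PolyF n) :
    PolyF (fun x => min (f x).val (n x)) := by
  have hstep : PolyF (fun p : α × Bool × ℕ => min (p.2.1.toNat + 2 * p.2.2) (n p.1)) :=
    ((snd'.fst.finComp (fun b : Bool => b.toNat)).natAdd ((const 2).natMul snd'.snd)).natMin
      (hn.comp fst')
  refine (foldr_inv (l := fun x => (f x).val.bits) (i := fun _ => 0)
    (f := fun x b c => min (b.toNat + 2 * c) (n x)) hf.bits (const _) hstep
    (fun x c => c ≤ n x) n hn.pbdNat (fun _ => by simp) (fun x c b _ _ => min_le_right _ _)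
    (fun x c hc => by simpa using hc)).congr fun x => ?_
  have h : ∀ l : List Bool, l.foldr (fun (b : Bool) (c : ℕ) => min (b.toNat + 2 * c) (n x)) 0 =
      min (bval l) (n x) := by
    intro l
    induction l with
    | nil => simp
    | cons b l ih =>
      rw [List.foldr_cons, ih, bval_cons]
      omega
  rw [h, bval_bits]

end PolyF

/-- Append a least significant bit. -/
def dmBit (b : Bool) (c : Bin) : Bin := ⟨b.toNat + 2 * c.val⟩

/-- One step of long division. -/
def dmStep (m : Bin) (b : Bool) (c : Bin × Bin) : Bin × Bin :=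
  if m.val ≤ (dmBit b c.2).val then (dmBit true c.1, ⟨(dmBit b c.2).val - m.val⟩)
  else (dmBit false c.1, dmBit b c.2)

theorem size_dmBit (b : Bool) (c : Bin) : Nat.size (dmBit b c).val ≤ Nat.size c.val + 1 := by
  rw [Nat.size_le]
  have h1 := Nat.lt_size_self c.val
  have := b.toNat_le
  simp only [dmBit, pow_succ]
  omega

theorem size_dmStep (m : Bin) (b : Bool) (c : Bin × Bin) :
    Nat.size (dmStep m b c).1.val + Nat.size (dmStep m b c).2.val ≤
      Nat.size c.1.val + Nat.size c.2.val + 2 := by
  have h1 := size_dmBit b c.2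
  have h2 := size_dmBit true c.1
  have h3 := size_dmBit false c.1
  unfold dmStep
  split_ifs with h
  · have h4 : Nat.size ((dmBit b c.2).val - m.val) ≤ Nat.size (dmBit b c.2).val :=
      Nat.size_le_size (Nat.sub_le _ _)
    dsimp only
    omega
  · dsimp only
    omega

theorem foldr_dmStep (m : Bin) (hm : 0 < m.val) (l : List Bool) :
    l.foldr (dmStep m) (⟨0⟩, ⟨0⟩) = (⟨bval l / m.val⟩, ⟨bval l % m.val⟩) := by
  induction l with
  | nil => simp
  | cons b l ih =>
    rw [List.foldr_cons, ih]
    have h1 := Nat.div_add_mod (bval l) m.val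
    have h2 := Nat.mod_lt (bval l) hm
    have hb := b.toNat_le
    generalize bval l / m.val = q at *
    generalize bval l % m.val = r at *
    unfold dmStep
    rw [bval_cons]
    by_cases h3 : m.val ≤ (dmBit b ((⟨q⟩, ⟨r⟩) : Bin × Bin).2).val
    · rw [if_pos h3]
      simp only [dmBit] at h3 ⊢
      have h5 : (b.toNat + 2 * bval l) / m.val = 1 + 2 * q ∧
          (b.toNat + 2 * bval l) % m.val = b.toNat + 2 * r - m.val := by
        refine (Nat.div_mod_unique hm).2 ⟨?_, by omega⟩
        rw [← h1]
        have e1 : m.val * (1 + 2 * q) = m.val + 2 * (m.val * q) := by ring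
        rw [e1]
        omega
      rw [h5.1, h5.2]
      rfl
    · rw [if_neg h3]
      simp only [dmBit] at h3 ⊢
      have h5 : (b.toNat + 2 * bval l) / m.val = 2 * q ∧
          (b.toNat + 2 * bval l) % m.val = b.toNat + 2 * r := by
        refine (Nat.div_mod_unique hm).2 ⟨?_, by omega⟩
        rw [← h1]
        ring
      rw [h5.1, h5.2]
      simp

namespace PolyF

/-- Division with remainder. -/
theorem binDivMod {f g : α → Bin} (hf : PolyF f) (hg : PolyF g) :
    PolyF (fun x => ((⟨(f x).val / (g x).val⟩ : Bin), (⟨(f x).val % (g x).val⟩ : Bin))) := by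
  have hr : PolyF (fun p : α × Bool × (Bin × Bin) => dmBit p.2.1 p.2.2.2) :=
    binBit snd'.fst snd'.snd.snd
  have hstep : PolyF (fun p : α × Bool × (Bin × Bin) => dmStep (g p.1) p.2.1 p.2.2) :=
    ite ((hg.comp fst').binLe hr) ((binBit (const true) snd'.snd.fst).pair
      (hr.binSub (hg.comp fst'))) ((binBit (const false) snd'.snd.fst).pair hr)
  have hfold : PolyF (fun x => ((f x).val.bits.foldr (dmStep (g x))
      ((⟨0⟩, ⟨0⟩) : Bin × Bin))) := by
    refine foldr_meas (l := fun x => (f x).val.bits) (i := fun _ => ((⟨0⟩, ⟨0⟩) : Bin × Bin))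
      (f := fun x => dmStep (g x)) hf.bits (const _) hstep
      (fun _ c => Nat.size c.1.val + Nat.size c.2.val) (2 * Polynomial.X) (fun x => 2)
      (PBd.const 2) (fun x => by simp) (fun x c b _ => size_dmStep _ _ _) (fun x c => ?_)
    have h1 := sz_bin_le c.1
    have h2 := sz_bin_le c.2
    rw [sz_prod]
    simp only [Polynomial.eval_mul, Polynomial.eval_X, Polynomial.eval_ofNat]
    omega
  refine (ite (p := fun x => (g x).val = 0) (hg.binEq (const (⟨0⟩ : Bin)))
    ((const (⟨0⟩ : Bin)).pair hf) hfold).congr fun x => ?_
  split_ifs with h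
  · rw [h]; simp
  · rw [foldr_dmStep (g x) (by omega), bval_bits]

theorem binDiv {f g : α → Bin} (hf : PolyF f) (hg : PolyF g) :
    PolyF (fun x => (⟨(f x).val / (g x).val⟩ : Bin)) := (hf.binDivMod hg).fst

theorem binMod {f g : α → Bin} (hf : PolyF f) (hg : PolyF g) :
    PolyF (fun x => (⟨(f x).val % (g x).val⟩ : Bin)) := (hf.binDivMod hg).snd

end PolyF

end

end Pool.Agent.Lib.PolyTime
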