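import Mathlib

/-!
# Binary trees and encodings of types by binary trees
-/

set_option linter.unusedSimpArgs false

namespace Pool.Agent.Lib.PolyTime

/-- Binary trees, the universal data type. -/
inductive T : Type
  | nil : T
  | node : T → T → T
  deriving DecidableEq

namespace T

/-- Number of internal nodes. -/
def size : T → ℕ
  | nil => 0
  | node l r => 1 + l.size + r.size

@[simp] theorem size_nil : size nil = 0 := rfl
@[simp] theorem size_node (l r : T) : size (node l r) = 1 + l.size + r.size := rfl

/-- Preorder word of a tree over symbols `z` (leaf) and `o` (node). -/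
def word {A : Type} (z o : A) : T → List A
  | nil => [z]
  | node l r => o :: (l.word z o ++ r.word z o)

@[simp] theorem length_word {A : Type} (z o : A) (x : T) :
    (x.word z o).length = 2 * x.size + 1 := by
  induction x with
  | nil => rfl
  | node l r ihl ihr => simp [word, ihl, ihr]; ring

theorem word_ne_nil {A : Type} (z o : A) (x : T) : x.word z o ≠ [] := by
  cases x <;> simp [word]

/-- Left subtree (`nil` for a leaf). -/
def left : T → T
  | nil => nil
  | node l _ => l

/-- Right subtree (`nil` for a leaf). -/
def right : T → T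
  | nil => nil
  | node _ r => r

/-- Case distinction on leaf/node. -/
def ifnil {α : Type*} : T → α → α → α
  | nil, a, _ => a
  | node _ _, _, b => b

end T

/-- Types whose elements are encoded by trees. -/
class TEnc (α : Type*) where
  /-- the tree of an element -/
  enc : α → T

export TEnc (enc)

instance : TEnc T := ⟨fun x => x⟩

@[simp] theorem enc_T (x : T) : enc x = x := rfl

/-- The size of an element: number of internal nodes of its tree. -/
def sz {α : Type*} [TEnc α] (a : α) : ℕ := (enc a).size

/-- The word of an element over the symbols `z`, `o`. -/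
def wd {α : Type*} [TEnc α] {A : Type} (z o : A) (a : α) : List A := (enc a).word z o

@[simp] theorem wd_T {A : Type} (z o : A) (x : T) : wd z o x = x.word z o := rfl

@[simp] theorem sz_T (x : T) : sz x = x.size := rfl

@[simp] theorem length_wd {α : Type*} [TEnc α] {A : Type} (z o : A) (a : α) :
    (wd z o a).length = 2 * sz a + 1 := T.length_word z o _

instance {α β : Type*} [TEnc α] [TEnc β] : TEnc (α × β) := ⟨fun p => .node (enc p.1) (enc p.2)⟩

theorem enc_prod {α β : Type*} [TEnc α] [TEnc β] (p : α × β) :
    enc p = .node (enc p.1) (enc p.2) := rfl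

theorem sz_prod {α β : Type*} [TEnc α] [TEnc β] (p : α × β) : sz p = 1 + sz p.1 + sz p.2 := rfl

theorem wd_prod {α β : Type*} [TEnc α] [TEnc β] {A : Type} (z o : A) (a : α) (b : β) :
    wd z o (a, b) = o :: (wd z o a ++ wd z o b) := rfl

instance {α : Type*} [TEnc α] {p : α → Prop} : TEnc {x // p x} := ⟨fun x => enc x.1⟩

theorem enc_subtype {α : Type*} [TEnc α] {p : α → Prop} (x : {x // p x}) : enc x = enc x.1 := rfl

theorem sz_subtype {α : Type*} [TEnc α] {p : α → Prop} (x : {x // p x}) : sz x = sz x.1 := rfl

namespace T

/-- A list as a tree. -/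
def ofList {γ : Type*} (c : γ → T) : List γ → T
  | [] => nil
  | a :: l => node (c a) (ofList c l)

@[simp] theorem ofList_nil {γ : Type*} (c : γ → T) : ofList c [] = nil := rfl

@[simp] theorem ofList_cons {γ : Type*} (c : γ → T) (a : γ) (l : List γ) :
    ofList c (a :: l) = node (c a) (ofList c l) := rfl

/-- A natural number in unary. -/
def unary : ℕ → T
  | 0 => nil
  | n + 1 => node nil (unary n)

@[simp] theorem unary_zero : unary 0 = nil := rfl

@[simp] theorem unary_succ (n : ℕ) : unary (n + 1) = node nil (unary n) := rfl

@[simp] theorem size_unary (n : ℕ) : (unary n).size = n := by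
  induction n with
  | zero => rfl
  | succ n ih => simp [ih]; ring

theorem size_ofList_le {γ : Type*} (c : γ → T) (M : ℕ) (hM : ∀ a, (c a).size ≤ M) (l : List γ) :
    (ofList c l).size ≤ (M + 1) * l.length := by
  induction l with
  | nil => simp
  | cons a l ih =>
    have := hM a
    simp only [ofList_cons, size_node, List.length_cons]
    nlinarith

theorem length_le_size_ofList {γ : Type*} (c : γ → T) (l : List γ) :
    l.length ≤ (ofList c l).size := by
  induction l with
  | nil => simp
  | cons a l ih => simp only [ofList_cons, size_node, List.length_cons]; omega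

theorem unary_injective : Function.Injective unary := by
  intro m
  induction m with
  | zero => intro n h; cases n with
    | zero => rfl
    | succ n => simp at h
  | succ m ih => intro n h; cases n with
    | zero => simp at h
    | succ n => simp at h; rw [ih h]

end T

/-! ### Encodings of types -/

/-- The encoding is injective. -/
class TInj (α : Type*) [TEnc α] : Prop where
  inj : Function.Injective (enc : α → T)

theorem enc_inj {α : Type*} [TEnc α] [TInj α] {a b : α} : enc a = enc b ↔ a = b :=
  TInj.inj.eq_iff

instance : TInj T := ⟨fun _ _ h => h⟩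

instance {α β : Type*} [TEnc α] [TEnc β] [TInj α] [TInj β] : TInj (α × β) :=
  ⟨fun a b h => by
    simp only [enc_prod, T.node.injEq, enc_inj] at h
    exact Prod.ext h.1 h.2⟩

instance {α : Type*} [TEnc α] [TInj α] {p : α → Prop} : TInj {x // p x} :=
  ⟨fun _ _ h => Subtype.ext (TInj.inj h)⟩

instance : TEnc Unit := ⟨fun _ => .nil⟩
instance : TInj Unit := ⟨fun _ _ _ => rfl⟩

instance : TEnc Bool := ⟨fun b => if b then .node .nil .nil else .nil⟩

@[simp] theorem enc_true : enc true = .node .nil .nil := rfl

@[simp] theorem enc_false : enc false = .nil := rfl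

instance : TInj Bool := ⟨fun a b h => by cases a <;> cases b <;> simp_all⟩

theorem sz_bool_le (b : Bool) : sz b ≤ 1 := by cases b <;> simp [sz]

instance : TEnc ℕ := ⟨T.unary⟩

theorem enc_nat (n : ℕ) : enc n = T.unary n := rfl

@[simp] theorem enc_zero : enc (0 : ℕ) = .nil := rfl

@[simp] theorem enc_succ (n : ℕ) : enc (n + 1) = .node .nil (enc n) := rfl

@[simp] theorem sz_nat (n : ℕ) : sz n = n := T.size_unary n

instance : TInj ℕ := ⟨T.unary_injective⟩

instance {n : ℕ} : TEnc (Fin n) := ⟨fun i => enc (i : ℕ)⟩

theorem enc_fin {n : ℕ} (i : Fin n) : enc i = enc (i : ℕ) := rfl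

@[simp] theorem sz_fin {n : ℕ} (i : Fin n) : sz i = i := sz_nat i

instance {n : ℕ} : TInj (Fin n) := ⟨fun _ _ h => Fin.ext (TInj.inj h)⟩

instance {α : Type*} [TEnc α] : TEnc (Option α) :=
  ⟨fun a => match a with
    | none => .nil
    | some a => .node (enc a) .nil⟩

@[simp] theorem enc_none {α : Type*} [TEnc α] : enc (none : Option α) = .nil := rfl

@[simp] theorem enc_some {α : Type*} [TEnc α] (a : α) : enc (some a) = .node (enc a) .nil := rfl

@[simp] theorem sz_none {α : Type*} [TEnc α] : sz (none : Option α) = 0 := rfl

@[simp] theorem sz_some {α : Type*} [TEnc α] (a : α) : sz (some a) = 1 + sz a := rfl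

instance {α : Type*} [TEnc α] [TInj α] : TInj (Option α) :=
  ⟨fun a b h => by cases a <;> cases b <;> simp_all [enc_inj]⟩

instance {α β : Type*} [TEnc α] [TEnc β] : TEnc (α ⊕ β) :=
  ⟨fun a => match a with
    | .inl a => .node .nil (enc a)
    | .inr b => .node (.node .nil .nil) (enc b)⟩

@[simp] theorem enc_inl {α β : Type*} [TEnc α] [TEnc β] (a : α) :
    enc (.inl a : α ⊕ β) = .node .nil (enc a) := rfl

@[simp] theorem enc_inr {α β : Type*} [TEnc α] [TEnc β] (b : β) :
    enc (.inr b : α ⊕ β) = .node (.node .nil .nil) (enc b) := rfl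

instance {α β : Type*} [TEnc α] [TEnc β] [TInj α] [TInj β] : TInj (α ⊕ β) :=
  ⟨fun a b h => by cases a <;> cases b <;> simp_all [enc_inj]⟩

instance {α : Type*} [TEnc α] : TEnc (List α) := ⟨T.ofList enc⟩

theorem enc_list {α : Type*} [TEnc α] (l : List α) : enc l = T.ofList enc l := rfl

@[simp] theorem enc_nil {α : Type*} [TEnc α] : enc ([] : List α) = .nil := rfl

@[simp] theorem enc_cons {α : Type*} [TEnc α] (a : α) (l : List α) :
    enc (a :: l) = .node (enc a) (enc l) := rfl

@[simp] theorem sz_nil {α : Type*} [TEnc α] : sz ([] : List α) = 0 := rfl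

@[simp] theorem sz_cons {α : Type*} [TEnc α] (a : α) (l : List α) :
    sz (a :: l) = 1 + sz a + sz l := rfl

theorem enc_list_eq_nil {α : Type*} [TEnc α] {l : List α} : enc l = .nil ↔ l = [] := by
  cases l <;> simp

instance {α : Type*} [TEnc α] [TInj α] : TInj (List α) :=
  ⟨fun a => by
    induction a with
    | nil => intro b h; cases b <;> simp_all
    | cons x a ih => intro b h; cases b with
      | nil => simp at h
      | cons y b =>
        simp only [enc_cons, T.node.injEq, enc_inj] at h
        rw [h.1, ih h.2]⟩

theorem length_le_sz {α : Type*} [TEnc α] (l : List α) : l.length ≤ sz l :=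
  T.length_le_size_ofList _ _

theorem sz_append {α : Type*} [TEnc α] (l l' : List α) : sz (l ++ l') = sz l + sz l' := by
  induction l with
  | nil => simp
  | cons a l ih => simp [ih]; ring

theorem sz_eq_sum {α : Type*} [TEnc α] (l : List α) : sz l = l.length + (l.map sz).sum := by
  induction l with
  | nil => simp
  | cons a l ih => simp [ih]; ring

theorem sz_reverse {α : Type*} [TEnc α] (l : List α) : sz l.reverse = sz l := by
  simp [sz_eq_sum, List.map_reverse, List.sum_reverse]

theorem sz_mem {α : Type*} [TEnc α] {l : List α} {a : α} (h : a ∈ l) : 1 + sz a ≤ sz l := by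
  induction l with
  | nil => simp at h
  | cons b l ih =>
    rcases List.mem_cons.1 h with rfl | h
    · simp
    · have := ih h
      simp only [sz_cons]
      omega

theorem sz_sublist {α : Type*} [TEnc α] {l l' : List α} (h : l.Sublist l') : sz l ≤ sz l' := by
  induction h with
  | slnil => simp
  | cons a _ ih => simp only [sz_cons]; omega
  | cons_cons a _ ih => simp only [sz_cons]; omega

theorem sz_le_of_forall {α : Type*} [TEnc α] {l : List α} {M : ℕ} (h : ∀ a ∈ l, sz a ≤ M) :
    sz l ≤ (M + 1) * l.length := by
  induction l with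
  | nil => simp
  | cons a l ih =>
    have h1 := h a (by simp)
    have h2 := ih (fun b hb => h b (by simp [hb]))
    simp only [sz_cons, List.length_cons]
    nlinarith

/-- Natural numbers, encoded in binary. -/
@[ext] structure Bin where
  /-- the number -/
  val : ℕ

instance : TEnc Bin := ⟨fun n => enc (Nat.bits n.val)⟩

theorem enc_bin (n : Bin) : enc n = enc (Nat.bits n.val) := rfl

theorem sz_bin (n : Bin) : sz n = sz (Nat.bits n.val) := rfl

end Pool.Agent.Lib.PolyTime
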