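import Pool.Agent.Lib.PolyTime.TimeBridge

/-!
# Padding: quasi-polynomial time from polynomial time with unary fuel

* `InTime.pow2`     : `x ↦ (x, 2 ^ n x)` (unary) in time polynomial in `sz x + 2 ^ n x`;
* `pad_tm2_word`    : `x ↦ g (x, 2 ^ n x)` on a Mathlib machine, for `g`, `n` polynomial time;
* `QuasiPoly.iff_two_pow` : quasi-polynomials are the functions bounded by
  `2 ^ (C (log₂ L)² + C)`.
-/

set_option linter.unusedSimpArgs false

namespace Pool.Agent.Lib.PolyTime

open Turing Function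

section

variable {α β γ : Type*} [TEnc α] [TEnc β] [TEnc γ]

/-- One doubling. -/
def dbl : α × (ℕ × ℕ) → α × (ℕ × ℕ) := fun p => (p.1, (p.2.1 - 1, p.2.2 + p.2.2))

theorem polyF_dbl : PolyF (dbl : α × (ℕ × ℕ) → α × (ℕ × ℕ)) :=
  PolyF.fst'.pair ((PolyF.snd'.fst.pred).pair (PolyF.snd'.snd.natAdd PolyF.snd'.snd))

omit [TEnc α] in
theorem dbl_iterate (x : α) (i : ℕ) : ∀ k m : ℕ,
    (dbl^[i]) (x, (k, m)) = (x, (k - i, 2 ^ i * m)) := by
  induction i with
  | zero => intro k m; simp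
  | succ i ih =>
    intro k m
    rw [iterate_succ_apply]
    show dbl^[i] (x, (k - 1, m + m)) = _
    rw [ih, pow_succ]
    congr 2
    · omega
    · ring

open Polynomial in
/-- Unary powers of two, in time polynomial in their value. -/
theorem InTime.pow2 {n : α → ℕ} (hn : PolyF n) :
    InTime (fun x => sz x + 2 ^ n x) n (fun x => (x, 2 ^ n x)) := by
  have hlt : ∀ k : ℕ, k < 2 ^ k := fun k => Nat.lt_two_pow_self
  have h := InTime.while (init := fun x : α => (x, (n x, 1))) (step := dbl)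
    (halt := fun p => decide (p.2.1 = 0)) (S := fun x => 4 * (sz x + 2 ^ n x)) (N := n)
    (PolyF.id.pair (hn.pair (PolyF.const 1))) polyF_dbl (PolyF.snd'.fst.natIsZero)
    (fun x => by have := hlt (n x); omega)
    (fun x i hi => by
      rw [dbl_iterate]
      simp
      omega)
    (fun x => by
      rw [dbl_iterate]
      simp)
    (fun x i hi => by
      rw [dbl_iterate]
      simp only [sz_prod, sz_nat, mul_one]
      have := hlt (n x)
      have e : 2 ^ i ≤ 2 ^ n x := Nat.pow_le_pow_right (by omega) hi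
      omega)
  have h' := (PolyF.comp_inTime (f := fun p : α × (ℕ × ℕ) => (p.1, p.2.2))
    (PolyF.fst'.pair PolyF.snd'.snd) h).of_poly (S' := fun x => sz x + 2 ^ n x) (C 4 * X)
    (fun x => by simp)
  refine cast (congrArg _ ?_) h'
  funext x
  rw [dbl_iterate]
  simp

/-- Padding. -/
theorem InTime.pad {n : α → ℕ} {g : α × ℕ → β} (hn : PolyF n) (hg : PolyF g) :
    InTime (fun x => sz x + 2 ^ n x) n (fun x => g (x, 2 ^ n x)) :=
  hg.comp_inTime (InTime.pow2 hn)

end

open Polynomial in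
/-- **Padding theorem.** If `g` is polynomial time on inputs with a unary clock and the function
`n` is polynomial time, `n x ≤ N (sz x)`, then `x ↦ g (x, 2 ^ n x)` is computed by a machine in
time polynomial in `2 ^ N L + L`. -/
theorem pad_tm2_word {α β : Type} [TEnc α] [TEnc β] {n : α → ℕ} {g : α × ℕ → β} (hn : PolyF n)
    (hg : PolyF g) {N : ℕ → ℕ} (hN : Monotone N) (h : ∀ x, n x ≤ N (sz x)) :
    ∃ (P : Polynomial ℕ) (M : TM2ComputableInTime (fun a : α => wd false true a)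
      (fun b : β => wd false true b) (fun x => g (x, 2 ^ n x))),
      ∀ L, M.time L ≤ P.eval (2 ^ N L + L) := by
  have hlen : ∀ a : α, sz a ≤ (wd false true a).length := fun a => by
    rw [length_wd]; omega
  have hnl : ∀ a : α, n a ≤ N (wd false true a).length := fun a => (h a).trans (hN (hlen a))
  obtain ⟨P, M, hM⟩ := (InTime.pad hn hg).tm2_word (fun L => 2 ^ N L + L) N
    (fun L => Nat.le_add_left _ _) (fun a => by
      have := Nat.pow_le_pow_right (n := 2) (by omega) (hnl a)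
      have := hlen a
      show sz a + 2 ^ n a ≤ 2 ^ N (wd false true a).length + (wd false true a).length
      omega) hnl
  refine ⟨P * (X + 1), M, fun L => ?_⟩
  rw [hM]
  simp only [eval_mul, eval_add, eval_X, eval_one]
  refine Nat.mul_le_mul_left _ ?_
  have : N L < 2 ^ N L := Nat.lt_two_pow_self
  omega

namespace QuasiPoly

theorem log_add_two (L : ℕ) : Nat.log 2 (L + 2) ≤ Nat.log 2 L + 2 := by
  have h : L < 2 ^ (Nat.log 2 L + 1) := Nat.lt_pow_succ_log_self one_lt_two _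
  have h2 : 2 ≤ 2 ^ (Nat.log 2 L + 1) := by
    calc 2 = 2 ^ 1 := rfl
      _ ≤ _ := Nat.pow_le_pow_right (by omega) (by omega)
  have h3 : L + 2 < 2 ^ (Nat.log 2 L + 3) := by
    have : 2 ^ (Nat.log 2 L + 3) = 4 * 2 ^ (Nat.log 2 L + 1) := by
      rw [show Nat.log 2 L + 3 = (Nat.log 2 L + 1) + 2 by ring, pow_add]
      ring
    omega
  have := Nat.log_lt_of_lt_pow (by omega) h3
  omega

theorem iff_two_pow {t : ℕ → ℕ} :
    QuasiPoly t ↔ ∃ C : ℕ, ∀ L, t L ≤ 2 ^ (C * (Nat.log 2 L) ^ 2 + C) := by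
  constructor
  · rintro ⟨c, hc⟩
    refine ⟨c * 20, fun L => (hc L).trans ?_⟩
    have h1 := log_add_two L
    have h2 : L + 2 < 2 ^ (Nat.log 2 (L + 2) + 1) := Nat.lt_pow_succ_log_self one_lt_two _
    calc (L + 2) ^ (c * Nat.log 2 (L + 2))
        ≤ (2 ^ (Nat.log 2 (L + 2) + 1)) ^ (c * Nat.log 2 (L + 2)) :=
          Nat.pow_le_pow_left h2.le _
      _ = 2 ^ ((Nat.log 2 (L + 2) + 1) * (c * Nat.log 2 (L + 2))) := by rw [← pow_mul]
      _ ≤ _ := by
        refine Nat.pow_le_pow_right (by omega) ?_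
        calc (Nat.log 2 (L + 2) + 1) * (c * Nat.log 2 (L + 2))
            ≤ (Nat.log 2 L + 3) * (c * (Nat.log 2 L + 2)) :=
              Nat.mul_le_mul (by omega) (Nat.mul_le_mul_left _ h1)
          _ = c * ((Nat.log 2 L + 3) * (Nat.log 2 L + 2)) := by ring
          _ ≤ c * (20 * Nat.log 2 L ^ 2 + 20) := Nat.mul_le_mul_left _ (by nlinarith)
          _ = _ := by ring
  · rintro ⟨C, hC⟩
    refine ⟨2 * C, fun L => (hC L).trans ?_⟩
    have h1 := one_le_log L
    have h2 : Nat.log 2 L ≤ Nat.log 2 (L + 2) := Nat.log_mono_right (by omega)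
    have h3 : 2 ^ Nat.log 2 (L + 2) ≤ L + 2 := Nat.pow_log_le_self 2 (by omega)
    calc 2 ^ (C * (Nat.log 2 L) ^ 2 + C)
        ≤ 2 ^ (Nat.log 2 (L + 2) * (2 * C * Nat.log 2 (L + 2))) := by
          refine Nat.pow_le_pow_right (by omega) ?_
          have e1 : (Nat.log 2 L) ^ 2 ≤ Nat.log 2 (L + 2) * Nat.log 2 (L + 2) := by
            rw [pow_two]; exact Nat.mul_le_mul h2 h2
          have e2 : 1 ≤ Nat.log 2 (L + 2) * Nat.log 2 (L + 2) := Nat.mul_le_mul h1 h1
          have e3 := Nat.mul_le_mul_left C e1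
          have e4 := Nat.mul_le_mul_left C e2
          have e5 : Nat.log 2 (L + 2) * (2 * C * Nat.log 2 (L + 2)) =
            C * (Nat.log 2 (L + 2) * Nat.log 2 (L + 2)) +
              C * (Nat.log 2 (L + 2) * Nat.log 2 (L + 2)) := by ring
          omega
      _ = (2 ^ Nat.log 2 (L + 2)) ^ (2 * C * Nat.log 2 (L + 2)) := by rw [← pow_mul]
      _ ≤ _ := Nat.pow_le_pow_left h3 _

end QuasiPoly

/-- **Padding theorem, quasi-polynomial form.** -/
theorem pad_tm2_word_quasi {α β : Type} [TEnc α] [TEnc β] {n : α → ℕ} {g : α × ℕ → β}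
    (hn : PolyF n) (hg : PolyF g) {C : ℕ} (h : ∀ x, n x ≤ C * (Nat.log 2 (sz x)) ^ 2 + C) :
    ∃ (M : TM2ComputableInTime (fun a : α => wd false true a)
      (fun b : β => wd false true b) (fun x => g (x, 2 ^ n x))) (C' : ℕ),
      ∀ L, M.time L ≤ 2 ^ (C' * (Nat.log 2 L) ^ 2 + C') := by
  have hmono : Monotone (fun L => C * (Nat.log 2 L) ^ 2 + C) := fun a b hab =>
    Nat.add_le_add_right (Nat.mul_le_mul_left _
      (Nat.pow_le_pow_left (Nat.log_mono_right hab) _)) _
  obtain ⟨P, M, hM⟩ := pad_tm2_word hn hg hmono h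
  refine ⟨M, ?_⟩
  have h1 : QuasiPoly (fun L => 2 ^ (C * (Nat.log 2 L) ^ 2 + C)) :=
    QuasiPoly.iff_two_pow.2 ⟨C, fun L => le_rfl⟩
  exact QuasiPoly.iff_two_pow.1 (((h1.add QuasiPoly.self).peval P).mono hM)

end Pool.Agent.Lib.PolyTime
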