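import Pool.Agent.Lib.PolyTime.EqOps

/-!
# Tables (dynamic programming) and graph reachability in polynomial time
-/

set_option linter.unusedSimpArgs false
set_option linter.unusedSectionVars false

namespace Pool.Agent.Lib.PolyTime

open Turing Function

section

variable {α κ ν : Type*} [TEnc α] [TEnc κ] [TEnc ν]

/-- Dynamic programming: the value of each key is computed from the table of the values of the
keys before it. -/
def dpTable {κ ν : Type*} (F : κ → List (κ × ν) → ν) (keys : List κ) : List (κ × ν) :=
  keys.foldl (fun T k => (k, F k T) :: T) []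

theorem PolyF.dpTable {keys : α → List κ} {F : α → κ → List (κ × ν) → ν} (hk : PolyF keys)
    (hF : PolyF (fun p : α × κ × List (κ × ν) => F p.1 p.2.1 p.2.2)) (t : α → ℕ) (ht : PBd t)
    (hb : ∀ x k T, sz (F x k T) ≤ t x) : PolyF (fun x => dpTable (F x) (keys x)) := by
  refine foldl_add (l := keys) (i := fun _ => ([] : List (κ × ν)))
    (f := fun x T k => (k, F x k T) :: T) hk (const _)
    ((snd'.snd.pair (hF.comp (fst'.pair (snd'.snd.pair snd'.fst)))).cons snd'.fst)
    (fun x => 1 + sz (keys x) + t x) (((PBd.const 1).add hk.pbd).add ht) fun x T k hkx => ?_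
  have h1 := sz_mem hkx
  have h2 := hb x k T
  rw [sz_cons, sz_prod]
  dsimp only
  omega

/-- The table contains exactly the keys, in reverse order. -/
theorem map_fst_dpTable {κ ν : Type*} (F : κ → List (κ × ν) → ν) (keys : List κ) :
    (dpTable F keys).map Prod.fst = keys.reverse := by
  have key : ∀ (l : List κ) (T : List (κ × ν)),
      (l.foldl (fun T k => (k, F k T) :: T) T).map Prod.fst = l.reverse ++ T.map Prod.fst := by
    intro l
    induction l with
    | nil => intro T; simp
    | cons k l ih => intro T; rw [List.foldl_cons, ih]; simp
  have := key keys []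
  simpa [PolyTime.dpTable] using this

/-- Unfolding the last key. -/
theorem dpTable_concat {κ ν : Type*} (F : κ → List (κ × ν) → ν) (keys : List κ) (k : κ) :
    dpTable F (keys ++ [k]) = (k, F k (dpTable F keys)) :: dpTable F keys := by
  simp [PolyTime.dpTable]

end

section Reach

variable {β : Type*} [DecidableEq β]

/-- One step of the exploration of the graph with edge list `E`. -/
def reachStep (E : List (β × β)) (S : List β) : List β :=
  (S ++ (E.filter fun e => decide (e.1 ∈ S)).map Prod.snd).dedup

/-- The list of the vertices reachable from the vertices of `S`. -/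
def reachSet (E : List (β × β)) (S : List β) : List β :=
  (reachStep E)^[E.length + 1] S

theorem mem_reachStep {E : List (β × β)} {S : List β} {v : β} :
    v ∈ reachStep E S ↔ v ∈ S ∨ ∃ u ∈ S, (u, v) ∈ E := by
  unfold reachStep
  rw [List.mem_dedup, List.mem_append, List.mem_map]
  constructor
  · rintro (h | ⟨e, he, rfl⟩)
    · exact Or.inl h
    · rw [List.mem_filter] at he
      exact Or.inr ⟨e.1, by simpa using he.2, he.1⟩
  · rintro (h | ⟨u, hu, he⟩)
    · exact Or.inl h
    · exact Or.inr ⟨(u, v), List.mem_filter.2 ⟨he, by simpa using hu⟩, rfl⟩

theorem mem_reachSet {E : List (β × β)} {S : List β} {v : β} :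
    v ∈ reachSet E S ↔ ∃ u ∈ S, Relation.ReflTransGen (fun a b => (a, b) ∈ E) u v := by
  have hmono : ∀ (k : ℕ) (v : β), v ∈ (reachStep E)^[k] S → v ∈ (reachStep E)^[k + 1] S := by
    intro k v hv
    rw [iterate_succ_apply']
    exact mem_reachStep.2 (Or.inl hv)
  constructor
  · have key : ∀ (k : ℕ) (v : β), v ∈ (reachStep E)^[k] S →
        ∃ u ∈ S, Relation.ReflTransGen (fun a b => (a, b) ∈ E) u v := by
      intro k
      induction k with
      | zero => intro v hv; exact ⟨v, hv, Relation.ReflTransGen.refl⟩
      | succ k ih =>
        intro v hv
        rw [iterate_succ_apply'] at hv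
        rcases mem_reachStep.1 hv with h | ⟨w, hw, hwv⟩
        · exact ih v h
        · obtain ⟨u, hu, huw⟩ := ih w hw
          exact ⟨u, hu, huw.tail hwv⟩
    exact key _ v
  · -- the exploration is saturated after `E.length + 1` steps
    have hsat : ∀ (k : ℕ), (∀ v, v ∈ (reachStep E)^[k + 1] S → v ∈ (reachStep E)^[k] S) ∨
        k + 1 ≤ (((reachStep E)^[k + 1] S).toFinset \ S.toFinset).card := by
      intro k
      induction k with
      | zero =>
        by_cases h : ∀ v, v ∈ (reachStep E)^[0 + 1] S → v ∈ (reachStep E)^[0] S
        · exact Or.inl h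
        · right
          push Not at h
          obtain ⟨v, hv, hv'⟩ := h
          rw [Nat.succ_le_iff, Finset.card_pos]
          exact ⟨v, by simpa using ⟨hv, hv'⟩⟩
      | succ k ih =>
        by_cases h : ∀ v, v ∈ (reachStep E)^[k + 1 + 1] S → v ∈ (reachStep E)^[k + 1] S
        · exact Or.inl h
        · right
          rcases ih with ih | ih
          · exfalso
            apply h
            intro v hv
            rw [iterate_succ_apply'] at hv ⊢
            rcases mem_reachStep.1 hv with h1 | ⟨u, hu, he⟩
            · rwa [iterate_succ_apply'] at h1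
            · exact mem_reachStep.2 (Or.inr ⟨u, ih u hu, he⟩)
          · push Not at h
            obtain ⟨v, hv, hv'⟩ := h
            have hsub : ((reachStep E)^[k + 1] S).toFinset \ S.toFinset ⊂
                ((reachStep E)^[k + 1 + 1] S).toFinset \ S.toFinset := by
              rw [Finset.ssubset_iff_of_subset]
              · refine ⟨v, ?_, ?_⟩
                · simp only [Finset.mem_sdiff, List.mem_toFinset]
                  refine ⟨hv, fun hS => hv' ?_⟩
                  have : ∀ k, v ∈ (reachStep E)^[k] S := by
                    intro k
                    induction k with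
                    | zero => exact hS
                    | succ k ih => exact hmono k v ih
                  exact this _
                · simp only [Finset.mem_sdiff, List.mem_toFinset, not_and_or]
                  exact Or.inl hv'
              · intro w hw
                simp only [Finset.mem_sdiff, List.mem_toFinset] at hw ⊢
                exact ⟨hmono _ w hw.1, hw.2⟩
            have := Finset.card_lt_card hsub
            omega
    have hcard : ∀ k, (((reachStep E)^[k] S).toFinset \ S.toFinset).card ≤ E.length := by
      intro k
      have hsub : ((reachStep E)^[k] S).toFinset \ S.toFinset ⊆ (E.map Prod.snd).toFinset := by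
        intro v hv
        simp only [Finset.mem_sdiff, List.mem_toFinset] at hv ⊢
        have key : ∀ (k : ℕ) (v : β), v ∈ (reachStep E)^[k] S → v ∈ S ∨ v ∈ E.map Prod.snd := by
          intro k
          induction k with
          | zero => intro v hv; exact Or.inl hv
          | succ k ih =>
            intro v hv
            rw [iterate_succ_apply'] at hv
            rcases mem_reachStep.1 hv with h1 | ⟨u, hu, he⟩
            · exact ih v h1
            · exact Or.inr (List.mem_map.2 ⟨_, he, rfl⟩)
        exact (key k v hv.1).resolve_left hv.2
      refine (Finset.card_le_card hsub).trans ((List.toFinset_card_le _).trans ?_)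
      simp
    have hfix : ∀ v, v ∈ (reachStep E)^[E.length + 1] S → v ∈ (reachStep E)^[E.length] S := by
      rcases hsat E.length with h | h
      · exact h
      · have := hcard (E.length + 1)
        omega
    rintro ⟨u, hu, huv⟩
    have hbase : ∀ k, ∀ v ∈ S, v ∈ (reachStep E)^[k] S := by
      intro k
      induction k with
      | zero => intro v hv; exact hv
      | succ k ih => intro v hv; exact hmono k v (ih v hv)
    induction huv with
    | refl => exact hbase _ u hu
    | tail _ hbc ih =>
      unfold reachSet at ih ⊢
      have h1 := hfix _ ih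
      rw [iterate_succ_apply']
      exact mem_reachStep.2 (Or.inr ⟨_, h1, hbc⟩)

end Reach

section

variable {α β : Type*} [TEnc α] [TEnc β] [TInj β] [DecidableEq β]

theorem PolyF.reachStep {E : α → List (β × β)} {S : α → List β} (hE : PolyF E) (hS : PolyF S) :
    PolyF (fun x => reachStep (E x) (S x)) := by
  have h : PolyF (fun x => (E x).filter (fun e => decide (e.1 ∈ S x))) :=
    hE.filter (p := fun x e => decide (e.1 ∈ S x)) (snd'.fst.mem (hS.comp fst'))
  exact (hS.append (h.map (h := fun _ e => e.2) snd'.snd)).dedup

theorem PolyF.reachSet {E : α → List (β × β)} {S : α → List β} (hE : PolyF E) (hS : PolyF S) :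
    PolyF (fun x => reachSet (E x) (S x)) := by
  refine natIterate (n := fun x => (E x).length + 1) (f := fun x S => PolyTime.reachStep (E x) S)
    (g := S) hE.length.succ (PolyF.reachStep (hE.comp fst') snd') hS ?_
  obtain ⟨B, hB⟩ := (hE.pbd.add hS.pbd)
  refine ⟨B + (B + 1) * (2 * B), fun x i hi => ?_⟩
  -- all vertices are in `S` or targets of edges
  have hmem : ∀ (k : ℕ), ∀ v ∈ (PolyTime.reachStep (E x))^[k] (S x),
      v ∈ S x ++ (E x).map Prod.snd := by
    intro k
    induction k with
    | zero => intro v hv; exact List.mem_append_left _ hv
    | succ k ih =>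
      intro v hv
      rw [iterate_succ_apply'] at hv
      rcases mem_reachStep.1 hv with h1 | ⟨u, hu, he⟩
      · exact ih v h1
      · exact List.mem_append_right _ (List.mem_map.2 ⟨_, he, rfl⟩)
  have h1 := hB x
  beta_reduce at h1
  have hsz : ∀ v ∈ S x ++ (E x).map Prod.snd, sz v ≤ B.eval (sz x) := by
    intro v hv
    rcases List.mem_append.1 hv with hv | hv
    · have := sz_mem hv
      omega
    · obtain ⟨e, he, rfl⟩ := List.mem_map.1 hv
      have := sz_mem he
      rw [sz_prod] at this
      omega
  cases i with
  | zero =>
    rw [iterate_zero_apply]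
    simp only [Polynomial.eval_add, Polynomial.eval_mul, Polynomial.eval_one,
      Polynomial.eval_ofNat]
    omega
  | succ k =>
    have hnd : ((PolyTime.reachStep (E x))^[k + 1] (S x)).Nodup := by
      rw [iterate_succ_apply']
      exact List.nodup_dedup _
    have hlen := (List.subperm_of_subset hnd (fun v hv => hmem (k + 1) v hv)).length_le
    rw [List.length_append, List.length_map] at hlen
    have h2 := length_le_sz (S x)
    have h3 := length_le_sz (E x)
    refine (sz_le_of_forall (fun v hv => hsz v (hmem (k + 1) v hv))).trans ?_
    have h4 : ((PolyTime.reachStep (E x))^[k + 1] (S x)).length ≤ 2 * B.eval (sz x) := by omega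
    have h5 := Nat.mul_le_mul_left (B.eval (sz x) + 1) h4
    simp only [Polynomial.eval_add, Polynomial.eval_mul, Polynomial.eval_one,
      Polynomial.eval_ofNat]
    omega

/-- Reachability in a graph given by its list of edges. -/
theorem PolyF.reach {E : α → List (β × β)} {s t : α → β}
    [DecidablePred fun x => Relation.ReflTransGen (fun a b => (a, b) ∈ E x) (s x) (t x)]
    (hE : PolyF E) (hs : PolyF s) (ht : PolyF t) :
    PolyF (fun x => decide (Relation.ReflTransGen (fun a b => (a, b) ∈ E x) (s x) (t x))) :=
  (ht.mem (hE.reachSet hs.singleton)).decide_congr fun x => by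
    rw [mem_reachSet]
    simp

end

end Pool.Agent.Lib.PolyTime
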