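import Pool.Agent.Lib.PolyTime.IntBin

/-!
# Counting functions with polynomial-time verifiable witnesses

`SharpF f`: `f x` is the number of bit strings of length `p x` accepted by a polynomial-time
predicate. Closure under sums over bit strings, sums, products over lists.
-/

set_option linter.unusedSimpArgs false

namespace Pool.Agent.Lib.PolyTime

open Turing Function

/-! ### Sums over bit strings -/

/-- The sum of `f` over all bit strings of length `n`. -/
def sumB : ℕ → (List Bool → ℕ) → ℕ
  | 0, f => f []
  | n + 1, f => sumB n (fun w => f (false :: w)) + sumB n (fun w => f (true :: w))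

theorem sumB_congr {n : ℕ} {f g : List Bool → ℕ} (h : ∀ w, w.length = n → f w = g w) :
    sumB n f = sumB n g := by
  induction n generalizing f g with
  | zero => exact h [] rfl
  | succ n ih =>
    simp only [sumB]
    rw [ih (f := fun w => f (false :: w)) (g := fun w => g (false :: w))
        (fun w hw => h _ (by simp [hw])),
      ih (f := fun w => f (true :: w)) (g := fun w => g (true :: w))
        (fun w hw => h _ (by simp [hw]))]

theorem sumB_le {n : ℕ} {f g : List Bool → ℕ} (h : ∀ w, w.length = n → f w ≤ g w) :
    sumB n f ≤ sumB n g := by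
  induction n generalizing f g with
  | zero => exact h [] rfl
  | succ n ih =>
    simp only [sumB]
    exact add_le_add (ih fun w hw => h _ (by simp [hw])) (ih fun w hw => h _ (by simp [hw]))

theorem sumB_append (a b : ℕ) (f : List Bool → ℕ) :
    sumB (a + b) f = sumB a (fun y => sumB b (fun z => f (y ++ z))) := by
  induction a generalizing f with
  | zero => simp [sumB]
  | succ a ih =>
    rw [Nat.succ_add]
    simp only [sumB, List.cons_append]
    rw [ih, ih]

theorem sumB_const (n c : ℕ) : sumB n (fun _ => c) = 2 ^ n * c := by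
  induction n with
  | zero => simp [sumB]
  | succ n ih => rw [sumB, ih, pow_succ]; ring

theorem sumB_zero (n : ℕ) : sumB n (fun _ => 0) = 0 := by
  rw [sumB_const, mul_zero]

theorem sumB_add (n : ℕ) (f g : List Bool → ℕ) :
    sumB n (fun w => f w + g w) = sumB n f + sumB n g := by
  induction n generalizing f g with
  | zero => rfl
  | succ n ih => simp only [sumB]; rw [ih, ih]; ring

theorem sumB_mul_left (n c : ℕ) (f : List Bool → ℕ) :
    sumB n (fun w => c * f w) = c * sumB n f := by
  induction n generalizing f with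
  | zero => rfl
  | succ n ih => simp only [sumB]; rw [ih, ih]; ring

theorem sumB_mul_right (n c : ℕ) (f : List Bool → ℕ) :
    sumB n (fun w => f w * c) = sumB n f * c := by
  induction n generalizing f with
  | zero => rfl
  | succ n ih => simp only [sumB]; rw [ih, ih]; ring

/-- Splitting a bit string of length `a + b`. -/
theorem sumB_split (a b : ℕ) (f : List Bool → List Bool → ℕ) :
    sumB (a + b) (fun w => f (w.take a) (w.drop a)) = sumB a (fun y => sumB b (f y)) := by
  rw [sumB_append]
  refine sumB_congr fun y hy => sumB_congr fun z _ => ?_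
  rw [← hy, List.take_left, List.drop_left]

theorem sumB_mul (a b : ℕ) (f g : List Bool → ℕ) :
    sumB (a + b) (fun w => f (w.take a) * g (w.drop a)) = sumB a f * sumB b g := by
  rw [sumB_split a b (fun y z => f y * g z)]
  simp only [sumB_mul_left, sumB_mul_right]

/-- All symbols are `false`. -/
def isZ (w : List Bool) : Bool := w.all (fun b => !b)

@[simp] theorem isZ_nil : isZ [] = true := rfl

@[simp] theorem isZ_cons (b : Bool) (w : List Bool) : isZ (b :: w) = (!b && isZ w) := rfl

theorem sumB_isZ (n : ℕ) : sumB n (fun w => (isZ w).toNat) = 1 := by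
  induction n with
  | zero => rfl
  | succ n ih => simp [sumB, ih, sumB_zero]

/-- Padding a witness by zeros. -/
theorem sumB_pad {a b : ℕ} (h : a ≤ b) (f : List Bool → Bool) :
    sumB b (fun w => (f (w.take a) && isZ (w.drop a)).toNat) = sumB a (fun w => (f w).toNat) := by
  obtain ⟨c, rfl⟩ := Nat.exists_eq_add_of_le h
  have : ∀ x y : Bool, (x && y).toNat = x.toNat * y.toNat := by decide
  simp only [this]
  rw [sumB_mul a c (fun w => (f w).toNat) (fun w => (isZ w).toNat), sumB_isZ, mul_one]

theorem sumB_bval_lt (n B : ℕ) :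
    sumB n (fun w => (decide (bval w < B)).toNat) = min B (2 ^ n) := by
  induction n generalizing B with
  | zero =>
    rcases Nat.eq_zero_or_pos B with h | h
    · simp [sumB, h]
    · simp only [sumB, bval_nil, h, decide_true, Bool.toNat_true, pow_zero]
      omega
  | succ n ih =>
    simp only [sumB, bval_cons, Bool.toNat_false, Bool.toNat_true]
    have h1 : ∀ w : List Bool, (0 + 2 * bval w < B) ↔ bval w < (B + 1) / 2 := fun w => by omega
    have h2 : ∀ w : List Bool, (1 + 2 * bval w < B) ↔ bval w < B / 2 := fun w => by omega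
    simp only [h1, h2]
    rw [ih, ih, pow_succ]
    omega

/-- The number of accepted strings, as a cardinality. -/
theorem card_eq_sumB (n : ℕ) (P : List Bool → Bool) :
    Nat.card {w : List Bool // w.length = n ∧ P w = true} = sumB n (fun w => (P w).toNat) := by
  induction n generalizing P with
  | zero =>
    simp only [sumB]
    cases h : P [] with
    | false =>
      have : IsEmpty {w : List Bool // w.length = 0 ∧ P w = true} := ⟨fun w => by
        have h1 := List.length_eq_zero_iff.1 w.2.1
        have h2 := w.2.2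
        rw [h1, h] at h2
        simp at h2⟩
      rw [Nat.card_of_isEmpty]
      rfl
    | true =>
      have : Unique {w : List Bool // w.length = 0 ∧ P w = true} :=
        { default := ⟨[], rfl, h⟩
          uniq := fun w => Subtype.ext (List.length_eq_zero_iff.1 w.2.1) }
      rw [Nat.card_unique]
      rfl
  | succ n ih =>
    simp only [sumB]
    rw [← ih (fun w => P (false :: w)), ← ih (fun w => P (true :: w))]
    have hfin : ∀ Q : List Bool → Bool, Finite {w : List Bool // w.length = n ∧ Q w = true} :=
      fun Q => Finite.of_injective (β := List.Vector Bool n) (fun w => ⟨w.1, w.2.1⟩)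
        fun a b h => Subtype.ext (congrArg (fun v : List.Vector Bool n => v.1) h)
    have := hfin (fun w => P (false :: w))
    have := hfin (fun w => P (true :: w))
    rw [← Nat.card_sum]
    refine Nat.card_congr ⟨fun w => match w with
      | ⟨[], h⟩ => absurd h.1 (by simp)
      | ⟨false :: t, h⟩ => .inl ⟨t, by simpa using h.1, h.2⟩
      | ⟨true :: t, h⟩ => .inr ⟨t, by simpa using h.1, h.2⟩,
      fun s => match s with
      | .inl t => ⟨false :: t.1, by simp [t.2.1], t.2.2⟩
      | .inr t => ⟨true :: t.1, by simp [t.2.1], t.2.2⟩, ?_, ?_⟩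
    · rintro ⟨w, h⟩
      match w, h with
      | [], h => exact absurd h.1 (by simp)
      | false :: t, h => rfl
      | true :: t, h => rfl
    · rintro (t | t) <;> rfl

section

variable {α β γ δ : Type*} [TEnc α] [TEnc β] [TEnc γ] [TEnc δ]

/-! ### Polynomial bounds computed in polynomial time -/

theorem PolyF.peval {f : α → ℕ} (hf : PolyF f) (P : Polynomial ℕ) :
    PolyF (fun x => P.eval (f x)) := by
  induction P using Polynomial.induction_on' with
  | add p q hp hq => exact (hp.natAdd hq).congr fun x => by rw [Polynomial.eval_add]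
  | monomial n a =>
    exact ((PolyF.const a).natMul (hf.natPow n)).congr fun x => by rw [Polynomial.eval_monomial]

theorem PBd.exists_polyF {t : α → ℕ} (ht : PBd t) : ∃ P : α → ℕ, PolyF P ∧ ∀ x, t x ≤ P x := by
  obtain ⟨B, hB⟩ := ht
  exact ⟨fun x => B.eval (sz x), (PolyF.id.szFun).peval B, hB⟩

theorem PolyF.isZ {f : α → List Bool} (hf : PolyF f) : PolyF (fun x => isZ (f x)) :=
  hf.all (p := fun _ b => !b) (PolyF.snd'.not)

theorem sz_bits_le' {w : List Bool} {n : ℕ} (h : w.length ≤ n) : sz w ≤ 2 * n :=
  (sz_bits_le w).trans (by omega)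

/-- A uniform bound for a polynomial-time function of `x` and a bit string of length `m x`. -/
theorem PolyF.boundBits {m : α → ℕ} (hm : PolyF m) {p : α × List Bool → ℕ} (hp : PolyF p) :
    ∃ P : α → ℕ, PolyF P ∧ ∀ x y, y.length ≤ m x → p (x, y) ≤ P x := by
  obtain ⟨B, hB⟩ := hp.pbdNat
  refine ⟨fun x => B.eval (1 + sz x + 2 * m x), PolyF.peval (((PolyF.const 1).natAdd
    PolyF.id.szFun).natAdd ((PolyF.const 2).natMul hm)) B, fun x y hy => ?_⟩
  refine (hB (x, y)).trans (peval_mono B ?_)
  rw [sz_prod]
  have := sz_bits_le' hy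
  dsimp only
  omega

/-- A uniform bound for a polynomial-time function of `x` and an element of `l x`. -/
theorem PolyF.boundList {l : α → List β} (hl : PolyF l) {p : α × β → ℕ} (hp : PolyF p) :
    ∃ P : α → ℕ, PolyF P ∧ ∀ x, ∀ b ∈ l x, p (x, b) ≤ P x := by
  obtain ⟨B, hB⟩ := hp.pbdNat
  refine ⟨fun x => B.eval (1 + sz x + sz (l x)), PolyF.peval (((PolyF.const 1).natAdd
    PolyF.id.szFun).natAdd hl.szFun) B, fun x b hb => ?_⟩
  refine (hB (x, b)).trans (peval_mono B ?_)
  rw [sz_prod]
  have := sz_mem hb
  dsimp only
  omega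

/-! ### The class of counting functions -/

/-- Counting functions: the number of accepted bit strings of length `p x`. -/
def SharpF (f : α → ℕ) : Prop :=
  ∃ (p : α → ℕ) (R : α × List Bool → Bool), PolyF p ∧ PolyF R ∧
    ∀ x, f x = sumB (p x) (fun w => (R (x, w)).toNat)

namespace SharpF

theorem congr {f g : α → ℕ} (hf : SharpF f) (h : ∀ x, f x = g x) : SharpF g := by
  have : g = f := funext fun x => (h x).symm
  rw [this]
  exact hf

theorem comp {f : β → ℕ} (hf : SharpF f) {g : α → β} (hg : PolyF g) :
    SharpF (fun x => f (g x)) := by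
  obtain ⟨p, R, hp, hR, h⟩ := hf
  exact ⟨fun x => p (g x), fun y => R (g y.1, y.2), hp.comp hg,
    hR.comp ((hg.comp PolyF.fst').pair PolyF.snd'), fun x => h (g x)⟩

/-- Indicator functions. -/
theorem pred {R : α → Bool} (hR : PolyF R) : SharpF (fun x => (R x).toNat) :=
  ⟨fun _ => 0, fun y => R y.1, PolyF.const 0, hR.comp PolyF.fst', fun _ => rfl⟩

/-- Numbers computed in binary. -/
theorem bin {f : α → Bin} (hf : PolyF f) : SharpF (fun x => (f x).val) := by
  refine ⟨fun x => Nat.size (f x).val, fun y => decide (bval y.2 < (f y.1).val), hf.binSize,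
    ?_, fun x => ?_⟩
  · exact (PolyF.snd'.ofBits).binLt (hf.comp PolyF.fst')
  · dsimp only
    rw [sumB_bval_lt, min_eq_left (Nat.lt_size_self _).le]

theorem const (c : ℕ) : SharpF (fun _ : α => c) := bin (f := fun _ => ⟨c⟩) (PolyF.const _)

theorem cond {c : α → Bool} {f g : α → ℕ} (hc : PolyF c) (hf : SharpF f) (hg : SharpF g) :
    SharpF (fun x => bif c x then f x else g x) := by
  obtain ⟨p, R, hp, hR, h⟩ := hf
  obtain ⟨p', R', hp', hR', h'⟩ := hg
  refine ⟨fun x => bif c x then p x else p' x, fun y => bif c y.1 then R y else R' y,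
    hc.cond hp hp', (hc.comp PolyF.fst').cond hR hR', fun x => ?_⟩
  cases hx : c x
  · simp only [hx, cond_false]; exact h' x
  · simp only [hx, cond_true]; exact h x

/-- Sums over bit strings. -/
theorem sumBits {m : α → ℕ} (hm : PolyF m) {f : α × List Bool → ℕ} (hf : SharpF f) :
    SharpF (fun x => sumB (m x) (fun y => f (x, y))) := by
  obtain ⟨p, R, hp, hR, h⟩ := hf
  obtain ⟨P, hP, hb⟩ := hm.boundBits hp
  refine ⟨fun x => m x + P x, fun q =>
    R ((q.1, q.2.take (m q.1)), (q.2.drop (m q.1)).take (p (q.1, q.2.take (m q.1)))) &&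
      PolyTime.isZ ((q.2.drop (m q.1)).drop (p (q.1, q.2.take (m q.1)))),
    hm.natAdd hP, ?_, fun x => ?_⟩
  · have h1 : PolyF (fun q : α × List Bool => q.2.take (m q.1)) :=
      (hm.comp PolyF.fst').take PolyF.snd'
    have h2 : PolyF (fun q : α × List Bool => q.2.drop (m q.1)) :=
      (hm.comp PolyF.fst').drop PolyF.snd'
    have h3 : PolyF (fun q : α × List Bool => p (q.1, q.2.take (m q.1))) :=
      hp.comp (PolyF.fst'.pair h1)
    exact (hR.comp ((PolyF.fst'.pair h1).pair (h3.take h2))).and (h3.drop h2).isZ
  · dsimp only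
    rw [sumB_split (m x) (P x) (fun y z => (R ((x, y), z.take (p (x, y))) &&
      PolyTime.isZ (z.drop (p (x, y)))).toNat)]
    refine sumB_congr fun y hy => ?_
    rw [sumB_pad (hb x y hy.le) (fun w => R ((x, y), w))]
    exact h (x, y)

theorem add {f g : α → ℕ} (hf : SharpF f) (hg : SharpF g) : SharpF (fun x => f x + g x) := by
  refine (sumBits (m := fun _ => 1) (f := fun q => bif q.2.headD false then f q.1 else g q.1)
    (PolyF.const 1) (cond (PolyF.snd'.headD (PolyF.const false)) (hf.comp PolyF.fst')
    (hg.comp PolyF.fst'))).congr fun x => ?_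
  simp [sumB]
  ring

/-- The blocks of a bit string are tested one after the other. -/
def blocks (R : β → List Bool → Bool) (P : ℕ) : List β → List Bool → Bool
  | [], _ => true
  | b :: l, w => R b (w.take P) && blocks R P l (w.drop P)

omit [TEnc β] in
theorem sumB_blocks (R : β → List Bool → Bool) (P : ℕ) (l : List β) :
    sumB (l.length * P) (fun w => (blocks R P l w).toNat) =
      (l.map (fun b => sumB P (fun w => (R b w).toNat))).prod := by
  induction l with
  | nil => simp [sumB, blocks]
  | cons b l ih =>
    have e : ∀ x y : Bool, (x && y).toNat = x.toNat * y.toNat := by decide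
    simp only [List.length_cons, blocks, List.map_cons, List.prod_cons]
    rw [Nat.succ_mul, add_comm, ← ih]
    simp only [e]
    exact sumB_mul P _ (fun w => (R b w).toNat) (fun w => (blocks R P l w).toNat)

theorem polyF_blocks {l : α → List β} {R : α × β × List Bool → Bool} {P : α → ℕ}
    {w : α → List Bool} (hl : PolyF l) (hR : PolyF R) (hP : PolyF P) (hw : PolyF w) :
    PolyF (fun x => blocks (fun b w => R (x, b, w)) (P x) (l x) (w x)) := by
  refine (PolyF.foldl_add (i := fun x => (true, w x))
    (f := fun x (c : Bool × List Bool) b => (c.1 && R (x, b, c.2.take (P x)), c.2.drop (P x)))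
    hl ((PolyF.const true).pair hw) ?_ (fun _ => 1) (PBd.const 1) ?_).fst.congr fun x => ?_
  · have h1 : PolyF (fun p : α × (Bool × List Bool) × β => p.2.1.2.take (P p.1)) :=
      (hP.comp PolyF.fst').take PolyF.snd'.fst.snd
    exact (PolyF.snd'.fst.fst.and (hR.comp (PolyF.fst'.pair (PolyF.snd'.snd.pair h1)))).pair
      ((hP.comp PolyF.fst').drop PolyF.snd'.fst.snd)
  · intro x c b _
    have h1 := sz_sublist (List.drop_sublist (P x) c.2)
    rw [sz_prod, sz_prod]
    have h2 := sz_bool_le (c.1 && R (x, b, c.2.take (P x)))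
    dsimp only
    omega
  · have key : ∀ (l' : List β) (c : Bool) (v : List Bool),
        (l'.foldl (fun (c : Bool × List Bool) b =>
          (c.1 && R (x, b, c.2.take (P x)), c.2.drop (P x))) (c, v)).1 =
          (c && blocks (fun b w => R (x, b, w)) (P x) l' v) := by
      intro l'
      induction l' with
      | nil => intro c v; simp [blocks]
      | cons b l' ih =>
        intro c v
        rw [List.foldl_cons, ih, blocks, Bool.and_assoc]
    rw [key, Bool.true_and]

/-- Products over lists. -/
theorem listProd {l : α → List β} (hl : PolyF l) {f : α × β → ℕ} (hf : SharpF f) :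
    SharpF (fun x => ((l x).map (fun b => f (x, b))).prod) := by
  obtain ⟨p, R, hp, hR, h⟩ := hf
  obtain ⟨P, hP, hb⟩ := hl.boundList hp
  let R' : α × β × List Bool → Bool := fun q =>
    R ((q.1, q.2.1), q.2.2.take (p (q.1, q.2.1))) &&
      PolyTime.isZ (q.2.2.drop (p (q.1, q.2.1)))
  have hR' : PolyF R' := by
    have h1 : PolyF (fun q : α × β × List Bool => p (q.1, q.2.1)) :=
      hp.comp (PolyF.fst'.pair PolyF.snd'.fst)
    exact (hR.comp ((PolyF.fst'.pair PolyF.snd'.fst).pair (h1.take PolyF.snd'.snd))).and
      (h1.drop PolyF.snd'.snd).isZ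
  refine ⟨fun x => (l x).length * P x, fun q =>
    blocks (fun b w => R' (q.1, b, w)) (P q.1) (l q.1) q.2, hl.length.natMul hP, ?_, fun x => ?_⟩
  · exact polyF_blocks (R := fun r : (α × List Bool) × β × List Bool => R' (r.1.1, r.2))
      (hl.comp PolyF.fst') (hR'.comp (PolyF.fst'.fst.pair PolyF.snd')) (hP.comp PolyF.fst')
      PolyF.snd'
  · dsimp only
    rw [sumB_blocks]
    congr 1
    refine List.map_congr_left fun b hbl => ?_
    rw [h, ← sumB_pad (hb x b hbl) (fun w => R ((x, b), w))]

theorem mul {f g : α → ℕ} (hf : SharpF f) (hg : SharpF g) : SharpF (fun x => f x * g x) := by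
  refine (listProd (l := fun _ => [true, false])
    (f := fun q => bif q.2 then f q.1 else g q.1) (PolyF.const _)
    (cond PolyF.snd' (hf.comp PolyF.fst') (hg.comp PolyF.fst'))).congr fun x => ?_
  simp

theorem pow {f : α → ℕ} (hf : SharpF f) {n : α → ℕ} (hn : PolyF n) :
    SharpF (fun x => f x ^ n x) := by
  refine (listProd (l := fun x => List.range (n x)) (f := fun q => f q.1) hn.range
    (hf.comp PolyF.fst')).congr fun x => ?_
  simp

end SharpF

end

end Pool.Agent.Lib.PolyTime
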