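import Pool.Agent.Lib.PolyTime.While

/-!
# From `InTime` to Mathlib's `TM2ComputableInTime`

`tm2_time_core` is the analogue of `tm2_core` for arbitrary time bounds. `QuasiPoly t` says that
`t` is bounded by a quasi-polynomial.
-/

set_option linter.unusedSimpArgs false

namespace Pool.Agent.Lib.PolyTime

open Turing Function

section Bridge

variable {I O : Type}

open Polynomial in
/-- From a program with a general time bound to a machine. -/
theorem tm2_time_core [Finite I] [Finite O] {α β : Type} {α' β' : Type*} [TEnc α'] [TEnc β']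
    {ea : α → List I} {eb : β → List O} {f : α → β} {i : α → α'} {w : β' → List O} {F : α' → β'}
    {S N : α' → ℕ} (hin : InOK O ea i) (hF : InTime S N F) (hout : OutOK I w)
    (h : ∀ a, w (F (i a)) = eb (f a)) (S' N' : ℕ → ℕ) (hL : ∀ L, L ≤ S' L)
    (hS : ∀ a, S (i a) ≤ S' (ea a).length) (hN : ∀ a, N (i a) ≤ N' (ea a).length) :
    ∃ (P : Polynomial ℕ) (M : TM2ComputableInTime ea eb f),
      M.time = fun L => P.eval (S' L) * (N' L + 1) := by
  cases nonempty_fintype I
  cases nonempty_fintype O
  obtain ⟨⟨Qi, hQi⟩, pi, ki, Pi, hbi, hri⟩ := hin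
  obtain ⟨⟨Qo, hQo⟩, po, ko, Po, hbo, hro⟩ := hout
  obtain ⟨⟨Q, hQ⟩, hF⟩ := hF
  obtain ⟨pF, kF, PF, hkF, hbF, hrF⟩ := hF (Al I O) (.inl false) (.inl true) (by simp)
  obtain ⟨R, hR⟩ : ∃ R, R = max (max (max ki ko) kF) 3 := ⟨_, rfl⟩
  have : NeZero R := ⟨by omega⟩
  let p : Prog (Al I O) := .seq pi (.seq pF po)
  have hp : Below p R := ⟨hbi.mono (by omega), hbF.mono (by omega), hbo.mono (by omega)⟩
  let PP : Polynomial ℕ := C 10 * (1 + X + Pi + PF + Po.comp Q + Qo.comp Q)
  refine ⟨PP, ⟨⟨finalTM R p, Equiv.refl _, Equiv.refl _⟩,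
    fun L => PP.eval (S' L) * (N' L + 1), fun a => ?_⟩, rfl⟩
  have key : ∃ n ≤ PP.eval (S' (ea a).length) * (N' (ea a).length + 1),
      Steps (finalCode R p) n (initList (finalTM R p) (ea a))
        (haltList (finalTM R p) (eb (f a))) := by
    have hrun : Run p (update (fun _ => []) 1 ((ea a).map (fun a => .inr (.inl a))).reverse)
        (update (fun _ => []) 2 ((eb (f a)).reverse.map (fun a => .inr (.inr a))))
        (Pi.eval (ea a).length + (PF.eval (S (i a)) * (N (i a) + 1) +
          Po.eval (sz (F (i a))))) := by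
      have r2 := hrF (i a) (update (fun _ => []) 0 (wd (.inl false) (.inl true) (i a)))
        (update_self _ _ _) (fun j hj _ => by rw [update_of_ne hj.ne'])
      rw [update_idem] at r2
      have r3 := hro (F (i a))
      rw [h a] at r3
      exact (hri a).seq (r2.seq r3)
    obtain ⟨v1, S1, a1, a2, a3, a4⟩ := steps_pro (N := R) (by omega) p (ea a) (none, none)
      (initList (finalTM R p) (ea a)).stk (fun _ => []) rfl (fun i => rfl)
    obtain ⟨t, ht, hexec⟩ := hrun
    have a2' : S1 .out = ([] : List O) := a2.trans rfl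
    obtain ⟨v2, S2, b1, b2, b3, b4, b5⟩ := exec_sim (I := I) (O := O) (N := R) hexec
      hp (finalCode R p) (fun l => .inr (.inl l))
      (.inr (.inr (some none))) (fun l => rfl) v1 S1 (by simpa using a3)
    obtain ⟨v3, S3, c1, c2, c3, c4⟩ := steps_epi (N := R) (by omega)
      p (eb (f a)).reverse v2 S2 _ [] (b4.trans a2') b1 (by simp)
    refine ⟨(2 * (ea a).length + 1) + (t + ((2 * (eb (f a)).reverse.length + 1) + 1)), ?_,
      a4.trans (b5.trans (c4.trans (Steps.one ?_)))⟩
    · simp only [PP, eval_add, eval_one, eval_mul, eval_X, eval_C, eval_comp, List.length_reverse]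
      have e0 := hL (ea a).length
      have e2 := (hQ (i a)).trans (peval_mono Q (hS a))
      have e3 := hQo (F (i a))
      rw [h a] at e3
      have e4 := e3.trans (peval_mono Qo e2)
      have e5 := peval_mono PF (hS a)
      have e6 := peval_mono Po e2
      have e7 := peval_mono Pi e0
      have e8 := hN a
      have e9 : PF.eval (S (i a)) * (N (i a) + 1) ≤
        PF.eval (S' (ea a).length) * (N' (ea a).length + 1) :=
        Nat.mul_le_mul e5 (by omega)
      have e10 : 10 * (1 + S' (ea a).length + Pi.eval (S' (ea a).length) +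
          Po.eval (Q.eval (S' (ea a).length)) + Qo.eval (Q.eval (S' (ea a).length))) +
          PF.eval (S' (ea a).length) * (N' (ea a).length + 1) ≤
          10 * (1 + S' (ea a).length + Pi.eval (S' (ea a).length) + PF.eval (S' (ea a).length) +
          Po.eval (Q.eval (S' (ea a).length)) + Qo.eval (Q.eval (S' (ea a).length))) *
            (N' (ea a).length + 1) := by
        have e11 : 10 * (1 + S' (ea a).length + Pi.eval (S' (ea a).length) +
          Po.eval (Q.eval (S' (ea a).length)) + Qo.eval (Q.eval (S' (ea a).length))) ≤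
          10 * (1 + S' (ea a).length + Pi.eval (S' (ea a).length) +
          Po.eval (Q.eval (S' (ea a).length)) + Qo.eval (Q.eval (S' (ea a).length))) *
            (N' (ea a).length + 1) := Nat.le_mul_of_pos_right _ (by omega)
        nlinarith [Nat.zero_le (PF.eval (S' (ea a).length) * (N' (ea a).length + 1))]
      omega
    · have e0 : S3 = (haltList (finalTM R p) (eb (f a))).stk := by
        funext r
        cases r with
        | inp => exact (c1.trans (b3.trans a1)).trans rfl
        | out =>
          refine c2.trans ?_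
          rw [List.reverse_reverse, List.append_nil]
          rfl
        | reg i =>
          refine (c3 i).trans ?_
          rw [update_idem]
          have : update (fun _ => []) 2 ([] : List (Al I O)) = fun _ => [] := by
            funext j
            simp only [update_apply]
            split_ifs <;> rfl
          rw [this]
          rfl
      have e1 : TM2.step (finalCode R p) ⟨some (.inr (.inr none)), v3, S3⟩
          = some ⟨none, (none, none), S3⟩ := rfl
      rw [e1, e0]
      rfl
  obtain ⟨n, hn, hs⟩ := Classical.indefiniteDescription _ key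
  have e1 : List.map (Equiv.refl I).invFun (ea a) = ea a := List.map_id _
  have e2 : List.map (Equiv.refl O).invFun (eb (f a)) = eb (f a) := List.map_id _
  refine ⟨⟨n, ?_⟩, hn⟩
  have e3 : ∀ (u : List I) (w : List O), u = ea a → w = eb (f a) →
    (flip bind (finalTM R p).step)^[n] (some (initList (finalTM R p) u)) =
      Option.map (haltList (finalTM R p)) (some w) := by
    rintro _ _ rfl rfl
    exact hs
  exact e3 _ _ e1 e2

/-- Functions whose inputs and outputs are written as words of trees. -/
theorem InTime.tm2_word {α β : Type} [TEnc α] [TEnc β] {f : α → β} {S N : α → ℕ}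
    (hf : InTime S N f) (S' N' : ℕ → ℕ) (hL : ∀ L, L ≤ S' L)
    (hS : ∀ a, S a ≤ S' (wd false true a).length) (hN : ∀ a, N a ≤ N' (wd false true a).length) :
    ∃ (P : Polynomial ℕ) (M : TM2ComputableInTime (fun a : α => wd false true a)
      (fun b : β => wd false true b) f), M.time = fun L => P.eval (S' L) * (N' L + 1) :=
  tm2_time_core (InOK.word Bool _ (fun a => a) (fun _ => rfl)) hf (OutOK.word Bool)
    (fun _ => rfl) S' N' hL hS hN

/-- Decision problems over an arbitrary finite input alphabet. -/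
theorem InTime.tm2_bool' [Finite I] [TEnc I] {α : Type} {α' : Type*} [TEnc α'] {ea : α → List I}
    {f : α → Bool} {F : α' → Bool} {S N : α' → ℕ} (hF : InTime S N F) (i : α → α')
    (hi : ∀ a, enc (i a) = enc (ea a)) (h : ∀ a, F (i a) = f a) (S' N' : ℕ → ℕ)
    (hL : ∀ L, L ≤ S' L) (hS : ∀ a, S (i a) ≤ S' (ea a).length)
    (hN : ∀ a, N (i a) ≤ N' (ea a).length) :
    ∃ (P : Polynomial ℕ) (M : TM2ComputableInTime ea Computability.encodeBool f),
      M.time = fun L => P.eval (S' L) * (N' L + 1) :=
  tm2_time_core (InOK.list Bool ea i enc hi) hF (OutOK.bool I) (fun a => by rw [h]; rfl)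
    S' N' hL hS hN

/-- Functions between words over arbitrary finite alphabets. -/
theorem InTime.tm2' [Finite I] [TEnc I] [Finite O] [TEnc O] [TInj O] {α β : Type} {α' : Type*}
    [TEnc α'] {ea : α → List I} {eb : β → List O} {f : α → β} {F : α' → List O}
    {S N : α' → ℕ} (hF : InTime S N F) (i : α → α') (hi : ∀ a, enc (i a) = enc (ea a))
    (h : ∀ a, F (i a) = eb (f a)) (S' N' : ℕ → ℕ) (hL : ∀ L, L ≤ S' L)
    (hS : ∀ a, S (i a) ≤ S' (ea a).length) (hN : ∀ a, N (i a) ≤ N' (ea a).length) :
    ∃ (P : Polynomial ℕ) (M : TM2ComputableInTime ea eb f),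
      M.time = fun L => P.eval (S' L) * (N' L + 1) := by
  classical
  cases nonempty_fintype O
  let L : List O := Finset.univ.toList
  have hL' : ∀ b, b ∈ L := fun b => by simp [L]
  have h0 : PolyF (fun x : List O => (⟨x⟩ : Coded O L)) := by
    refine ((PolyF.id (α := List O)).map (h := fun _ b => L.idxOf b)
      (PolyF.snd'.finComp (fun b => L.idxOf b))).of_enc
      (fun x => x) (fun _ => rfl) fun x => ?_
    show T.ofList (fun b => T.unary (L.idxOf b)) x = enc (x.map (fun b => L.idxOf b))
    induction x with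
    | nil => rfl
    | cons b t ih => simp [ih, enc_nat]
  exact tm2_time_core (InOK.list O ea i enc hi) (h0.comp_inTime hF)
    (OutOK.list I (fun c : Coded O L => c.l) L hL' (fun _ => rfl)) h S' N' hL hS hN

end Bridge

/-! ### Quasi-polynomial bounds -/

/-- `t` is bounded by a quasi-polynomial. -/
def QuasiPoly (t : ℕ → ℕ) : Prop := ∃ c : ℕ, ∀ L, t L ≤ (L + 2) ^ (c * (Nat.log 2 (L + 2)))

namespace QuasiPoly

theorem one_le_log (L : ℕ) : 1 ≤ Nat.log 2 (L + 2) :=
  Nat.le_log_of_pow_le one_lt_two (by omega)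

theorem mono {t u : ℕ → ℕ} (ht : QuasiPoly t) (h : ∀ L, u L ≤ t L) : QuasiPoly u := by
  obtain ⟨c, hc⟩ := ht
  exact ⟨c, fun L => (h L).trans (hc L)⟩

theorem const (a : ℕ) : QuasiPoly (fun _ => a) := by
  refine ⟨a, fun L => ?_⟩
  have h1 : a ≤ 2 ^ a := Nat.lt_two_pow_self.le
  calc a ≤ 2 ^ a := h1
    _ ≤ (L + 2) ^ a := Nat.pow_le_pow_left (by omega) _
    _ ≤ _ := Nat.pow_le_pow_right (by omega) (Nat.le_mul_of_pos_right _ (one_le_log L))

theorem self : QuasiPoly (fun L => L) := by
  refine ⟨1, fun L => ?_⟩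
  calc L ≤ (L + 2) ^ 1 := by simp
    _ ≤ _ := Nat.pow_le_pow_right (by omega) (by rw [one_mul]; exact one_le_log L)

theorem mul {t u : ℕ → ℕ} (ht : QuasiPoly t) (hu : QuasiPoly u) :
    QuasiPoly (fun L => t L * u L) := by
  obtain ⟨c, hc⟩ := ht
  obtain ⟨d, hd⟩ := hu
  refine ⟨c + d, fun L => (Nat.mul_le_mul (hc L) (hd L)).trans ?_⟩
  rw [← pow_add, ← add_mul]

theorem add {t u : ℕ → ℕ} (ht : QuasiPoly t) (hu : QuasiPoly u) :
    QuasiPoly (fun L => t L + u L) := by
  obtain ⟨c, hc⟩ := ht
  obtain ⟨d, hd⟩ := hu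
  refine ⟨c + d + 1, fun L => (Nat.add_le_add (hc L) (hd L)).trans ?_⟩
  have h1 := one_le_log L
  have e1 : (L + 2) ^ (c * Nat.log 2 (L + 2)) ≤ (L + 2) ^ ((c + d) * Nat.log 2 (L + 2)) :=
    Nat.pow_le_pow_right (by omega) (by nlinarith)
  have e2 : (L + 2) ^ (d * Nat.log 2 (L + 2)) ≤ (L + 2) ^ ((c + d) * Nat.log 2 (L + 2)) :=
    Nat.pow_le_pow_right (by omega) (by nlinarith)
  have e3 : (L + 2) ^ ((c + d) * Nat.log 2 (L + 2)) * 2 ≤
      (L + 2) ^ ((c + d + 1) * Nat.log 2 (L + 2)) := by
    rw [add_mul (c + d) 1, pow_add]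
    refine Nat.mul_le_mul_left _ ?_
    calc 2 ≤ (L + 2) ^ 1 := by rw [pow_one]; omega
      _ ≤ _ := Nat.pow_le_pow_right (by omega) (by omega)
  omega

theorem pow {t : ℕ → ℕ} (ht : QuasiPoly t) (k : ℕ) : QuasiPoly (fun L => t L ^ k) := by
  induction k with
  | zero => simpa using const 1
  | succ k ih => simpa [pow_succ] using ih.mul ht

/-- A polynomial of a quasi-polynomial. -/
theorem peval {t : ℕ → ℕ} (P : Polynomial ℕ) (ht : QuasiPoly t) :
    QuasiPoly (fun L => P.eval (t L)) := by
  induction P using Polynomial.induction_on' with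
  | add p q hp hq => simpa using hp.add hq
  | monomial n a => simpa using (const a).mul (ht.pow n)

theorem poly (P : Polynomial ℕ) : QuasiPoly (fun L => P.eval L) := self.peval P

/-- A quasi-polynomial of a polynomial. -/
theorem comp_poly {t : ℕ → ℕ} (ht : QuasiPoly t) (P : Polynomial ℕ) :
    QuasiPoly (fun L => t (P.eval L)) := by
  obtain ⟨c, hc⟩ := ht
  -- P.eval L + 2 ≤ (L + 2) ^ d
  obtain ⟨d, hd⟩ : ∃ d, ∀ L, P.eval L + 2 ≤ (L + 2) ^ d := by
    have key : ∀ P : Polynomial ℕ, ∃ d, ∀ L, P.eval L ≤ (L + 2) ^ d := by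
      intro P
      induction P using Polynomial.induction_on' with
      | add p q hp hq =>
        obtain ⟨d, hd⟩ := hp
        obtain ⟨e, he⟩ := hq
        refine ⟨d + e + 1, fun L => ?_⟩
        have e1 : (L + 2) ^ d ≤ (L + 2) ^ (d + e) := Nat.pow_le_pow_right (by omega) (by omega)
        have e2 : (L + 2) ^ e ≤ (L + 2) ^ (d + e) := Nat.pow_le_pow_right (by omega) (by omega)
        have e3 : (L + 2) ^ (d + e + 1) = (L + 2) ^ (d + e) * (L + 2) := pow_succ _ _
        have := hd L
        have := he L
        have e4 : (L + 2) ^ (d + e) * 2 ≤ (L + 2) ^ (d + e) * (L + 2) :=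
          Nat.mul_le_mul_left _ (by omega)
        simp only [Polynomial.eval_add]
        omega
      | monomial n a =>
        refine ⟨a + n, fun L => ?_⟩
        simp only [Polynomial.eval_monomial]
        rw [pow_add]
        refine Nat.mul_le_mul ?_ (Nat.pow_le_pow_left (by omega) _)
        exact (Nat.lt_two_pow_self.le).trans (Nat.pow_le_pow_left (by omega) _)
    obtain ⟨d, hd⟩ := key (P + 2)
    exact ⟨d, fun L => by simpa using hd L⟩
  refine ⟨c * d * (2 * d), fun L => (hc _).trans ?_⟩
  have h1 := one_le_log L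
  have e1 : Nat.log 2 (P.eval L + 2) ≤ d * (Nat.log 2 (L + 2) + 1) := by
    have h2 : P.eval L + 2 < 2 ^ (d * (Nat.log 2 (L + 2) + 1) + 1) := by
      calc P.eval L + 2 ≤ (L + 2) ^ d := hd L
        _ ≤ (2 ^ (Nat.log 2 (L + 2) + 1)) ^ d :=
          Nat.pow_le_pow_left (Nat.lt_pow_succ_log_self one_lt_two _).le _
        _ = 2 ^ (d * (Nat.log 2 (L + 2) + 1)) := by rw [← pow_mul, mul_comm]
        _ < _ := Nat.pow_lt_pow_right one_lt_two (by omega)
    have := Nat.log_lt_of_lt_pow (by omega) h2
    omega
  calc (P.eval L + 2) ^ (c * Nat.log 2 (P.eval L + 2))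
      ≤ ((L + 2) ^ d) ^ (c * Nat.log 2 (P.eval L + 2)) := Nat.pow_le_pow_left (hd L) _
    _ = (L + 2) ^ (d * (c * Nat.log 2 (P.eval L + 2))) := by rw [← pow_mul]
    _ ≤ _ := by
      refine Nat.pow_le_pow_right (by omega) ?_
      calc d * (c * Nat.log 2 (P.eval L + 2))
          ≤ d * (c * (d * (Nat.log 2 (L + 2) + 1))) :=
            Nat.mul_le_mul_left _ (Nat.mul_le_mul_left _ e1)
        _ ≤ d * (c * (d * (2 * Nat.log 2 (L + 2)))) := by
            refine Nat.mul_le_mul_left _ (Nat.mul_le_mul_left _ (Nat.mul_le_mul_left _ ?_))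
            omega
        _ = _ := by ring

end QuasiPoly

/-! ### Loops with quasi-polynomially many rounds -/

/-- Quasi-polynomial time from a general time bound. -/
theorem quasi_of_time {I O α β : Type} {ea : α → List I} {eb : β → List O} {f : α → β}
    {S' N' : ℕ → ℕ} (hS' : QuasiPoly S') (hN' : QuasiPoly N')
    (h : ∃ (P : Polynomial ℕ) (M : TM2ComputableInTime ea eb f),
      M.time = fun L => P.eval (S' L) * (N' L + 1)) :
    ∃ M : TM2ComputableInTime ea eb f, QuasiPoly M.time := by
  obtain ⟨P, M, hM⟩ := h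
  refine ⟨M, ?_⟩
  rw [hM]
  exact (hS'.peval P).mul (hN'.add (QuasiPoly.const 1))

/-- **Quasi-polynomial `while` loops, words over finite alphabets.** The input word is (the
list) `ea a`, the output word is `eb (f a)`; `i a` is any presentation of the input with the same
tree as `ea a` (for instance `ea a` itself). The states have size at most `S'` of the input
length and the number of rounds is at most `N'` of the input length. -/
theorem quasi_while_tm2 {I O : Type} [Finite I] [TEnc I] [Finite O] [TEnc O] [TInj O]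
    {α β : Type} {α' σ : Type*} [TEnc α'] [TEnc σ] {ea : α → List I} {eb : β → List O}
    {f : α → β} {init : α' → σ} {step : σ → σ} {halt : σ → Bool} {out : σ → List O}
    (hinit : PolyF init) (hstep : PolyF step) (hhalt : PolyF halt) (hout : PolyF out)
    (i : α → α') (hi : ∀ a, enc (i a) = enc (ea a)) (N : α' → ℕ)
    (h1 : ∀ x, ∀ j < N x, halt (step^[j] (init x)) = false)
    (h2 : ∀ x, halt (step^[N x] (init x)) = true)
    (h : ∀ a, out (step^[N (i a)] (init (i a))) = eb (f a))
    {S' N' : ℕ → ℕ} (hSq : QuasiPoly S') (hNq : QuasiPoly N') (hSm : Monotone S')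
    (hNm : Monotone N')
    (hS : ∀ x, ∀ j ≤ N x, sz (step^[j] (init x)) ≤ S' (sz x)) (hN : ∀ x, N x ≤ N' (sz x)) :
    ∃ M : TM2ComputableInTime ea eb f, QuasiPoly M.time := by
  cases nonempty_fintype I
  -- the size of the input tree is linear in the length of the word
  obtain ⟨M, hM⟩ : ∃ M, ∀ a : I, (enc a).size ≤ M :=
    ⟨Finset.univ.sup (fun a : I => (enc a).size),
      fun a => Finset.le_sup (f := fun a : I => (enc a).size) (Finset.mem_univ a)⟩
  have hsz : ∀ a, sz (i a) ≤ (Polynomial.C (M + 1) * Polynomial.X).eval (ea a).length := by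
    intro a
    have := T.size_ofList_le (enc : I → T) M hM (ea a)
    unfold sz
    rw [hi, enc_list]
    simpa using this
  have hwh := PolyF.comp_inTime hout (InTime.while (S := fun x => sz x + S' (sz x)) (N := N)
    hinit hstep hhalt (fun x => Nat.le_add_right _ _) h1 h2
    (fun x j hj => (hS x j hj).trans (Nat.le_add_left _ _)))
  refine quasi_of_time (S' := fun L => L + ((Polynomial.C (M + 1) * Polynomial.X).eval L +
    S' ((Polynomial.C (M + 1) * Polynomial.X).eval L)))
    (N' := fun L => N' ((Polynomial.C (M + 1) * Polynomial.X).eval L))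
    (QuasiPoly.self.add ((QuasiPoly.poly _).add (hSq.comp_poly _))) (hNq.comp_poly _)
    (hwh.tm2' i hi h _ _ (fun L => Nat.le_add_right _ _) (fun a => ?_) (fun a => ?_))
  · have e1 := hsz a
    have e2 := hSm e1
    show sz (i a) + S' (sz (i a)) ≤ _
    omega
  · exact (hN _).trans (hNm (hsz a))

/-- **Quasi-polynomial `while` loops**, inputs and outputs written as words of trees. -/
theorem quasi_while_word {α β : Type} {σ : Type*} [TEnc α] [TEnc β] [TEnc σ] {f : α → β}
    {init : α → σ} {step : σ → σ} {halt : σ → Bool} {out : σ → β}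
    (hinit : PolyF init) (hstep : PolyF step) (hhalt : PolyF halt) (hout : PolyF out)
    (N : α → ℕ) (h1 : ∀ x, ∀ j < N x, halt (step^[j] (init x)) = false)
    (h2 : ∀ x, halt (step^[N x] (init x)) = true)
    (h : ∀ a, out (step^[N a] (init a)) = f a)
    {S' N' : ℕ → ℕ} (hSq : QuasiPoly S') (hNq : QuasiPoly N') (hSm : Monotone S')
    (hNm : Monotone N')
    (hS : ∀ x, ∀ j ≤ N x, sz (step^[j] (init x)) ≤ S' (sz x)) (hN : ∀ x, N x ≤ N' (sz x)) :
    ∃ M : TM2ComputableInTime (fun a : α => wd false true a) (fun b : β => wd false true b) f,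
      QuasiPoly M.time := by
  have hwh := PolyF.comp_inTime hout (InTime.while (S := fun x => sz x + S' (sz x)) (N := N)
    hinit hstep hhalt (fun x => Nat.le_add_right _ _) h1 h2
    (fun x j hj => (hS x j hj).trans (Nat.le_add_left _ _)))
  have hlen : ∀ a : α, sz a ≤ (wd false true a).length := fun a => by
    rw [length_wd]; omega
  have hf : (fun x => out (step^[N x] (init x))) = f := funext h
  rw [hf] at hwh
  refine quasi_of_time (S' := fun L => L + S' L) (N' := N') (QuasiPoly.self.add hSq) hNq
    (hwh.tm2_word _ _ (fun L => Nat.le_add_right _ _) (fun a => ?_) (fun a => ?_))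
  · have e1 := hlen a
    have e2 := hSm e1
    show sz a + S' (sz a) ≤ _
    omega
  · exact (hN _).trans (hNm (hlen a))

end Pool.Agent.Lib.PolyTime
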