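import Pool.Agent.Lib.PolyTime.Tree

/-!
# Polynomial-time functions on typed data
-/

set_option linter.unusedSimpArgs false

namespace Pool.Agent.Lib.PolyTime

open Turing Function

/-! ### Basic closure properties -/

namespace PolyF

variable {α β γ δ ε : Type*} [TEnc α] [TEnc β] [TEnc γ] [TEnc δ] [TEnc ε]

theorem congr {f g : α → β} (hf : PolyF f) (h : ∀ x, f x = g x) : PolyF g := by
  have : g = f := funext fun x => (h x).symm
  rw [this]
  exact hf

/-- Bound on the size of the value. -/
theorem bound {f : α → β} (hf : PolyF f) : ∃ Q : Polynomial ℕ, ∀ x, sz (f x) ≤ Q.eval (sz x) :=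
  hf.1

theorem fst' : PolyF (Prod.fst : α × β → α) := left.of_T fun _ => rfl

theorem snd' : PolyF (Prod.snd : α × β → β) := right.of_T fun _ => rfl

theorem fst {f : α → β × γ} (hf : PolyF f) : PolyF (fun x => (f x).1) := fst'.comp hf

theorem snd {f : α → β × γ} (hf : PolyF f) : PolyF (fun x => (f x).2) := snd'.comp hf

theorem val {p : β → Prop} {f : α → {x // p x}} (hf : PolyF f) : PolyF (fun x => (f x).1) :=
  hf.of_enc (fun x => x) (fun _ => rfl) fun _ => rfl

theorem mk {p : β → Prop} {f : α → β} (hf : PolyF f) (h : ∀ x, p (f x)) :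
    PolyF (fun x => (⟨f x, h x⟩ : {x // p x})) :=
  hf.of_enc (fun x => x) (fun _ => rfl) fun _ => rfl

theorem node {f g : α → T} (hf : PolyF f) (hg : PolyF g) : PolyF (fun x => T.node (f x) (g x)) :=
  (hf.pair hg).of_enc (fun x => x) (fun _ => rfl) fun _ => rfl

theorem enc_fun {f : α → β} (hf : PolyF f) : PolyF (fun x => enc (f x)) :=
  hf.of_enc (fun x => x) (fun _ => rfl) fun _ => rfl

/-- Binary functions. -/
theorem comp₂ {f : β → γ → δ} {g : α → β} {h : α → γ} (hf : PolyF (fun p : β × γ => f p.1 p.2))
    (hg : PolyF g) (hh : PolyF h) : PolyF (fun x => f (g x) (h x)) :=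
  (hf.comp (hg.pair hh))

/-! #### Booleans -/

/-- Dependent case distinction on a Boolean. -/
theorem boolCases {c : α → Bool} {f : α → β} (hc : PolyF c)
    (h1 : PolyF (fun x : {x // c x = true} => f x.1))
    (h2 : PolyF (fun x : {x // c x = false} => f x.1)) : PolyF f := by
  refine branch hc ?_ ?_
  · refine h2.of_enc (fun x => ⟨x.1, ?_⟩) (fun _ => rfl) fun _ => rfl
    have := x.2
    cases h : c x.1 <;> simp_all
  · refine h1.of_enc (fun x => ⟨x.1, ?_⟩) (fun _ => rfl) fun _ => rfl
    have := x.2
    cases h : c x.1 <;> simp_all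

/-- Dependent case distinction on a decidable proposition. -/
theorem propCases {p : α → Prop} [DecidablePred p] {f : α → β} (hc : PolyF (fun x => decide (p x)))
    (h1 : PolyF (fun x : {x // p x} => f x.1))
    (h2 : PolyF (fun x : {x // ¬ p x} => f x.1)) : PolyF f := by
  refine boolCases hc ?_ ?_
  · exact h1.of_enc (fun x => ⟨x.1, by simpa using x.2⟩) (fun _ => rfl) fun _ => rfl
  · exact h2.of_enc (fun x => ⟨x.1, by simpa using x.2⟩) (fun _ => rfl) fun _ => rfl

theorem ite {p : α → Prop} [DecidablePred p] {f g : α → β} (hc : PolyF (fun x => decide (p x)))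
    (hf : PolyF f) (hg : PolyF g) : PolyF (fun x => if p x then f x else g x) := by
  refine propCases hc ?_ ?_
  · exact (hf.restrict p).congr fun x => (if_pos x.2).symm
  · exact (hg.restrict _).congr fun x => (if_neg x.2).symm

theorem cond {c : α → Bool} {f g : α → β} (hc : PolyF c)
    (hf : PolyF f) (hg : PolyF g) : PolyF (fun x => bif c x then f x else g x) := by
  refine boolCases hc ?_ ?_
  · exact (hf.restrict _).congr fun x => by rw [x.2]; rfl
  · exact (hg.restrict _).congr fun x => by rw [x.2]; rfl

theorem iteBool {c : α → Bool} {f g : α → β} (hc : PolyF c)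
    (hf : PolyF f) (hg : PolyF g) : PolyF (fun x => if c x = true then f x else g x) :=
  (cond hc hf hg).congr fun x => by cases c x <;> rfl

theorem not {c : α → Bool} (hc : PolyF c) : PolyF (fun x => !c x) :=
  (cond hc (const false) (const true)).congr fun x => by cases c x <;> rfl

theorem and {c d : α → Bool} (hc : PolyF c) (hd : PolyF d) : PolyF (fun x => c x && d x) :=
  (cond hc hd (const false)).congr fun x => by cases c x <;> rfl

theorem or {c d : α → Bool} (hc : PolyF c) (hd : PolyF d) : PolyF (fun x => c x || d x) :=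
  (cond hc (const true) hd).congr fun x => by cases c x <;> rfl

theorem xor {c d : α → Bool} (hc : PolyF c) (hd : PolyF d) : PolyF (fun x => (c x ^^ d x)) :=
  (cond hc (not hd) hd).congr fun x => by cases c x <;> cases d x <;> rfl

/-- Change of the decision procedure, and replacement by an equivalent proposition. -/
theorem decide_congr {p q : α → Prop} [DecidablePred p] [DecidablePred q]
    (hp : PolyF (fun x => decide (p x))) (h : ∀ x, p x ↔ q x) : PolyF (fun x => decide (q x)) :=
  hp.congr fun x => by rw [decide_eq_decide]; exact h x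

theorem decide_and {p q : α → Prop} [DecidablePred p] [DecidablePred q]
    (hp : PolyF (fun x => decide (p x))) (hq : PolyF (fun x => decide (q x))) :
    PolyF (fun x => decide (p x ∧ q x)) :=
  (hp.and hq).congr fun x => by simp

theorem decide_or {p q : α → Prop} [DecidablePred p] [DecidablePred q]
    (hp : PolyF (fun x => decide (p x))) (hq : PolyF (fun x => decide (q x))) :
    PolyF (fun x => decide (p x ∨ q x)) :=
  (hp.or hq).congr fun x => by simp

theorem decide_not {p : α → Prop} [DecidablePred p]
    (hp : PolyF (fun x => decide (p x))) : PolyF (fun x => decide (¬ p x)) :=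
  hp.not.congr fun x => by simp

theorem decide_imp {p q : α → Prop} [DecidablePred p] [DecidablePred q]
    (hp : PolyF (fun x => decide (p x))) (hq : PolyF (fun x => decide (q x))) :
    PolyF (fun x => decide (p x → q x)) :=
  (hp.not.or hq).congr fun x => by by_cases h : p x <;> simp [h]

theorem decide_iff {p q : α → Prop} [DecidablePred p] [DecidablePred q]
    (hp : PolyF (fun x => decide (p x))) (hq : PolyF (fun x => decide (q x))) :
    PolyF (fun x => decide (p x ↔ q x)) :=
  (hp.xor hq).not.congr fun x => by by_cases h : p x <;> by_cases h' : q x <;> simp [h, h']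

theorem decide_bool {c : α → Bool} (hc : PolyF c) : PolyF (fun x => decide (c x = true)) :=
  hc.congr fun x => by simp

/-! #### Options -/

theorem some {f : α → β} (hf : PolyF f) : PolyF (fun x => some (f x)) :=
  (hf.pair (const ())).of_enc (fun x => x) (fun _ => rfl) fun _ => rfl

theorem optionCases {o : α → Option β} {f : α → γ} {g : α → γ} {h : α × β → γ} (ho : PolyF o)
    (hg : PolyF g) (hh : PolyF h) (h1 : ∀ x, o x = none → f x = g x)
    (h2 : ∀ x b, o x = .some b → f x = h (x, b)) : PolyF f := by
  refine branch ho ?_ ?_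
  · refine (hg.restrict _).congr fun x => ?_
    have hx := x.2
    refine (h1 x.1 ?_).symm
    cases h : o x.1 <;> simp_all
  · have hsome : ∀ x : {x // enc (o x) ≠ T.nil}, (o x.1).isSome = true := fun x => by
      have := x.2
      cases h : o x.1 <;> simp_all
    have e1 : PolyF (fun x : {x // enc (o x) ≠ T.nil} => (x.1, (o x.1).get (hsome x))) := by
      refine ((PolyF.id.restrict _).pair ?_)
      refine (left.comp (ho.enc_fun.restrict (fun x => enc (o x) ≠ T.nil))).of_enc (fun x => x)
        (fun _ => rfl) fun x => ?_
      obtain ⟨b, hb⟩ := Option.isSome_iff_exists.1 (hsome x)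
      simp [hb, T.left]
    refine (hh.comp e1).congr fun x => ?_
    exact (h2 x.1 _ (by simp)).symm

theorem optionElim {o : α → Option β} {g : α → γ} {h : α → β → γ} (ho : PolyF o)
    (hg : PolyF g) (hh : PolyF (fun p : α × β => h p.1 p.2)) :
    PolyF (fun x => (o x).elim (g x) (h x)) :=
  optionCases ho hg hh (fun x hx => by simp [hx]) (fun x b hx => by simp [hx])

theorem optionMap {o : α → Option β} {h : α → β → γ} (ho : PolyF o)
    (hh : PolyF (fun p : α × β => h p.1 p.2)) : PolyF (fun x => (o x).map (h x)) :=
  optionCases (g := fun _ => none) ho (const _) hh.some (fun x hx => by simp [hx])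
    (fun x b hx => by simp [hx])

theorem optionBind {o : α → Option β} {h : α → β → Option γ} (ho : PolyF o)
    (hh : PolyF (fun p : α × β => h p.1 p.2)) : PolyF (fun x => (o x).bind (h x)) :=
  optionCases (g := fun _ => none) ho (const _) hh (fun x hx => by simp [hx])
    (fun x b hx => by simp [hx])

theorem getD {o : α → Option β} {g : α → β} (ho : PolyF o) (hg : PolyF g) :
    PolyF (fun x => (o x).getD (g x)) :=
  optionCases ho hg snd' (fun x hx => by simp [hx]) (fun x b hx => by simp [hx])

theorem isSome {o : α → Option β} (ho : PolyF o) : PolyF (fun x => (o x).isSome) :=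
  optionCases ho (const false) (const true) (fun x hx => by simp [hx])
    (fun x b hx => by simp [hx])

theorem isNone {o : α → Option β} (ho : PolyF o) : PolyF (fun x => (o x).isNone) :=
  optionCases ho (const true) (const false) (fun x hx => by simp [hx])
    (fun x b hx => by simp [hx])

/-! #### Sums -/

theorem inl {f : α → β} (hf : PolyF f) : PolyF (fun x => (Sum.inl (f x) : β ⊕ γ)) :=
  ((const false).pair hf).of_enc (fun x => x) (fun _ => rfl) fun _ => rfl

theorem inr {f : α → γ} (hf : PolyF f) : PolyF (fun x => (Sum.inr (f x) : β ⊕ γ)) :=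
  ((const true).pair hf).of_enc (fun x => x) (fun _ => rfl) fun _ => rfl

theorem sumCases {o : α → β ⊕ γ} {f : α → δ} {g : α × β → δ} {h : α × γ → δ} (ho : PolyF o)
    (hg : PolyF g) (hh : PolyF h) (h1 : ∀ x b, o x = .inl b → f x = g (x, b))
    (h2 : ∀ x b, o x = .inr b → f x = h (x, b)) : PolyF f := by
  have hc : PolyF (fun x => (o x).isRight) :=
    (left.comp ho.enc_fun).of_enc (fun x => x) (fun _ => rfl) fun x => by
      cases h : o x <;> simp [h, T.left]
  refine boolCases hc ?_ ?_
  · have e1 : PolyF (fun x : {x // (o x).isRight = true} => (x.1, (o x.1).getRight x.2)) := by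
      refine ((PolyF.id.restrict _).pair ?_)
      refine (right.comp (ho.enc_fun.restrict (fun x => (o x).isRight = true))).of_enc (fun x => x)
        (fun _ => rfl) fun x => ?_
      obtain ⟨b, hb⟩ := Sum.isRight_iff.1 x.2
      simp [hb, T.right]
    exact (hh.comp e1).congr fun x => (h2 x.1 _ (by simp)).symm
  · have hl : ∀ x, (o x).isRight = false → (o x).isLeft = true := fun x hx => by
      cases h : o x <;> simp_all
    have e1 : PolyF (fun x : {x // (o x).isRight = false} =>
        (x.1, (o x.1).getLeft (hl _ x.2))) := by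
      refine ((PolyF.id.restrict _).pair ?_)
      refine (right.comp (ho.enc_fun.restrict (fun x => (o x).isRight = false))).of_enc
        (fun x => x) (fun _ => rfl) fun x => ?_
      obtain ⟨b, hb⟩ := Sum.isLeft_iff.1 (hl _ x.2)
      simp [hb, T.right]
    exact (hg.comp e1).congr fun x => (h1 x.1 _ (by simp)).symm

/-! #### Lists: constructors and cases -/

theorem cons {f : α → β} {g : α → List β} (hf : PolyF f) (hg : PolyF g) :
    PolyF (fun x => f x :: g x) :=
  (hf.pair hg).of_enc (fun x => x) (fun _ => rfl) fun _ => rfl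

theorem nil : PolyF (fun _ : α => ([] : List β)) := const _

theorem singleton {f : α → β} (hf : PolyF f) : PolyF (fun x => [f x]) := hf.cons nil

theorem listCases {l : α → List β} {f : α → γ} {g : α → γ} {h : α × β × List β → γ}
    (hl : PolyF l) (hg : PolyF g) (hh : PolyF h) (h1 : ∀ x, l x = [] → f x = g x)
    (h2 : ∀ x b t, l x = b :: t → f x = h (x, b, t)) : PolyF f := by
  refine branch hl ?_ ?_
  · exact (hg.restrict _).congr fun x => (h1 x.1 (enc_list_eq_nil.1 x.2)).symm
  · have hne : ∀ x : {x // enc (l x) ≠ T.nil}, l x.1 ≠ [] := fun x h => x.2 (by rw [h]; rfl)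
    have e1 : PolyF (fun x : {x // enc (l x) ≠ T.nil} =>
        (x.1, (l x.1).head (hne x), (l x.1).tail)) := by
      refine ((PolyF.id.pair hl).restrict (fun x => enc (l x) ≠ T.nil)).of_enc (fun x => x)
        (fun _ => rfl) fun x => ?_
      obtain ⟨b, t, hb⟩ := List.exists_cons_of_ne_nil (hne x)
      simp only [enc_prod]
      have : enc (l x.1) = .node (enc b) (enc t) := by rw [hb]; rfl
      rw [this]
      simp [hb]
    exact (hh.comp e1).congr fun x => (h2 x.1 _ _ (by simp)).symm

theorem head? {l : α → List β} (hl : PolyF l) : PolyF (fun x => (l x).head?) :=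
  listCases (g := fun _ => none) hl (const _) (fst'.comp snd').some (fun x hx => by simp [hx])
    (fun x b t hx => by simp [hx])

theorem tail {l : α → List β} (hl : PolyF l) : PolyF (fun x => (l x).tail) :=
  (right.comp hl.enc_fun).of_enc (fun x => x) (fun _ => rfl) fun x => by
    cases h : l x <;> simp [h, T.right]

theorem isEmpty {l : α → List β} (hl : PolyF l) : PolyF (fun x => (l x).isEmpty) :=
  listCases hl (const true) (const false) (fun x hx => by simp [hx])
    (fun x b t hx => by simp [hx])

/-! #### Natural numbers (unary): constructors and cases -/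

theorem succ {f : α → ℕ} (hf : PolyF f) : PolyF (fun x => f x + 1) :=
  ((const ()).pair hf).of_enc (fun x => x) (fun _ => rfl) fun _ => rfl

theorem natCases {n : α → ℕ} {f : α → γ} {g : α → γ} {h : α × ℕ → γ}
    (hn : PolyF n) (hg : PolyF g) (hh : PolyF h) (h1 : ∀ x, n x = 0 → f x = g x)
    (h2 : ∀ x m, n x = m + 1 → f x = h (x, m)) : PolyF f := by
  refine branch hn ?_ ?_
  · refine (hg.restrict _).congr fun x => (h1 x.1 ?_).symm
    have := x.2
    cases h : n x.1 <;> simp_all
  · have hne : ∀ x : {x // enc (n x) ≠ T.nil}, n x.1 ≠ 0 := fun x h => x.2 (by rw [h]; rfl)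
    have e1 : PolyF (fun x : {x // enc (n x) ≠ T.nil} => (x.1, n x.1 - 1)) := by
      refine (PolyF.id.restrict _).pair ?_
      refine (right.comp (hn.enc_fun.restrict (fun x => enc (n x) ≠ T.nil))).of_enc (fun x => x)
        (fun _ => rfl) fun x => ?_
      obtain ⟨m, hm⟩ := Nat.exists_eq_succ_of_ne_zero (hne x)
      simp [hm, T.right]
    refine (hh.comp e1).congr fun x => (h2 x.1 _ ?_).symm
    have := hne x
    show n x.1 = n x.1 - 1 + 1
    omega

theorem pred {f : α → ℕ} (hf : PolyF f) : PolyF (fun x => f x - 1) :=
  natCases hf (const 0) snd' (fun x hx => by simp [hx]) (fun x m hx => by simp [hx])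

/-! #### Iteration -/

/-- Iteration of a step function with a parameter. -/
theorem iterate {n : α → δ} {f : α → γ → γ} {g : α → γ} (hn : PolyF n)
    (hf : PolyF (fun p : α × γ => f p.1 p.2)) (hg : PolyF g)
    (hb : ∃ B : Polynomial ℕ, ∀ x, ∀ i ≤ sz (n x), sz ((f x)^[i] (g x)) ≤ B.eval (sz x)) :
    PolyF (fun x => (f x)^[sz (n x)] (g x)) := by
  have key : ∀ (i : ℕ) (x : α) (c : γ),
      (fun p : α × γ => (p.1, f p.1 p.2))^[i] (x, c) = (x, (f x)^[i] c) := by
    intro i
    induction i with
    | zero => intro x c; rfl
    | succ i ih => intro x c; rw [iterate_succ_apply, iterate_succ_apply, ih]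
  obtain ⟨B, hB⟩ := hb
  refine (iter (n := n) (f := fun p : α × γ => (p.1, f p.1 p.2)) (g := fun x => (x, g x)) hn
    (fst'.pair hf) (PolyF.id.pair hg) ⟨1 + Polynomial.X + B, fun x i hi => ?_⟩).snd.congr
    fun x => ?_
  · rw [key]
    have := hB x i hi
    simp only [sz_prod, Polynomial.eval_add, Polynomial.eval_one, Polynomial.eval_X]
    omega
  · rw [key]

theorem natIterate {n : α → ℕ} {f : α → γ → γ} {g : α → γ} (hn : PolyF n)
    (hf : PolyF (fun p : α × γ => f p.1 p.2)) (hg : PolyF g)
    (hb : ∃ B : Polynomial ℕ, ∀ x, ∀ i ≤ n x, sz ((f x)^[i] (g x)) ≤ B.eval (sz x)) :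
    PolyF (fun x => (f x)^[n x] (g x)) := by
  have := iterate hn hf hg (by simpa using hb)
  simpa using this

/-! #### Left folds -/

theorem foldl {l : α → List β} {i : α → γ} {f : α → γ → β → γ} (hl : PolyF l) (hi : PolyF i)
    (hf : PolyF (fun p : α × γ × β => f p.1 p.2.1 p.2.2))
    (hb : ∃ B : Polynomial ℕ, ∀ x, ∀ k ≤ (l x).length,
      sz (((l x).take k).foldl (f x) (i x)) ≤ B.eval (sz x)) :
    PolyF (fun x => (l x).foldl (f x) (i x)) := by
  obtain ⟨B, hB⟩ := hb
  obtain ⟨Q, hQ⟩ := hl.bound
  let step : α → γ × List β → γ × List β := fun x p => match p.2 with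
    | [] => (p.1, [])
    | b :: t => (f x p.1 b, t)
  have hstep : PolyF (fun p : α × γ × List β => step p.1 p.2) := by
    refine listCases (l := fun p : α × γ × List β => p.2.2)
      (g := fun p : α × γ × List β => (p.2.1, ([] : List β)))
      (h := fun q : (α × γ × List β) × β × List β => (f q.1.1 q.1.2.1 q.2.1, q.2.2))
      snd'.snd (snd'.fst.pair nil) ((hf.comp (fst'.fst.pair (fst'.snd.fst.pair snd'.fst))).pair
        snd'.snd) ?_ ?_
    · intro p hp
      simp only [step, hp]
    · intro p b t hp
      simp only [step, hp]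
  have key : ∀ (k : ℕ) (x : α), (step x)^[k] (i x, l x) =
      (((l x).take k).foldl (f x) (i x), (l x).drop k) := by
    intro k x
    induction k with
    | zero => simp
    | succ k ih =>
      rw [iterate_succ_apply', ih]
      simp only [step]
      rcases hd : (l x).drop k with _ | ⟨b, t⟩
      · have hlen : (l x).length ≤ k := List.drop_eq_nil_iff.1 hd
        rw [List.take_of_length_le hlen, List.take_of_length_le (by omega),
          List.drop_of_length_le (by omega)]
      · have hlt : k < (l x).length := by
          by_contra hcon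
          rw [List.drop_of_length_le (by omega)] at hd
          simp at hd
        have e1 := List.drop_eq_getElem_cons hlt
        rw [hd] at e1
        simp only [List.cons.injEq] at e1
        rw [List.take_add_one, List.getElem?_eq_getElem hlt, List.foldl_append, ← e1.1, e1.2]
        rfl
  refine (iterate (n := l) (f := step) (g := fun x => (i x, l x)) hl hstep (hi.pair hl)
    ⟨1 + B + Q, fun x k hk => ?_⟩).fst.congr fun x => ?_
  · rw [key, sz_prod]
    simp only [Polynomial.eval_add, Polynomial.eval_one]
    have h1 : sz (((l x).take k).foldl (f x) (i x)) ≤ B.eval (sz x) := by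
      rcases le_total k (l x).length with h | h
      · exact hB x k h
      · have := hB x _ le_rfl
        rw [List.take_of_length_le h]
        rwa [List.take_length] at this
    have h2 := (sz_sublist (List.drop_sublist k (l x))).trans (hQ x)
    omega
  · rw [key, List.take_of_length_le (length_le_sz _)]

end PolyF

end Pool.Agent.Lib.PolyTime
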