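import Pool.Agent.Lib.PolyTime.Bridge

/-!
# Unbounded loops and general time bounds

`InTime S N f` : the function `f` is computed by a structured program in time
`P (S x) * (N x + 1)` for a polynomial `P` (for instance `S x` = size of the input or a bound for
the size of the intermediate states, `N x` = number of rounds of a loop).

* `PolyF.inTime`   : polynomial-time functions;
* `InTime.comp`    : composition with polynomial-time functions;
* `InTime.while`   : a `while`-loop whose step and test are polynomial-time functions;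
* `InTime.tm2_core`: bridge to Mathlib's `Turing.TM2ComputableInTime`;
* `QuasiPoly`      : quasi-polynomial bounds.
-/

set_option linter.unusedSimpArgs false

namespace Pool.Agent.Lib.PolyTime

open Turing Function

/-- The program `p` with registers below `k` computes `f` in time `t`. -/
def ComputesT {α β : Type*} [TEnc α] [TEnc β] {A : Type} (z o : A) (p : Prog A) (k : ℕ)
    (t : α → ℕ) (f : α → β) : Prop :=
  0 < k ∧ Below p k ∧ ∀ (x : α) (s : St A), s 0 = wd z o x → (∀ i, 0 < i → i < k → s i = []) →
    Run p s (update s 0 (wd z o (f x))) (t x)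

/-- Functions computable in time `P (S x) * (N x + 1)` for some polynomial `P`. -/
def InTime {α β : Type*} [TEnc α] [TEnc β] (S N : α → ℕ) (f : α → β) : Prop :=
  (∃ Q : Polynomial ℕ, ∀ x, sz (f x) ≤ Q.eval (S x)) ∧
    ∀ (A : Type) (z o : A), z ≠ o → ∃ (p : Prog A) (k : ℕ) (P : Polynomial ℕ),
      ComputesT z o p k (fun x => P.eval (S x) * (N x + 1)) f

section

variable {α β γ σ : Type*} [TEnc α] [TEnc β] [TEnc γ] [TEnc σ]

theorem ComputesT.mono {A : Type} {z o : A} {p : Prog A} {k : ℕ} {t t' : α → ℕ} {f : α → β}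
    (h : ComputesT z o p k t f) (h' : ∀ x, t x ≤ t' x) : ComputesT z o p k t' f :=
  ⟨h.1, h.2.1, fun x s h0 hs => (h.2.2 x s h0 hs).mono (h' x)⟩

theorem Computes.computesT {A : Type} {z o : A} {p : Prog A} {k : ℕ} {P : Polynomial ℕ}
    {f : α → β} (h : Computes z o p k P f) : ComputesT z o p k (fun x => P.eval (sz x)) f := h

theorem ComputesT.comp {A : Type} {z o : A} {p q : Prog A} {k l : ℕ} {t : β → ℕ} {u : α → ℕ}
    {f : β → γ} {g : α → β} (hf : ComputesT z o p k t f) (hg : ComputesT z o q l u g) :
    ComputesT z o (.seq q p) (max k l) (fun x => u x + t (g x)) (fun x => f (g x)) := by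
  obtain ⟨hkf, hbf, hrf⟩ := hf
  obtain ⟨hkg, hbg, hrg⟩ := hg
  refine ⟨lt_max_of_lt_left hkf,
      ⟨hbg.mono (le_max_right _ _), hbf.mono (le_max_left _ _)⟩, fun x s h hs => ?_⟩
  have h1 := hrg x s h (fun i h0 hi => hs i h0 (lt_max_of_lt_right hi))
  have h2 := hrf (g x) (update s 0 (wd z o (g x))) (update_self _ _ _)
      (fun i h0 hi => by
        rw [update_of_ne h0.ne']
        exact hs i h0 (lt_max_of_lt_left hi))
  exact (h1.seq h2).cast (by simp) le_rfl

open Polynomial in
/-- A polynomial dominating two polynomials. -/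
theorem exists_poly_ge (P Q : Polynomial ℕ) :
    ∃ R : Polynomial ℕ, ∀ n, P.eval n ≤ R.eval n ∧ Q.eval n ≤ R.eval n :=
  ⟨P + Q, fun n => by simp [eval_add]⟩

/-- Polynomial-time functions; `S` is any function bounding the input size. -/
theorem PolyF.inTime {f : α → β} (hf : PolyF f) {S N : α → ℕ} (hS : ∀ x, sz x ≤ S x) :
    InTime S N f := by
  obtain ⟨⟨Q, hQ⟩, hf⟩ := hf
  refine ⟨⟨Q, fun x => (hQ x).trans (peval_mono _ (hS x))⟩, fun A z o hzo => ?_⟩
  obtain ⟨p, k, P, h⟩ := hf A z o hzo
  refine ⟨p, k, P, h.computesT.mono fun x => ?_⟩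
  exact (peval_mono P (hS x)).trans (Nat.le_mul_of_pos_right _ (Nat.succ_pos _))

theorem InTime.mono {f : α → β} {S N S' N' : α → ℕ} (hf : InTime S N f) (hS : ∀ x, S x ≤ S' x)
    (hN : ∀ x, N x ≤ N' x) : InTime S' N' f := by
  obtain ⟨⟨Q, hQ⟩, hf⟩ := hf
  refine ⟨⟨Q, fun x => (hQ x).trans (peval_mono _ (hS x))⟩, fun A z o hzo => ?_⟩
  obtain ⟨p, k, P, h⟩ := hf A z o hzo
  refine ⟨p, k, P, h.mono fun x => ?_⟩
  exact Nat.mul_le_mul (peval_mono P (hS x)) (by have := hN x; omega)

open Polynomial in
/-- Replace the size bound by a polynomially related one. -/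
theorem InTime.of_poly {f : α → β} {S N S' : α → ℕ} (hf : InTime S N f) (Q : Polynomial ℕ)
    (hS : ∀ x, S x ≤ Q.eval (S' x)) : InTime S' N f := by
  obtain ⟨⟨R, hR⟩, hf⟩ := hf
  refine ⟨⟨R.comp Q, fun x => ?_⟩, fun A z o hzo => ?_⟩
  · rw [eval_comp]
    exact (hR x).trans (peval_mono _ (hS x))
  obtain ⟨p, k, P, h⟩ := hf A z o hzo
  refine ⟨p, k, P.comp Q, h.mono fun x => ?_⟩
  rw [eval_comp]
  exact Nat.mul_le_mul_right _ (peval_mono P (hS x))

open Polynomial in
theorem InTime.comp {f : β → γ} {g : α → β} {S' N' : β → ℕ} {S N : α → ℕ} (hf : InTime S' N' f)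
    (hg : InTime S N g) (hS : ∃ Q : Polynomial ℕ, ∀ x, S' (g x) ≤ Q.eval (S x))
    (hN : ∀ x, N' (g x) ≤ N x) : InTime S N (fun x => f (g x)) := by
  obtain ⟨Q, hQ⟩ := hS
  obtain ⟨⟨Qf, hQf⟩, hf⟩ := hf
  obtain ⟨⟨Qg, hQg⟩, hg⟩ := hg
  refine ⟨⟨Qf.comp Q, fun x => ?_⟩, fun A z o hzo => ?_⟩
  · rw [eval_comp]
    exact (hQf _).trans (peval_mono _ (hQ x))
  · obtain ⟨pf, kf, Pf, hf⟩ := hf A z o hzo
    obtain ⟨pg, kg, Pg, hg⟩ := hg A z o hzo
    refine ⟨_, _, Pg + Pf.comp Q, (hf.comp hg).mono fun x => ?_⟩
    rw [eval_add, eval_comp, add_mul]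
    exact Nat.add_le_add_left (Nat.mul_le_mul (peval_mono Pf (hQ x))
      (by have := hN x; omega)) _

/-- Precomposition with a polynomial-time function. -/
theorem InTime.comp_polyF {f : β → γ} {g : α → β} {S' N' : β → ℕ} {S N : α → ℕ}
    (hf : InTime S' N' f) (hg : PolyF g) (hsz : ∀ x, sz x ≤ S x)
    (hS : ∃ Q : Polynomial ℕ, ∀ x, S' (g x) ≤ Q.eval (S x))
    (hN : ∀ x, N' (g x) ≤ N x) : InTime S N (fun x => f (g x)) :=
  hf.comp (hg.inTime hsz) hS hN

/-- Postcomposition with a polynomial-time function. -/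
theorem PolyF.comp_inTime {f : β → γ} {g : α → β} {S N : α → ℕ} (hf : PolyF f)
    (hg : InTime S N g) : InTime S N (fun x => f (g x)) :=
  (hf.inTime (S := sz) (N := fun _ => 0) (fun _ => le_rfl)).comp hg hg.1 (fun _ => Nat.zero_le _)

end

/-! ### Loops -/

section While

variable {α β σ : Type*} [TEnc α] [TEnc β] [TEnc σ]

open Classical in
/-- The body of the loop: register `K` contains the loop symbol, the state is in register `0`;
`ph` computes the test and `ps` the step. -/
noncomputable def whileBody {A : Type} (o : A) (K : ℕ) (ph ps : Prog A) : Prog A :=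
  .popc K fun _ => .seq (save 0 (K + 1) (K + 2)) <| .seq ph <| .popc 0 fun a =>
    .seq (.seq (clear 0) (moveRev (K + 1) 0)) <| if a = some o then .skip else
      .seq ps (.push K o)

theorem below_whileBody {A : Type} {o : A} {K : ℕ} {ph ps : Prog A} {N : ℕ} (hK : K + 2 < N)
    (hh : Below ph N) (hs : Below ps N) : Below (whileBody o K ph ps) N := by
  refine ⟨by omega, fun _ => ⟨below_save (by omega) (by omega) (by omega), hh, by omega,
    fun a => ⟨⟨below_clear (by omega), below_moveRev (by omega) (by omega)⟩, ?_⟩⟩⟩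
  split_ifs
  · trivial
  · exact ⟨hs, by show K < N; omega⟩

open Classical in
theorem run_whileBody {A : Type} {z o : A} (hzo : z ≠ o) {ph ps : Prog A} {kh ks K : ℕ}
    {th ts : σ → ℕ} {halt : σ → Bool} {step : σ → σ} (hh : ComputesT z o ph kh th halt)
    (hs : ComputesT z o ps ks ts step) (hK : 0 < K) (hkh : kh ≤ K) (hks : ks ≤ K)
    (x : σ) (s : St A) (a : A) (h0 : s 0 = wd z o x) (h1 : s K = [a]) (h2 : s (K + 1) = [])
    (h3 : s (K + 2) = []) (h4 : ∀ i, 0 < i → i < K → s i = []) :
    (halt x = true → Run (whileBody o K ph ps) s (update s K []) (th x + 40 * (sz x + 1))) ∧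
    (halt x = false → Run (whileBody o K ph ps) s (update (update s 0 (wd z o (step x))) K [o])
      (th x + ts x + 40 * (sz x + 1))) := by
  have n0 : K ≠ 0 := by omega
  have n1 : K + 1 ≠ 0 := by omega
  have n2 : K + 2 ≠ 0 := by omega
  have n3 : K + 1 ≠ K + 2 := by omega
  have n4 : K ≠ K + 1 := by omega
  have n5 : K ≠ K + 2 := by omega
  let s0 := update s K []
  let s1 := update s0 (K + 1) (wd z o x).reverse
  let s2 := update s1 0 (wd z o (halt x))
  have r1 : Run (save 0 (K + 1) (K + 2)) s0 s1 (7 * (2 * sz x + 1) + 2) := by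
    refine (run_save n1.symm n2.symm n3 s0 ?_).cast ?_ ?_
    · simp [s0, n5.symm, h3]
    · simp [s0, s1, n4.symm, n0.symm, h0, h2]
    · simp [s0, n0.symm, h0]
  have r2 : Run ph s1 s2 (th x) := by
    refine hh.2.2 x s1 ?_ ?_
    · simp only [s1, s0]; rw [update_of_ne n1.symm, update_of_ne n0.symm, h0]
    · intro i hi hi'
      simp only [s1, s0]
      rw [update_of_ne (by omega), update_of_ne (by omega)]
      exact h4 i hi (by omega)
  have hs0K : s0 (K + 1) = [] := by simp [s0, n4.symm, h2]
  have hs0 : s0 0 = wd z o x := by simp [s0, n0.symm, h0]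
  constructor
  · intro hx
    have hw : wd z o (halt x) = [o, z, z] := by rw [hx]; simp [wd, T.word]
    have r3 := Run.popc_cons (a := o) (l := [z, z]) (k := 0)
      (f := fun a => .seq (.seq (clear 0) (moveRev (K + 1) 0)) <| if a = some o then .skip else
        .seq ps (.push K o)) (s := s2) (s' := s0)
      (t := 3 * ([z, z] : List A).length + 3 * (wd z o x).length + 2 + 1)
      (by simp only [s2]; rw [update_self, hw]) (by
        rw [if_pos rfl]
        have e : update s2 0 [z, z] = update (update s0 (K + 1) (wd z o x).reverse) 0 [z, z] := by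
          simp only [s2, s1, update_idem]
        rw [e]
        exact (PolyF.run_restore (K := K + 1) (by omega) s0 (wd z o x) [z, z] hs0 hs0K).seq
          (Run.skip _))
    refine (Run.popc_cons (a := a) (l := []) h1 (r1.seq (r2.seq r3))).cast rfl ?_
    simp
    omega
  · intro hx
    have hw : wd z o (halt x) = [z] := by rw [hx]; simp [wd, T.word]
    have r4 : Run ps s0 (update s0 0 (wd z o (step x))) (ts x) := by
      refine hs.2.2 x s0 hs0 fun i hi hi' => ?_
      simp only [s0]
      rw [update_of_ne (by omega)]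
      exact h4 i hi (by omega)
    have r3 := Run.popc_cons (a := z) (l := []) (k := 0)
      (f := fun a => .seq (.seq (clear 0) (moveRev (K + 1) 0)) <| if a = some o then .skip else
        .seq ps (.push K o)) (s := s2)
      (s' := update (update s 0 (wd z o (step x))) K [o])
      (t := 3 * ([] : List A).length + 3 * (wd z o x).length + 2 + (ts x + 1))
      (by simp only [s2]; rw [update_self, hw]) (by
        rw [if_neg (by simpa using hzo)]
        have e : update s2 0 [] = update (update s0 (K + 1) (wd z o x).reverse) 0 [] := by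
          simp only [s2, s1, update_idem]
        rw [e]
        refine (PolyF.run_restore (K := K + 1) (by omega) s0 (wd z o x) [] hs0 hs0K).seq
          (r4.seq ((Run.push K o _).cast ?_ le_rfl))
        funext i
        simp only [s0, update_apply]
        split_ifs <;> simp_all)
    refine (Run.popc_cons (a := a) (l := []) h1 (r1.seq (r2.seq r3))).cast rfl ?_
    simp
    omega

open Classical in
theorem run_while {A : Type} {z o : A} (hzo : z ≠ o) {ph ps : Prog A} {kh ks K : ℕ}
    {th ts : σ → ℕ} {halt : σ → Bool} {step : σ → σ} (hh : ComputesT z o ph kh th halt)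
    (hs : ComputesT z o ps ks ts step) (hK : 0 < K) (hkh : kh ≤ K) (hks : ks ≤ K) (B n : ℕ) :
    ∀ (x : σ) (s : St A) (a : A), s 0 = wd z o x → s K = [a] → s (K + 1) = [] →
      s (K + 2) = [] → (∀ i, 0 < i → i < K → s i = []) →
      (∀ i < n, halt (step^[i] x) = false) → halt (step^[n] x) = true →
      (∀ i ≤ n, th (step^[i] x) + ts (step^[i] x) + 40 * (sz (step^[i] x) + 1) ≤ B) →
      Run (.whl K (whileBody o K ph ps)) s (update (update s K []) 0 (wd z o (step^[n] x)))
        ((B + 1) * (n + 1) + 1) := by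
  have n0 : K ≠ 0 := by omega
  induction n with
  | zero =>
    intro x s a h0 h1 h2 h3 h4 hlt heq hB
    have hx : halt x = true := heq
    have hBx := hB 0 le_rfl
    simp only [iterate_zero, id_eq] at hBx
    have r := (run_whileBody hzo hh hs hK hkh hks x s a h0 h1 h2 h3 h4).1 hx
    refine (Run.whl_step (by simp [h1]) r (Run.whl_done (by simp))).cast ?_ (by omega)
    simp only [iterate_zero, id_eq]
    funext i
    simp only [update_apply]
    split_ifs <;> simp_all
  | succ n ih =>
    intro x s a h0 h1 h2 h3 h4 hlt heq hB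
    have hx : halt x = false := hlt 0 (by omega)
    have hBx := hB 0 (by omega)
    simp only [iterate_zero, id_eq] at hBx
    have r := (run_whileBody hzo hh hs hK hkh hks x s a h0 h1 h2 h3 h4).2 hx
    have r' := ih (step x) (update (update s 0 (wd z o (step x))) K [o]) o
      (by simp [n0.symm]) (by simp) (by simp [h2]) (by simp [h3])
      (fun i hi hi' => by
        rw [update_of_ne (by omega), update_of_ne (by omega)]
        exact h4 i hi hi')
      (fun i hi => by rw [← iterate_succ_apply]; exact hlt (i + 1) (by omega))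
      (by rw [← iterate_succ_apply]; exact heq)
      (fun i hi => by rw [← iterate_succ_apply]; exact hB (i + 1) (by omega))
    refine (Run.whl_step (by simp [h1]) r r').cast ?_ ?_
    · rw [← iterate_succ_apply]
      funext i
      simp only [update_apply]
      split_ifs <;> simp_all
    · have e : (B + 1) * (n + 1 + 1) = (B + 1) * (n + 1) + (B + 1) := by ring
      omega

open Polynomial in
open Classical in
/-- **While loops.** If `step` and `halt` are polynomial-time functions and, started at `init x`,
the iteration of `step` first satisfies `halt` after exactly `N x` rounds, all the states on the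
way having size at most `S x`, then the result is computed in time `P (S x) * (N x + 1)`. -/
theorem InTime.while {init : α → σ} {step : σ → σ} {halt : σ → Bool} {S N : α → ℕ}
    (hi : PolyF init) (hs : PolyF step) (hh : PolyF halt) (hsz : ∀ x, sz x ≤ S x)
    (h1 : ∀ x, ∀ i < N x, halt (step^[i] (init x)) = false)
    (h2 : ∀ x, halt (step^[N x] (init x)) = true)
    (h3 : ∀ x, ∀ i ≤ N x, sz (step^[i] (init x)) ≤ S x) :
    InTime S N (fun x => step^[N x] (init x)) := by
  refine ⟨⟨X, fun x => by simpa using h3 x _ le_rfl⟩, fun A z o hzo => ?_⟩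
  obtain ⟨pi, ki, Pi, hki, hbi, hri⟩ := hi.2 A z o hzo
  obtain ⟨ps, ks, Ps, hps⟩ := hs.2 A z o hzo
  obtain ⟨ph, kh, Ph, hph⟩ := hh.2 A z o hzo
  obtain ⟨K, hK⟩ : ∃ K, K = max (max ki ks) kh := ⟨_, rfl⟩
  have hK0 : 0 < K := by omega
  have n0 : K ≠ 0 := by omega
  refine ⟨.seq pi (.seq (.push K o) (.whl K (whileBody o K ph ps))), K + 3,
    Pi + Ps + Ph + C 100 * (1 + X), by omega,
    ⟨hbi.mono (by omega), by show K < K + 3; omega, by omega,
      below_whileBody (by omega) (hph.2.1.mono (by omega)) (hps.2.1.mono (by omega))⟩,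
    fun x s h hs' => ?_⟩
  let s1 := update s 0 (wd z o (init x))
  let s2 := update s1 K [o]
  have r1 : Run pi s s1 (Pi.eval (sz x)) := hri x s h (fun i hi hi' => hs' i hi (by omega))
  have r2 : Run (.push K o) s1 s2 1 := by
    refine (Run.push K o s1).cast ?_ le_rfl
    simp only [s1, s2]
    rw [update_of_ne n0, hs' K (by omega) (by omega)]
  have r3 := run_while hzo hph.computesT hps.computesT hK0 (by omega) (by omega)
    (Ph.eval (S x) + Ps.eval (S x) + 40 * (S x + 1)) (N x) (init x) s2 o
    (by simp [s2, s1, n0.symm]) (by simp [s2])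
    (by simp only [s2, s1]; rw [update_of_ne (by omega), update_of_ne (by omega)]
        exact hs' _ (by omega) (by omega))
    (by simp only [s2, s1]; rw [update_of_ne (by omega), update_of_ne (by omega)]
        exact hs' _ (by omega) (by omega))
    (fun i hi hi' => by
      simp only [s2, s1]; rw [update_of_ne (by omega), update_of_ne (by omega)]
      exact hs' _ (by omega) (by omega))
    (h1 x) (h2 x) (fun i hi => by
      have e := h3 x i hi
      have e1 := peval_mono Ph e
      have e2 := peval_mono Ps e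
      omega)
  refine (r1.seq (r2.seq r3)).cast ?_ ?_
  · simp only [s2, s1]
    have hsK : s K = [] := hs' K (by omega) (by omega)
    funext i
    simp only [update_apply]
    split_ifs <;> simp_all
  · simp only [eval_add, eval_mul, eval_C, eval_X, eval_one]
    have e := peval_mono Pi (hsz x)
    have e' : Pi.eval (S x) ≤ Pi.eval (S x) * (N x + 1) := Nat.le_mul_of_pos_right _ (by omega)
    have e2 : (Ph.eval (S x) + Ps.eval (S x) + 40 * (S x + 1) + 1) * (N x + 1) =
      (Ph.eval (S x) + Ps.eval (S x)) * (N x + 1) + (40 * S x + 41) * (N x + 1) := by ring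
    have e3 : (Pi.eval (S x) + Ps.eval (S x) + Ph.eval (S x) + 100 * (1 + S x)) * (N x + 1) =
      Pi.eval (S x) * (N x + 1) + (Ph.eval (S x) + Ps.eval (S x)) * (N x + 1) +
        (100 * S x + 100) * (N x + 1) := by ring
    have e4 : (40 * S x + 41) * (N x + 1) + 59 * (N x + 1) ≤ (100 * S x + 100) * (N x + 1) := by
      nlinarith [Nat.zero_le (S x * N x)]
    rw [e2, e3]
    omega

end While

end Pool.Agent.Lib.PolyTime
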